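import Mathlib

/-!
# The cochain algebra of a finite poset with coefficients in a decreasing family of subalgebras
-/

open Finset

namespace Pool.Agent.W628.KM

variable {S : Type} [PartialOrder S] {P : Type} [CommRing P]

/-- A flag: a nonempty finite chain. -/
def IsFlag (c : Finset S) : Prop := c.Nonempty ∧ IsChain (· ≤ ·) (c : Set S)

/-- The type of flags of a poset. -/
def Flag (S : Type) [PartialOrder S] : Type := {c : Finset S // IsFlag c}

/-- Cochains: functions on the set of flags. -/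
def Conv (S : Type) [PartialOrder S] (P : Type) : Type := Flag S → P

instance : AddCommGroup (Conv S P) := Pi.addCommGroup
instance {k : Type} [Semiring k] [Module k P] : Module k (Conv S P) :=
  Pi.module (Flag S) (fun _ => P) k

@[ext] lemma Conv.ext {φ ψ : Conv S P} (h : ∀ c, φ c = ψ c) : φ = ψ := funext h

lemma Conv.add_apply (φ ψ : Conv S P) (c : Flag S) : (φ + ψ) c = φ c + ψ c := rfl
lemma Conv.neg_apply (φ : Conv S P) (c : Flag S) : (-φ) c = -φ c := rfl
lemma Conv.sub_apply (φ ψ : Conv S P) (c : Flag S) : (φ - ψ) c = φ c - ψ c := rfl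
lemma Conv.zero_apply (c : Flag S) : (0 : Conv S P) c = 0 := rfl
lemma Conv.smul_apply (p : P) (φ : Conv S P) (c : Flag S) : (p • φ) c = p * φ c := rfl

open Classical in
/-- Extension by zero to all finite sets. -/
noncomputable def ex (φ : Conv S P) (c : Finset S) : P := if h : IsFlag c then φ ⟨c, h⟩ else 0

lemma ex_flag (φ : Conv S P) (c : Flag S) : ex φ c.1 = φ c := dif_pos c.2

lemma ex_of_not (φ : Conv S P) {c : Finset S} (h : ¬ IsFlag c) : ex φ c = 0 := dif_neg h

lemma ex_empty (φ : Conv S P) : ex φ ∅ = 0 := ex_of_not φ fun h => by simpa using h.1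

lemma ex_add (φ ψ : Conv S P) (c : Finset S) : ex (φ + ψ) c = ex φ c + ex ψ c := by
  by_cases h : IsFlag c
  · rw [ex, ex, ex, dif_pos h, dif_pos h, dif_pos h]; rfl
  · rw [ex_of_not _ h, ex_of_not _ h, ex_of_not _ h, add_zero]

lemma ex_zero (c : Finset S) : ex (0 : Conv S P) c = 0 := by
  by_cases h : IsFlag c
  · rw [ex, dif_pos h]; rfl
  · exact ex_of_not _ h

lemma ex_smul' {k : Type} [Semiring k] [Module k P] (p : k) (φ : Conv S P) (c : Finset S) :
    ex (p • φ) c = p • ex φ c := by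
  by_cases h : IsFlag c
  · rw [ex, ex, dif_pos h, dif_pos h]; rfl
  · rw [ex_of_not _ h, ex_of_not _ h, smul_zero]

lemma ex_smul (p : P) (φ : Conv S P) (c : Finset S) : ex (p • φ) c = p * ex φ c :=
  ex_smul' p φ c

lemma ex_neg (φ : Conv S P) (c : Finset S) : ex (-φ) c = - ex φ c := by
  by_cases h : IsFlag c
  · rw [ex, ex, dif_pos h, dif_pos h]; rfl
  · rw [ex_of_not _ h, ex_of_not _ h, neg_zero]

lemma ex_ext {φ ψ : Conv S P} (h : ∀ c : Finset S, IsFlag c → ex φ c = ex ψ c) : φ = ψ := by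
  refine Conv.ext fun c => ?_
  have := h c.1 c.2
  rwa [ex_flag, ex_flag] at this

open Classical in
/-- The part of a finite set below an element. -/
noncomputable def low (c : Finset S) (J : S) : Finset S := c.filter (· ≤ J)

open Classical in
/-- The part of a finite set above an element. -/
noncomputable def upp (c : Finset S) (J : S) : Finset S := c.filter (J ≤ ·)

lemma mem_low {c : Finset S} {J x : S} : x ∈ low c J ↔ x ∈ c ∧ x ≤ J := by
  classical
  simp [low]

lemma mem_upp {c : Finset S} {J x : S} : x ∈ upp c J ↔ x ∈ c ∧ J ≤ x := by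
  classical
  simp [upp]

lemma low_subset (c : Finset S) (J : S) : low c J ⊆ c := fun _ h => (mem_low.1 h).1
lemma upp_subset (c : Finset S) (J : S) : upp c J ⊆ c := fun _ h => (mem_upp.1 h).1

lemma chain_mono {c c' : Finset S} (h : IsChain (· ≤ ·) (c : Set S)) (hc : c' ⊆ c) :
    IsChain (· ≤ ·) (c' : Set S) := IsChain.mono (by exact_mod_cast hc) h

lemma chain_cases {c : Finset S} (h : IsChain (· ≤ ·) (c : Set S)) {x y : S} (hx : x ∈ c)
    (hy : y ∈ c) : x ≤ y ∨ y ≤ x := h.total (by exact_mod_cast hx) (by exact_mod_cast hy)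

lemma IsFlag.low {c : Finset S} (h : IsFlag c) {J : S} (hJ : J ∈ c) : IsFlag (low c J) :=
  ⟨⟨J, mem_low.2 ⟨hJ, le_rfl⟩⟩, chain_mono h.2 (low_subset c J)⟩

lemma IsFlag.upp {c : Finset S} (h : IsFlag c) {J : S} (hJ : J ∈ c) : IsFlag (upp c J) :=
  ⟨⟨J, mem_upp.2 ⟨hJ, le_rfl⟩⟩, chain_mono h.2 (upp_subset c J)⟩

/-- The product of cochains: sum over all ways of cutting a flag at one of its elements. -/
noncomputable instance : Mul (Conv S P) :=
  ⟨fun φ ψ c => ∑ J ∈ c.1, ex φ (low c.1 J) * ex ψ (upp c.1 J)⟩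

lemma Conv.mul_apply (φ ψ : Conv S P) (c : Flag S) :
    (φ * ψ) c = ∑ J ∈ c.1, ex φ (low c.1 J) * ex ψ (upp c.1 J) := rfl

lemma ex_mul (φ ψ : Conv S P) {c : Finset S} (hc : IsChain (· ≤ ·) (c : Set S)) :
    ex (φ * ψ) c = ∑ J ∈ c, ex φ (low c J) * ex ψ (upp c J) := by
  by_cases h : c.Nonempty
  · have hf : IsFlag c := ⟨h, hc⟩
    rw [ex, dif_pos hf]
    rfl
  · rw [not_nonempty_iff_eq_empty] at h
    subst h
    rw [ex_empty, sum_empty]

open Classical in
noncomputable instance : One (Conv S P) := ⟨fun c => if c.1.card = 1 then 1 else 0⟩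

open Classical in
lemma ex_one {c : Finset S} : ex (1 : Conv S P) c = if c.card = 1 then 1 else 0 := by
  by_cases h : IsFlag c
  · rw [ex, dif_pos h]; rfl
  · rw [ex_of_not _ h, if_neg]
    intro h1
    apply h
    obtain ⟨x, rfl⟩ := Finset.card_eq_one.1 h1
    exact ⟨⟨x, by simp⟩, by simp⟩

lemma exists_min {c : Finset S} (h : IsFlag c) : ∃ m ∈ c, ∀ x ∈ c, m ≤ x := by
  obtain ⟨m, hm⟩ := c.exists_minimal h.1
  refine ⟨m, hm.1, fun x hx => ?_⟩
  rcases chain_cases h.2 hm.1 hx with h1 | h1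
  · exact h1
  · exact hm.2 hx h1

lemma exists_max {c : Finset S} (h : IsFlag c) : ∃ m ∈ c, ∀ x ∈ c, x ≤ m := by
  obtain ⟨m, hm⟩ := c.exists_maximal h.1
  refine ⟨m, hm.1, fun x hx => ?_⟩
  rcases chain_cases h.2 hm.1 hx with h1 | h1
  · exact hm.2 hx h1
  · exact h1

lemma low_low {c : Finset S} {J K : S} (h : K ≤ J) : low (low c J) K = low c K := by
  ext x
  simp only [mem_low]
  exact ⟨fun h => ⟨h.1.1, h.2⟩, fun h' => ⟨⟨h'.1, h'.2.trans h⟩, h'.2⟩⟩

lemma upp_upp {c : Finset S} {J K : S} (h : K ≤ J) : upp (upp c K) J = upp c J := by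
  ext x
  simp only [mem_upp]
  exact ⟨fun h => ⟨h.1.1, h.2⟩, fun h' => ⟨⟨h'.1, h.trans h'.2⟩, h'.2⟩⟩

lemma upp_low {c : Finset S} {J K : S} : upp (low c J) K = low (upp c K) J := by
  ext x
  simp only [mem_upp, mem_low]
  tauto

lemma Conv.mul_assoc' (φ ψ χ : Conv S P) : φ * ψ * χ = φ * (ψ * χ) := by
  classical
  refine ex_ext fun c hc => ?_
  rw [ex_mul _ _ hc.2, ex_mul _ _ hc.2]
  have h1 : ∀ J ∈ c, ex (φ * ψ) (low c J) * ex χ (upp c J) =
      ∑ K ∈ c with K ≤ J, ex φ (low c K) * ex ψ (low (upp c K) J) * ex χ (upp c J) := by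
    intro J _
    rw [ex_mul _ _ (chain_mono hc.2 (low_subset c J)), sum_mul]
    refine sum_congr rfl fun K hK => ?_
    rw [low_low (mem_low.1 hK).2, upp_low]
  have h2 : ∀ K ∈ c, ex φ (low c K) * ex (ψ * χ) (upp c K) =
      ∑ J ∈ c with K ≤ J, ex φ (low c K) * ex ψ (low (upp c K) J) * ex χ (upp c J) := by
    intro K _
    rw [ex_mul _ _ (chain_mono hc.2 (upp_subset c K)), mul_sum]
    refine sum_congr rfl fun J hJ => ?_
    rw [upp_upp (mem_upp.1 hJ).2, mul_assoc]
  rw [sum_congr rfl h1, sum_congr rfl h2]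
  simp only [sum_filter]
  rw [sum_comm]

lemma low_eq_singleton {c : Finset S} {J : S} (hJ : J ∈ c) (h : (low c J).card = 1) :
    low c J = {J} := by
  obtain ⟨x, hx⟩ := card_eq_one.1 h
  have : J ∈ low c J := mem_low.2 ⟨hJ, le_rfl⟩
  rw [hx, mem_singleton] at this
  rw [hx, this]

lemma upp_eq_singleton {c : Finset S} {J : S} (hJ : J ∈ c) (h : (upp c J).card = 1) :
    upp c J = {J} := by
  obtain ⟨x, hx⟩ := card_eq_one.1 h
  have : J ∈ upp c J := mem_upp.2 ⟨hJ, le_rfl⟩
  rw [hx, mem_singleton] at this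
  rw [hx, this]

lemma Conv.one_mul' (φ : Conv S P) : 1 * φ = φ := by
  classical
  refine ex_ext fun c hc => ?_
  rw [ex_mul _ _ hc.2]
  obtain ⟨m, hm, hmin⟩ := exists_min hc
  rw [sum_eq_single_of_mem m hm]
  · have h1 : low c m = {m} := by
      ext x
      rw [mem_low, mem_singleton]
      exact ⟨fun h => le_antisymm h.2 (hmin x h.1), by rintro rfl; exact ⟨hm, le_rfl⟩⟩
    have h2 : upp c m = c := by
      ext x
      rw [mem_upp]
      exact ⟨fun h => h.1, fun h => ⟨h, hmin x h⟩⟩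
    rw [h1, h2, ex_one, card_singleton, if_pos rfl, one_mul]
  · intro J hJ hne
    rw [ex_one, if_neg, zero_mul]
    intro h
    have h1 := low_eq_singleton hJ h
    have h2 : m ∈ low c J := mem_low.2 ⟨hm, hmin J hJ⟩
    rw [h1, mem_singleton] at h2
    exact hne h2.symm

lemma Conv.mul_one' (φ : Conv S P) : φ * 1 = φ := by
  classical
  refine ex_ext fun c hc => ?_
  rw [ex_mul _ _ hc.2]
  obtain ⟨m, hm, hmax⟩ := exists_max hc
  rw [sum_eq_single_of_mem m hm]
  · have h1 : upp c m = {m} := by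
      ext x
      rw [mem_upp, mem_singleton]
      exact ⟨fun h => le_antisymm (hmax x h.1) h.2, by rintro rfl; exact ⟨hm, le_rfl⟩⟩
    have h2 : low c m = c := by
      ext x
      rw [mem_low]
      exact ⟨fun h => h.1, fun h => ⟨h, hmax x h⟩⟩
    rw [h1, h2, ex_one, card_singleton, if_pos rfl, mul_one]
  · intro J hJ hne
    rw [ex_one (c := upp c J), if_neg, mul_zero]
    intro h
    have h1 := upp_eq_singleton hJ h
    have h2 : m ∈ upp c J := mem_upp.2 ⟨hm, hmax J hJ⟩
    rw [h1, mem_singleton] at h2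
    exact hne h2.symm

noncomputable instance : Ring (Conv S P) :=
  { (inferInstance : AddCommGroup (Conv S P)) with
    mul := (· * ·)
    one := 1
    mul_assoc := Conv.mul_assoc'
    one_mul := Conv.one_mul'
    mul_one := Conv.mul_one'
    left_distrib := fun φ ψ χ => by
      refine ex_ext fun c hc => ?_
      rw [ex_add, ex_mul _ _ hc.2, ex_mul _ _ hc.2, ex_mul _ _ hc.2, ← sum_add_distrib]
      exact sum_congr rfl fun J _ => by rw [ex_add, mul_add]
    right_distrib := fun φ ψ χ => by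
      refine ex_ext fun c hc => ?_
      rw [ex_add, ex_mul _ _ hc.2, ex_mul _ _ hc.2, ex_mul _ _ hc.2, ← sum_add_distrib]
      exact sum_congr rfl fun J _ => by rw [ex_add, add_mul]
    zero_mul := fun φ => by
      refine ex_ext fun c hc => ?_
      rw [ex_mul _ _ hc.2, ex_zero]
      exact sum_eq_zero fun J _ => by rw [ex_zero, zero_mul]
    mul_zero := fun φ => by
      refine ex_ext fun c hc => ?_
      rw [ex_mul _ _ hc.2, ex_zero]
      exact sum_eq_zero fun J _ => by rw [ex_zero, mul_zero] }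

lemma Conv.smul_mul {k : Type} [CommSemiring k] [Algebra k P] (p : k) (φ ψ : Conv S P) :
    (p • φ) * ψ = p • (φ * ψ) := by
  refine ex_ext fun c hc => ?_
  rw [ex_smul', ex_mul _ _ hc.2, ex_mul _ _ hc.2, smul_sum]
  exact sum_congr rfl fun J _ => by rw [ex_smul', smul_mul_assoc]

lemma Conv.mul_smul {k : Type} [CommSemiring k] [Algebra k P] (p : k) (φ ψ : Conv S P) :
    φ * (p • ψ) = p • (φ * ψ) := by
  refine ex_ext fun c hc => ?_
  rw [ex_smul', ex_mul _ _ hc.2, ex_mul _ _ hc.2, smul_sum]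
  exact sum_congr rfl fun J _ => by rw [ex_smul', mul_smul_comm]

noncomputable instance {k : Type} [CommSemiring k] [Algebra k P] : Algebra k (Conv S P) :=
  Algebra.ofModule Conv.smul_mul Conv.mul_smul

/-! ### The differential -/

open Classical in
/-- The number of elements of a finite set below an element. -/
noncomputable def rk (c : Finset S) (x : S) : ℕ := (c.filter (· < x)).card

open Classical in
/-- The differential: alternating sum over the faces. -/
noncomputable def df (φ : Conv S P) : Conv S P :=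
  fun c => ∑ x ∈ c.1, (-1) ^ rk c.1 x * ex φ (c.1.erase x)

open Classical in
lemma ex_df (φ : Conv S P) {c : Finset S} (hc : IsChain (· ≤ ·) (c : Set S)) :
    ex (df φ) c = ∑ x ∈ c, (-1) ^ rk c x * ex φ (c.erase x) := by
  by_cases h : c.Nonempty
  · have hf : IsFlag c := ⟨h, hc⟩
    rw [ex, dif_pos hf]
    rfl
  · rw [not_nonempty_iff_eq_empty] at h
    subst h
    rw [ex_empty, sum_empty]

lemma df_add (φ ψ : Conv S P) : df (φ + ψ) = df φ + df ψ := by
  classical
  refine ex_ext fun c hc => ?_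
  rw [ex_add, ex_df _ hc.2, ex_df _ hc.2, ex_df _ hc.2, ← sum_add_distrib]
  exact sum_congr rfl fun J _ => by rw [ex_add, mul_add]

lemma df_smul {k : Type} [CommSemiring k] [Algebra k P] (p : k) (φ : Conv S P) :
    df (p • φ) = p • df φ := by
  classical
  refine ex_ext fun c hc => ?_
  rw [ex_smul', ex_df _ hc.2, ex_df _ hc.2, smul_sum]
  exact sum_congr rfl fun J _ => by rw [ex_smul', mul_smul_comm]

lemma df_zero : df (0 : Conv S P) = 0 := by
  classical
  refine ex_ext fun c hc => ?_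
  rw [ex_zero, ex_df _ hc.2]
  exact sum_eq_zero fun J _ => by rw [ex_zero, mul_zero]

lemma df_neg (φ : Conv S P) : df (-φ) = - df φ := by
  rw [eq_neg_iff_add_eq_zero, ← df_add, neg_add_cancel, df_zero]

lemma df_sub (φ ψ : Conv S P) : df (φ - ψ) = df φ - df ψ := by
  rw [sub_eq_add_neg, df_add, df_neg, sub_eq_add_neg]

open Classical in
lemma rk_erase_of_lt {c : Finset S} {x y : S} (hx : x ∈ c) (h : x < y) :
    rk c y = rk (c.erase x) y + 1 := by
  rw [rk, rk]
  have : c.filter (· < y) = insert x ((c.erase x).filter (· < y)) := by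
    ext z
    simp only [mem_filter, mem_insert, mem_erase]
    constructor
    · rintro ⟨h1, h2⟩
      by_cases hz : z = x
      · exact Or.inl hz
      · exact Or.inr ⟨⟨hz, h1⟩, h2⟩
    · rintro (rfl | ⟨⟨_, h1⟩, h2⟩)
      · exact ⟨hx, h⟩
      · exact ⟨h1, h2⟩
  rw [this, card_insert_of_notMem]
  simp

open Classical in
lemma rk_erase_of_not {c : Finset S} {x y : S} (h : ¬ x < y) : rk (c.erase x) y = rk c y := by
  rw [rk, rk]
  congr 1
  ext z
  simp only [mem_filter, mem_erase]
  constructor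
  · rintro ⟨⟨_, h1⟩, h2⟩; exact ⟨h1, h2⟩
  · rintro ⟨h1, h2⟩; exact ⟨⟨fun hz => h (hz ▸ h2), h1⟩, h2⟩

theorem df_df (φ : Conv S P) : df (df φ) = 0 := by
  classical
  refine ex_ext fun c hc => ?_
  rw [ex_zero, ex_df _ hc.2]
  have h1 : ∀ x ∈ c, (-1 : P) ^ rk c x * ex (df φ) (c.erase x) =
      ∑ y ∈ c.erase x, (-1) ^ (rk c x + rk (c.erase x) y) * ex φ ((c.erase x).erase y) := by
    intro x _
    rw [ex_df _ (chain_mono hc.2 (erase_subset x c)), mul_sum]
    exact sum_congr rfl fun y _ => by rw [pow_add]; ring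
  rw [sum_congr rfl h1, sum_sigma']
  refine sum_involution (fun p _ => ⟨p.2, p.1⟩) ?_ ?_ ?_ ?_
  · rintro ⟨x, y⟩ hp
    simp only [mem_sigma, mem_erase] at hp
    obtain ⟨hx, hyx, hy⟩ := hp
    have key : ∀ x ∈ c, ∀ y ∈ c, x < y → (-1 : P) ^ (rk c x + rk (c.erase x) y) +
        (-1) ^ (rk c y + rk (c.erase y) x) = 0 := by
      intro x hx y hy hlt
      rw [rk_erase_of_not (x := y) (y := x) (not_lt_of_gt hlt), rk_erase_of_lt hx hlt, add_right_comm,
        pow_succ, add_comm (rk (c.erase x) y)]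
      ring
    have herase : (c.erase x).erase y = (c.erase y).erase x := erase_right_comm
    have h2 : (-1 : P) ^ (rk c x + rk (c.erase x) y) +
        (-1) ^ (rk c y + rk (c.erase y) x) = 0 := by
      rcases chain_cases hc.2 hx hy with h | h
      · exact key x hx y hy (lt_of_le_of_ne h (Ne.symm hyx))
      · rw [add_comm]
        exact key y hy x hx (lt_of_le_of_ne h hyx)
    change (-1 : P) ^ (rk c x + rk (c.erase x) y) * ex φ ((c.erase x).erase y) +
      (-1 : P) ^ (rk c y + rk (c.erase y) x) * ex φ ((c.erase y).erase x) = 0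
    rw [herase, ← add_mul, h2, zero_mul]
  · rintro ⟨x, y⟩ hp _ h
    simp only [mem_sigma, mem_erase] at hp
    simp only [Sigma.mk.injEq, heq_eq_eq] at h
    exact hp.2.1 h.1
  · rintro ⟨x, y⟩ hp
    simp only [mem_sigma, mem_erase] at hp ⊢
    exact ⟨hp.2.2, fun h => hp.2.1 h.symm, hp.1⟩
  · rintro ⟨x, y⟩ _
    rfl

end Pool.Agent.W628.KM
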