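import Mathlib
import Pool.Agent.W628.KM.Coch

/-!
# The Leibniz rule
-/

open Finset

namespace Pool.Agent.W628.KM

variable {S : Type} [PartialOrder S] {P : Type} [CommRing P]

/-- The sign involution: multiplication by `(-1)^s` in degree `s`. -/
def sg (φ : Conv S P) : Conv S P := fun c => (-1) ^ (c.1.card + 1) * φ c

lemma ex_sg (φ : Conv S P) (c : Finset S) : ex (sg φ) c = (-1) ^ (c.card + 1) * ex φ c := by
  by_cases h : IsFlag c
  · rw [ex, ex, dif_pos h, dif_pos h]; rfl
  · rw [ex_of_not _ h, ex_of_not _ h, mul_zero]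

open Classical in
lemma rk_lt_of_lt {c : Finset S} {x y : S} (hx : x ∈ c) (h : x < y) : rk c x < rk c y := by
  rw [rk, rk]
  refine card_lt_card ⟨fun z hz => ?_, fun hcon => ?_⟩
  · rw [mem_filter] at hz ⊢
    exact ⟨hz.1, hz.2.trans h⟩
  · have := hcon (mem_filter.2 ⟨hx, h⟩)
    rw [mem_filter] at this
    exact lt_irrefl _ this.2

lemma rk_lt_iff {c : Finset S} (hc : IsChain (· ≤ ·) (c : Set S)) {x y : S} (hx : x ∈ c)
    (hy : y ∈ c) : rk c x < rk c y ↔ x < y := by
  refine ⟨fun h => ?_, rk_lt_of_lt hx⟩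
  rcases chain_cases hc hx hy with h1 | h1
  · exact lt_of_le_of_ne h1 fun h2 => by rw [h2] at h; exact lt_irrefl _ h
  · rcases h1.eq_or_lt with h2 | h2
    · rw [h2] at h; exact absurd h (lt_irrefl _)
    · exact absurd (rk_lt_of_lt hy h2) (not_lt_of_gt h)

lemma rk_le_iff {c : Finset S} (hc : IsChain (· ≤ ·) (c : Set S)) {x y : S} (hx : x ∈ c)
    (hy : y ∈ c) : rk c x ≤ rk c y ↔ x ≤ y := by
  rw [← not_lt, rk_lt_iff hc hy hx]
  rcases chain_cases hc hx hy with h1 | h1
  · exact ⟨fun _ => h1, fun _ => not_lt_of_ge h1⟩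
  · constructor
    · intro h
      by_contra h2
      exact h (lt_of_le_not_ge h1 h2)
    · intro h
      exact not_lt_of_ge h

open Classical in
lemma rk_lt_card {c : Finset S} {x : S} (hx : x ∈ c) : rk c x < c.card := by
  rw [rk]
  refine card_lt_card ⟨filter_subset _ _, fun hcon => ?_⟩
  have := hcon hx
  rw [mem_filter] at this
  exact lt_irrefl _ this.2

lemma sum_rk {c : Finset S} (hc : IsChain (· ≤ ·) (c : Set S)) (g : ℕ → P) :
    ∑ x ∈ c, g (rk c x) = ∑ i ∈ range c.card, g i := by
  classical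
  have hinj : Set.InjOn (rk c) (c : Set S) := by
    intro x hx y hy h
    exact le_antisymm ((rk_le_iff hc hx hy).1 h.le) ((rk_le_iff hc hy hx).1 h.ge)
  have himg : c.image (rk c) = range c.card := by
    apply eq_of_subset_of_card_le
    · intro i hi
      obtain ⟨x, hx, rfl⟩ := mem_image.1 hi
      exact mem_range.2 (rk_lt_card hx)
    · rw [card_range, card_image_of_injOn hinj]
  rw [← himg, sum_image hinj]

lemma telescope (N : ℕ) (u : ℕ → P) :
    ∑ i ∈ range N, ((-1) ^ i * u i + (-1) ^ i * u (i + 1)) = u 0 - (-1) ^ N * u N := by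
  induction N with
  | zero => simp
  | succ N ih => rw [sum_range_succ, ih, pow_succ]; ring

open Classical in
lemma rk_low {c : Finset S} {x y : S} (h : x ≤ y) : rk (low c y) x = rk c x := by
  rw [rk, rk]
  congr 1
  ext z
  simp only [mem_filter, mem_low]
  exact ⟨fun h => ⟨h.1.1, h.2⟩, fun h' => ⟨⟨h'.1, h'.2.le.trans h⟩, h'.2⟩⟩

open Classical in
lemma card_low {c : Finset S} {y : S} (hy : y ∈ c) : (low c y).card = rk c y + 1 := by
  rw [rk]
  have : low c y = insert y (c.filter (· < y)) := by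
    ext z
    rw [mem_low, mem_insert, mem_filter]
    constructor
    · rintro ⟨h1, h2⟩
      rcases h2.eq_or_lt with h3 | h3
      · exact Or.inl h3
      · exact Or.inr ⟨h1, h3⟩
    · rintro (rfl | ⟨h1, h2⟩)
      · exact ⟨hy, le_rfl⟩
      · exact ⟨h1, h2.le⟩
  rw [this, card_insert_of_notMem]
  simp

open Classical in
lemma rk_upp {c : Finset S} (hc : IsChain (· ≤ ·) (c : Set S)) {x y : S} (hx : x ∈ c) (hy : y ∈ c)
    (h : y ≤ x) : rk c x = rk c y + rk (upp c y) x := by
  rw [rk, rk, rk, ← card_union_of_disjoint]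
  · congr 1
    ext z
    simp only [mem_filter, mem_union, mem_upp]
    constructor
    · rintro ⟨h1, h2⟩
      rcases chain_cases hc h1 hy with h3 | h3
      · rcases h3.eq_or_lt with h4 | h4
        · exact Or.inr ⟨⟨h1, h4.ge⟩, h2⟩
        · exact Or.inl ⟨h1, h4⟩
      · exact Or.inr ⟨⟨h1, h3⟩, h2⟩
    · rintro (⟨h1, h2⟩ | ⟨⟨h1, h2⟩, h3⟩)
      · exact ⟨h1, h2.trans_le h⟩
      · exact ⟨h1, h3⟩
  · rw [disjoint_left]
    intro z hz hz'
    simp only [mem_filter, mem_upp] at hz hz'
    exact absurd hz.2 (not_lt_of_ge hz'.1.2)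

theorem leibniz (φ ψ : Conv S P) : df (φ * ψ) = df φ * ψ + sg φ * df ψ := by
  classical
  refine ex_ext fun c hc => ?_
  rw [ex_add, ex_df _ hc.2, ex_mul _ _ hc.2, ex_mul _ _ hc.2]
  let R1 : S → S → P := fun x y => (-1) ^ rk c x * (ex φ ((low c y).erase x) * ex ψ (upp c y))
  let R2 : S → S → P := fun x y => (-1) ^ rk c x * (ex φ (low c y) * ex ψ ((upp c y).erase x))
  have hL : ∀ x ∈ c, (-1 : P) ^ rk c x * ex (φ * ψ) (c.erase x) =
      ∑ y ∈ c, ((if x < y then R1 x y else 0) + (if y < x then R2 x y else 0)) := by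
    intro x hx
    rw [ex_mul _ _ (chain_mono hc.2 (erase_subset x c)), mul_sum, ← insert_erase hx,
      sum_insert (notMem_erase x c), if_neg (lt_irrefl x), if_neg (lt_irrefl x), add_zero, zero_add,
      insert_erase hx]
    refine sum_congr rfl fun y hy => ?_
    obtain ⟨hne, hy⟩ := mem_erase.1 hy
    rcases chain_cases hc.2 hx hy with h | h
    · have hlt : x < y := lt_of_le_of_ne h (Ne.symm hne)
      rw [if_pos hlt, if_neg (not_lt_of_gt hlt), add_zero]
      have e1 : low (c.erase x) y = (low c y).erase x := by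
        ext z; simp only [mem_low, mem_erase]; tauto
      have e2 : upp (c.erase x) y = upp c y := by
        ext z
        simp only [mem_upp, mem_erase]
        exact ⟨fun h => ⟨h.1.2, h.2⟩, fun h => ⟨⟨fun hz => absurd h.2 (by rw [hz]; exact not_le_of_gt hlt), h.1⟩, h.2⟩⟩
      rw [e1, e2]
    · have hlt : y < x := lt_of_le_of_ne h hne
      rw [if_neg (not_lt_of_gt hlt), if_pos hlt, zero_add]
      have e1 : upp (c.erase x) y = (upp c y).erase x := by
        ext z; simp only [mem_upp, mem_erase]; tauto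
      have e2 : low (c.erase x) y = low c y := by
        ext z
        simp only [mem_low, mem_erase]
        exact ⟨fun h => ⟨h.1.2, h.2⟩, fun h => ⟨⟨fun hz => absurd h.2 (by rw [hz]; exact not_le_of_gt hlt), h.1⟩, h.2⟩⟩
      rw [e1, e2]
  have hR1 : ∀ y ∈ c, ex (df φ) (low c y) * ex ψ (upp c y) =
      ∑ x ∈ c, (if x ≤ y then R1 x y else 0) := by
    intro y _
    rw [ex_df _ (chain_mono hc.2 (low_subset c y)), sum_mul, ← sum_filter]
    refine sum_congr rfl fun x hx => ?_
    rw [rk_low (mem_low.1 hx).2]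
    simp only [R1]
    ring
  have hR2 : ∀ y ∈ c, ex (sg φ) (low c y) * ex (df ψ) (upp c y) =
      ∑ x ∈ c, (if y ≤ x then R2 x y else 0) := by
    intro y hy
    rw [ex_df _ (chain_mono hc.2 (upp_subset c y)), mul_sum, ← sum_filter]
    refine sum_congr rfl fun x hx => ?_
    obtain ⟨hx, hyx⟩ := mem_upp.1 hx
    rw [ex_sg, card_low hy]
    simp only [R2]
    rw [rk_upp hc.2 hx hy hyx, pow_add, pow_succ, pow_succ]
    ring
  rw [sum_congr rfl hL, sum_congr rfl hR1, sum_congr rfl hR2]
  simp only [sum_add_distrib]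
  rw [sum_comm (f := fun x y => if x < y then R1 x y else 0),
    sum_comm (f := fun x y => if y < x then R2 x y else 0)]
  have d1 : ∀ y ∈ c, ∑ x ∈ c, (if x ≤ y then R1 x y else 0) =
      ∑ x ∈ c, (if x < y then R1 x y else 0) + R1 y y := by
    intro y hy
    rw [← sum_erase_add _ _ hy, ← sum_erase_add (s := c) (f := fun x => if x < y then R1 x y else 0) (h := hy),
      if_pos le_rfl, if_neg (lt_irrefl y), add_zero]
    congr 1
    refine sum_congr rfl fun x hx => ?_
    have hne := (mem_erase.1 hx).1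
    simp only [lt_iff_le_and_ne]
    by_cases h : x ≤ y <;> simp [h, hne]
  have d2 : ∀ y ∈ c, ∑ x ∈ c, (if y ≤ x then R2 x y else 0) =
      ∑ x ∈ c, (if y < x then R2 x y else 0) + R2 y y := by
    intro y hy
    rw [← sum_erase_add _ _ hy, ← sum_erase_add (s := c) (f := fun x => if y < x then R2 x y else 0) (h := hy),
      if_pos le_rfl, if_neg (lt_irrefl y), add_zero]
    congr 1
    refine sum_congr rfl fun x hx => ?_
    have hne := (mem_erase.1 hx).1
    simp only [lt_iff_le_and_ne]
    by_cases h : y ≤ x <;> simp [h, Ne.symm hne]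
  rw [sum_congr rfl d1, sum_congr rfl d2, sum_add_distrib, sum_add_distrib]
  have key : ∑ y ∈ c, R1 y y + ∑ y ∈ c, R2 y y = 0 := by
    let u : ℕ → P := fun i => ex φ (c.filter fun z => rk c z < i) * ex ψ (c.filter fun z => i ≤ rk c z)
    have e1 : ∀ y ∈ c, R1 y y = (-1) ^ rk c y * u (rk c y) := by
      intro y hy
      have a1 : (low c y).erase y = c.filter fun z => rk c z < rk c y := by
        ext z
        simp only [mem_erase, mem_low, mem_filter]
        constructor
        · rintro ⟨h1, h2, h3⟩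
          exact ⟨h2, (rk_lt_iff hc.2 h2 hy).2 (lt_of_le_of_ne h3 h1)⟩
        · rintro ⟨h1, h2⟩
          have := (rk_lt_iff hc.2 h1 hy).1 h2
          exact ⟨this.ne, h1, this.le⟩
      have a2 : upp c y = c.filter fun z => rk c y ≤ rk c z := by
        ext z
        simp only [mem_upp, mem_filter]
        exact ⟨fun h => ⟨h.1, (rk_le_iff hc.2 hy h.1).2 h.2⟩,
          fun h => ⟨h.1, (rk_le_iff hc.2 hy h.1).1 h.2⟩⟩
      simp only [R1, u]
      rw [a1, a2]
    have e2 : ∀ y ∈ c, R2 y y = (-1) ^ rk c y * u (rk c y + 1) := by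
      intro y hy
      have a1 : (upp c y).erase y = c.filter fun z => rk c y + 1 ≤ rk c z := by
        ext z
        simp only [mem_erase, mem_upp, mem_filter, Nat.succ_le_iff]
        constructor
        · rintro ⟨h1, h2, h3⟩
          exact ⟨h2, (rk_lt_iff hc.2 hy h2).2 (lt_of_le_of_ne h3 (Ne.symm h1))⟩
        · rintro ⟨h1, h2⟩
          have := (rk_lt_iff hc.2 hy h1).1 h2
          exact ⟨this.ne', h1, this.le⟩
      have a2 : low c y = c.filter fun z => rk c z < rk c y + 1 := by
        ext z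
        simp only [mem_low, mem_filter, Nat.lt_succ_iff]
        exact ⟨fun h => ⟨h.1, (rk_le_iff hc.2 h.1 hy).2 h.2⟩,
          fun h => ⟨h.1, (rk_le_iff hc.2 h.1 hy).1 h.2⟩⟩
      simp only [R2, u]
      rw [a1, a2]
    rw [sum_congr rfl e1, sum_congr rfl e2, ← sum_add_distrib,
      sum_rk hc.2 (fun i => (-1) ^ i * u i + (-1) ^ i * u (i + 1)), telescope]
    have u0 : u 0 = 0 := by
      simp only [u]
      rw [filter_false_of_mem (by intro z _; exact Nat.not_lt_zero _), ex_empty, zero_mul]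
    have uN : u c.card = 0 := by
      simp only [u]
      rw [filter_false_of_mem (p := fun z => c.card ≤ rk c z)
        (by intro z hz; exact not_le_of_gt (rk_lt_card hz)), ex_empty, mul_zero]
    rw [u0, uN]
    ring
  linear_combination -key

end Pool.Agent.W628.KM
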