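import Mathlib
import Pool.Agent.W628.KM.Leib

/-!
# The cohomology algebra of a finite poset with coefficients in a decreasing family of subalgebras
-/

open Finset

namespace Pool.Agent.W628.KM

variable {S : Type} [PartialOrder S] {P : Type} [CommRing P] [Algebra ℚ P]

/-- The subalgebra of cochains with coefficients in a decreasing family `F` of subalgebras: the
value on a flag lies in `F I`, where `I` is the least element of the flag. -/
def cochains (F : S → Subalgebra ℚ P) (hF : Antitone F) : Subalgebra ℚ (Conv S P) where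
  carrier := {φ | ∀ c : Flag S, ∀ I ∈ c.1, (∀ J ∈ c.1, I ≤ J) → φ c ∈ F I}
  zero_mem' := fun c I _ _ => (F I).zero_mem
  add_mem' := fun h1 h2 c I hI hm => (F I).add_mem (h1 c I hI hm) (h2 c I hI hm)
  one_mem' := fun c I _ _ => by
    change (if c.1.card = 1 then (1 : P) else 0) ∈ F I
    split_ifs
    · exact (F I).one_mem
    · exact (F I).zero_mem
  algebraMap_mem' := fun r c I _ _ => by
    rw [Algebra.algebraMap_eq_smul_one]
    refine (F I).smul_mem ?_ r
    change (if c.1.card = 1 then (1 : P) else 0) ∈ F I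
    split_ifs
    · exact (F I).one_mem
    · exact (F I).zero_mem
  mul_mem' := by
    intro φ ψ h1 h2 c I hI hm
    rw [Conv.mul_apply]
    refine (F I).sum_mem fun J hJ => (F I).mul_mem ?_ ?_
    · have hf : IsFlag (low c.1 J) := c.2.low hJ
      rw [ex, dif_pos hf]
      exact h1 ⟨_, hf⟩ I (mem_low.2 ⟨hI, hm J hJ⟩) fun K hK => hm K (mem_low.1 hK).1
    · have hf : IsFlag (upp c.1 J) := c.2.upp hJ
      rw [ex, dif_pos hf]
      exact hF (hm J hJ) (h2 ⟨_, hf⟩ J (mem_upp.2 ⟨hJ, le_rfl⟩) fun K hK => (mem_upp.1 hK).2)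

variable (F : S → Subalgebra ℚ P) (hF : Antitone F)

lemma mem_cochains {φ : Conv S P} : φ ∈ cochains F hF ↔
    ∀ c : Flag S, ∀ I ∈ c.1, (∀ J ∈ c.1, I ≤ J) → φ c ∈ F I := Iff.rfl

lemma ex_mem_of_cochain {φ : Conv S P} (hφ : φ ∈ cochains F hF) {c : Finset S} {I : S}
    (hI : ∀ J ∈ c, I ≤ J) : ex φ c ∈ F I := by
  by_cases h : IsFlag c
  · obtain ⟨m, hm, hmin⟩ := exists_min h
    rw [ex, dif_pos h]
    exact hF (hI m hm) (hφ ⟨c, h⟩ m hm hmin)
  · rw [ex_of_not _ h]
    exact (F I).zero_mem

lemma df_mem {φ : Conv S P} (hφ : φ ∈ cochains F hF) : df φ ∈ cochains F hF := by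
  classical
  intro c I hI hm
  refine (F I).sum_mem fun x hx => (F I).mul_mem ?_ ?_
  · exact (F I).pow_mem ((F I).neg_mem (F I).one_mem) _
  · have := ex_mem_of_cochain F hF hφ (c := c.1.erase x) (I := I)
      (fun J hJ => hm J (mem_erase.1 hJ).2)
    convert this

lemma sg_mem {φ : Conv S P} (hφ : φ ∈ cochains F hF) : sg φ ∈ cochains F hF := by
  intro c I hI hm
  exact (F I).mul_mem ((F I).pow_mem ((F I).neg_mem (F I).one_mem) _) (hφ c I hI hm)

lemma df_sg (φ : Conv S P) : df (sg φ) = - sg (df φ) := by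
  classical
  refine ex_ext fun c hc => ?_
  rw [ex_neg, ex_sg, ex_df _ hc.2, ex_df _ hc.2, mul_sum, ← sum_neg_distrib]
  refine sum_congr rfl fun x hx => ?_
  rw [ex_sg, card_erase_of_mem hx]
  have h1 : 0 < c.card := card_pos.2 ⟨x, hx⟩
  obtain ⟨m, hm⟩ : ∃ m, c.card = m + 1 := ⟨c.card - 1, by omega⟩
  rw [hm, Nat.add_sub_cancel, pow_succ (-1 : P) (m + 1)]
  ring

lemma sg_sg (φ : Conv S P) : sg (sg φ) = φ := by
  refine Conv.ext fun c => ?_
  change (-1) ^ (c.1.card + 1) * ((-1) ^ (c.1.card + 1) * φ c) = φ c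
  rw [← mul_assoc, ← mul_pow]
  norm_num

/-- The algebra of cocycles. -/
def cocycles : Subalgebra ℚ (Conv S P) where
  carrier := {φ | φ ∈ cochains F hF ∧ df φ = 0}
  zero_mem' := ⟨(cochains F hF).zero_mem, df_zero⟩
  add_mem' := fun h1 h2 => ⟨(cochains F hF).add_mem h1.1 h2.1, by
    rw [df_add, h1.2, h2.2, add_zero]⟩
  one_mem' := ⟨(cochains F hF).one_mem, by
    have h := leibniz (1 : Conv S P) 1
    have h1 : sg (1 : Conv S P) = 1 := by
      classical
      refine Conv.ext fun c => ?_
      change (-1) ^ (c.1.card + 1) * (if c.1.card = 1 then (1 : P) else 0) =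
        if c.1.card = 1 then (1 : P) else 0
      split_ifs with h
      · rw [h]; norm_num
      · rw [mul_zero]
    rw [h1, mul_one, mul_one, one_mul] at h
    exact left_eq_add.1 h⟩
  algebraMap_mem' := fun r => ⟨(cochains F hF).algebraMap_mem r, by
    rw [Algebra.algebraMap_eq_smul_one, df_smul]
    have h := leibniz (1 : Conv S P) 1
    have h1 : sg (1 : Conv S P) = 1 := by
      classical
      refine Conv.ext fun c => ?_
      change (-1) ^ (c.1.card + 1) * (if c.1.card = 1 then (1 : P) else 0) =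
        if c.1.card = 1 then (1 : P) else 0
      split_ifs with h
      · rw [h]; norm_num
      · rw [mul_zero]
    rw [h1, mul_one, mul_one, one_mul] at h
    rw [left_eq_add.1 h, smul_zero]⟩
  mul_mem' := fun h1 h2 => ⟨(cochains F hF).mul_mem h1.1 h2.1, by
    rw [leibniz, h1.2, h2.2, zero_mul, mul_zero, add_zero]⟩

/-- The type of cocycles. -/
def Cocyc : Type := cocycles F hF

noncomputable instance : Ring (Cocyc F hF) := Subalgebra.toRing (cocycles F hF)

noncomputable instance : Algebra ℚ (Cocyc F hF) := Subalgebra.algebra (cocycles F hF)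

variable {F hF}

/-- The cochain underlying a cocycle. -/
def Cocyc.val (z : Cocyc F hF) : Conv S P := z.1

lemma Cocyc.mem (z : Cocyc F hF) : z.val ∈ cochains F hF := z.2.1

lemma Cocyc.df_val (z : Cocyc F hF) : df z.val = 0 := z.2.2

lemma Cocyc.val_add (z z' : Cocyc F hF) : (z + z').val = z.val + z'.val := rfl

lemma Cocyc.val_sub (z z' : Cocyc F hF) : (z - z').val = z.val - z'.val := rfl

lemma Cocyc.val_zero : (0 : Cocyc F hF).val = 0 := rfl

lemma Cocyc.val_mul (z z' : Cocyc F hF) : (z * z').val = z.val * z'.val := rfl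

variable (F hF)

/-- The two-sided ideal of coboundaries in the algebra of cocycles. -/
def coboundaries : Ideal (Cocyc F hF) where
  carrier := {z | ∃ b ∈ cochains F hF, df b = z.val}
  zero_mem' := ⟨0, (cochains F hF).zero_mem, df_zero⟩
  add_mem' := by
    rintro z z' ⟨b, hb, h⟩ ⟨b', hb', h'⟩
    exact ⟨b + b', (cochains F hF).add_mem hb hb', by rw [df_add, h, h']; rfl⟩
  smul_mem' := by
    rintro z z' ⟨b, hb, h⟩
    refine ⟨sg z.val * b, (cochains F hF).mul_mem (sg_mem F hF z.mem) hb, ?_⟩
    rw [leibniz, df_sg, z.df_val, sg_sg, h]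
    have : sg (0 : Conv S P) = 0 := Conv.ext fun c => mul_zero _
    rw [this, neg_zero, zero_mul, zero_add]
    rfl

instance coboundaries_isTwoSided : (coboundaries F hF).IsTwoSided := ⟨by
  rintro z z' ⟨b, hb, h⟩
  refine ⟨b * z'.val, (cochains F hF).mul_mem hb z'.mem, ?_⟩
  rw [leibniz, z'.df_val, mul_zero, add_zero, h]
  rfl⟩

/-- The cohomology algebra of the poset `S` with coefficients in `F` (the derived limit over the
opposite poset): cocycles modulo coboundaries. -/
def Coh : Type := Cocyc F hF ⧸ coboundaries F hF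

noncomputable instance : Ring (Coh F hF) := Ideal.Quotient.ring (coboundaries F hF)

noncomputable instance : Algebra ℚ (Coh F hF) :=
  Ideal.Quotient.algebra ℚ (I := coboundaries F hF)

/-- The projection from cocycles to cohomology. -/
noncomputable def toCoh : Cocyc F hF →ₐ[ℚ] Coh F hF := Ideal.Quotient.mkₐ ℚ (coboundaries F hF)

lemma toCoh_surjective : Function.Surjective (toCoh F hF) := Ideal.Quotient.mkₐ_surjective ℚ _

lemma toCoh_eq {z w : Cocyc F hF} (h : toCoh F hF z = toCoh F hF w) :
    z - w ∈ coboundaries F hF := Ideal.Quotient.eq.1 h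

/-- The inclusion of cocycles in all functions on flags. -/
noncomputable def cocycVal : Cocyc F hF →ₐ[ℚ] Conv S P := (cocycles F hF).val

end Pool.Agent.W628.KM
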