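import Mathlib

/-!
# Generalized Cartan matrices, simple reflections, and their action on polynomials
-/

open MvPolynomial

namespace Pool.Agent.W628.KM

/-- A generalized Cartan matrix of size `n`. -/
structure GCM (n : ℕ) where
  /-- The entries. -/
  a : Matrix (Fin n) (Fin n) ℤ
  diag : ∀ i, a i i = 2
  nonpos : ∀ i j, i ≠ j → a i j ≤ 0
  zero_iff : ∀ i j, a i j = 0 ↔ a j i = 0

variable {n : ℕ}

/-- Indecomposable: no proper nonempty set of indices splits off. -/
def GCM.Indecomposable (A : GCM n) : Prop :=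
  ∀ J : Finset (Fin n), J.Nonempty → J ≠ Finset.univ → ∃ i ∈ J, ∃ j ∉ J, A.a i j ≠ 0

/-- Indefinite type: `A u < 0` for some real vector `u > 0`. -/
def GCM.Indefinite (A : GCM n) : Prop :=
  ∃ u : Fin n → ℝ, (∀ i, 0 < u i) ∧ ∀ i, ∑ j, (A.a i j : ℝ) * u j < 0

/-- The linear substitution `X k ↦ ∑ l, g k l * X l` in the polynomial ring. -/
noncomputable def act (g : Matrix (Fin n) (Fin n) ℤ) :
    MvPolynomial (Fin n) ℚ →ₐ[ℚ] MvPolynomial (Fin n) ℚ :=
  aeval (fun k : Fin n => ∑ l : Fin n, C (g k l : ℚ) * X l)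

/-- The simple reflection `s j`, as an integer matrix: its substitution fixes `X k` for `k ≠ j` and
sends `X j` to `X j - ∑ l, a l j * X l`. -/
def GCM.refl (A : GCM n) (j : Fin n) : Matrix (Fin n) (Fin n) ℤ :=
  fun k l => (if k = l then 1 else 0) - if k = j then A.a l j else 0

/-- The value of the simple root `j` on an integral vector of the coroot lattice. -/
def GCM.al (A : GCM n) (j : Fin n) (v : Fin n → ℤ) : ℤ := ∑ l, A.a l j * v l

variable (A : GCM n)

lemma GCM.refl_mulVec (j : Fin n) (v : Fin n → ℤ) :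
    (A.refl j).mulVec v = v - A.al j v • Pi.single j 1 := by
  funext k
  simp only [Matrix.mulVec, dotProduct, GCM.refl, sub_mul, Finset.sum_sub_distrib, GCM.al,
    ite_mul, one_mul, zero_mul, Finset.sum_ite_eq, Finset.mem_univ, if_true, Pi.sub_apply,
    Pi.smul_apply, smul_eq_mul]
  by_cases h : k = j
  · subst h
    simp
  · simp [h, Pi.single_eq_of_ne h]

lemma GCM.al_sub (j : Fin n) (v w : Fin n → ℤ) : A.al j (v - w) = A.al j v - A.al j w := by
  simp [GCM.al, mul_sub, Finset.sum_sub_distrib]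

lemma GCM.al_add (j : Fin n) (v w : Fin n → ℤ) : A.al j (v + w) = A.al j v + A.al j w := by
  simp [GCM.al, mul_add, Finset.sum_add_distrib]

lemma GCM.al_smul (j : Fin n) (c : ℤ) (v : Fin n → ℤ) : A.al j (c • v) = c * A.al j v := by
  simp only [GCM.al, Finset.mul_sum, Pi.smul_apply, smul_eq_mul]
  exact Finset.sum_congr rfl fun _ _ => by ring

lemma GCM.al_single (j i : Fin n) : A.al j (Pi.single i 1) = A.a i j := by
  simp [GCM.al, Pi.single_apply]

lemma GCM.refl_mul_self (j : Fin n) : A.refl j * A.refl j = 1 := by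
  refine Matrix.ext_of_mulVec_single fun i => ?_
  rw [← Matrix.mulVec_mulVec, A.refl_mulVec, A.refl_mulVec, A.al_sub, A.al_smul, A.al_single,
    A.al_single, A.diag, Matrix.one_mulVec]
  funext k
  simp only [Pi.sub_apply, Pi.smul_apply, smul_eq_mul]
  ring

/-- The simple reflection as an invertible matrix. -/
def GCM.s (j : Fin n) : (Matrix (Fin n) (Fin n) ℤ)ˣ :=
  ⟨A.refl j, A.refl j, A.refl_mul_self j, A.refl_mul_self j⟩

/-- The subgroup `W_I` generated by the simple reflections with index in `I`. -/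
def GCM.W (I : Finset (Fin n)) : Subgroup (Matrix (Fin n) (Fin n) ℤ)ˣ :=
  Subgroup.closure (A.s '' (I : Set (Fin n)))

lemma act_X (g : Matrix (Fin n) (Fin n) ℤ) (k : Fin n) :
    act g (X k) = ∑ l : Fin n, C (g k l : ℚ) * X l := by simp [act]

lemma act_C (g : Matrix (Fin n) (Fin n) ℤ) (c : ℚ) : act g (C c) = C c := (act g).commutes c

lemma act_mul (g h : Matrix (Fin n) (Fin n) ℤ) (p : MvPolynomial (Fin n) ℚ) :
    act h (act g p) = act (g * h) p := by
  have : (act h).comp (act g) = act (g * h) := by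
    apply MvPolynomial.algHom_ext
    intro i
    rw [AlgHom.comp_apply, act_X, act_X, map_sum]
    simp only [map_mul, act_X, act_C, Matrix.mul_apply, Int.cast_sum, map_sum, Finset.sum_mul,
      Int.cast_mul]
    rw [Finset.sum_comm]
    refine Finset.sum_congr rfl fun k _ => ?_
    rw [Finset.mul_sum]
    refine Finset.sum_congr rfl fun j _ => ?_
    ring
  rw [← this]
  rfl

lemma act_one (p : MvPolynomial (Fin n) ℚ) : act (1 : Matrix (Fin n) (Fin n) ℤ) p = p := by
  have : act (1 : Matrix (Fin n) (Fin n) ℤ) = AlgHom.id ℚ _ := by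
    apply MvPolynomial.algHom_ext
    intro i
    rw [act_X]
    simp [Matrix.one_apply]
  rw [this]
  rfl

lemma act_homog (g : Matrix (Fin n) (Fin n) ℤ) {p : MvPolynomial (Fin n) ℚ} {k : ℕ}
    (hp : p.IsHomogeneous k) : (act g p).IsHomogeneous k := by
  have h := hp.aeval (fun i : Fin n => ∑ j : Fin n, C (g i j : ℚ) * X j) (n := 1) ?_
  · rw [one_mul] at h
    exact h
  · intro i
    refine IsHomogeneous.sum _ _ _ fun j _ => ?_
    exact isHomogeneous_C_mul_X _ _

/-- The linear form with integer coefficients. -/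
noncomputable def lf (r : Fin n → ℤ) : MvPolynomial (Fin n) ℚ := ∑ l, C (r l : ℚ) * X l

lemma act_X' (g : Matrix (Fin n) (Fin n) ℤ) (k : Fin n) : act g (X k) = lf (g k) := act_X g k

lemma act_lf (g : Matrix (Fin n) (Fin n) ℤ) (r : Fin n → ℤ) :
    act g (lf r) = lf (Matrix.vecMul r g) := by
  rw [lf, lf, map_sum]
  simp only [map_mul, act_C, act_X, Matrix.vecMul, dotProduct, Int.cast_sum, map_sum,
    Int.cast_mul, Finset.sum_mul, Finset.mul_sum]
  rw [Finset.sum_comm]
  exact Finset.sum_congr rfl fun _ _ => Finset.sum_congr rfl fun _ _ => by ring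

/-- The simple root as a linear form. -/
noncomputable def GCM.root (j : Fin n) : MvPolynomial (Fin n) ℚ := lf (fun l => A.a l j)

lemma lf_sub_smul (r s : Fin n → ℤ) (c : ℤ) : lf (r - c • s) = lf r - C (c : ℚ) * lf s := by
  simp only [lf, Pi.sub_apply, Pi.smul_apply, smul_eq_mul, Int.cast_sub, Int.cast_mul, map_sub,
    map_mul, sub_mul, Finset.sum_sub_distrib, Finset.mul_sum, mul_assoc]

lemma lf_single (k : Fin n) : lf (Pi.single k 1) = X k := by
  rw [lf, Finset.sum_eq_single k]
  · simp
  · intro b _ hb; simp [Pi.single_eq_of_ne hb]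
  · intro h; exact absurd (Finset.mem_univ k) h

lemma GCM.act_refl_X (j k : Fin n) : act (A.refl j) (X k) =
    X k - C (if k = j then (1 : ℚ) else 0) * A.root j := by
  rw [act_X', GCM.root]
  have : A.refl j k = Pi.single k 1 - (if k = j then (1 : ℤ) else 0) • fun l => A.a l j := by
    funext l
    simp only [GCM.refl, Pi.sub_apply, Pi.smul_apply, smul_eq_mul, Pi.single_apply]
    congr 1
    · simp only [eq_comm]
    · split_ifs <;> simp
  rw [this, lf_sub_smul, lf_single]
  congr 2
  split_ifs <;> simp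

/-- Differences of a polynomial and its reflection are divisible by the root. -/
lemma GCM.root_dvd (j : Fin n) (p : MvPolynomial (Fin n) ℚ) :
    A.root j ∣ p - act (A.refl j) p := by
  induction p using MvPolynomial.induction_on with
  | C a => rw [act_C, sub_self]; exact dvd_zero _
  | add p q hp hq =>
    rw [map_add, add_sub_add_comm]
    exact dvd_add hp hq
  | mul_X p i hp =>
    have : p * X i - act (A.refl j) (p * X i) =
        p * (X i - act (A.refl j) (X i)) + (p - act (A.refl j) p) * act (A.refl j) (X i) := by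
      rw [map_mul]; ring
    rw [this]
    refine dvd_add (Dvd.dvd.mul_left ?_ _) (Dvd.dvd.mul_right hp _)
    rw [A.act_refl_X, sub_sub_cancel]
    exact Dvd.intro_left _ rfl

/-- The directional derivative. -/
noncomputable def dq (f : MvPolynomial (Fin n) ℚ) (v : Fin n → ℤ) : MvPolynomial (Fin n) ℚ :=
  ∑ k, C (v k : ℚ) * pderiv k f

lemma dq_add (f g : MvPolynomial (Fin n) ℚ) (v : Fin n → ℤ) : dq (f + g) v = dq f v + dq g v := by
  simp [dq, mul_add, Finset.sum_add_distrib]

lemma dq_mul (f g : MvPolynomial (Fin n) ℚ) (v : Fin n → ℤ) :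
    dq (f * g) v = dq f v * g + f * dq g v := by
  simp only [dq, pderiv_mul, Finset.sum_mul, Finset.mul_sum, ← Finset.sum_add_distrib]
  exact Finset.sum_congr rfl fun _ _ => by ring

lemma dq_C (c : ℚ) (v : Fin n → ℤ) : dq (C c) v = 0 := by simp [dq]

lemma dq_X (i : Fin n) (v : Fin n → ℤ) : dq (X i) v = C (v i : ℚ) := by
  rw [dq, Finset.sum_eq_single i]
  · simp
  · intro b _ hb; simp [pderiv_X, Pi.single_eq_of_ne (Ne.symm hb)]
  · intro h; exact absurd (Finset.mem_univ i) h

lemma dq_sum {ι : Type} (t : Finset ι) (f : ι → MvPolynomial (Fin n) ℚ) (v : Fin n → ℤ) :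
    dq (∑ i ∈ t, f i) v = ∑ i ∈ t, dq (f i) v := by
  classical
  induction t using Finset.induction_on with
  | empty => simp [dq]
  | insert a t ha ih => rw [Finset.sum_insert ha, Finset.sum_insert ha, dq_add, ih]

lemma dq_lf (r v : Fin n → ℤ) : dq (lf r) v = C ((∑ l, r l * v l : ℤ) : ℚ) := by
  rw [lf, dq_sum]
  simp only [dq_mul, dq_C, dq_X, zero_mul, zero_add, Int.cast_sum, map_sum, Int.cast_mul, map_mul]

lemma dq_single (f : MvPolynomial (Fin n) ℚ) (i : Fin n) : dq f (Pi.single i 1) = pderiv i f := by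
  rw [dq, Finset.sum_eq_single i]
  · simp
  · intro b _ hb; simp [Pi.single_eq_of_ne hb]
  · intro h; exact absurd (Finset.mem_univ i) h

/-- Chain rule. -/
lemma dq_act (g : Matrix (Fin n) (Fin n) ℤ) (f : MvPolynomial (Fin n) ℚ) (v : Fin n → ℤ) :
    dq (act g f) v = act g (dq f (g.mulVec v)) := by
  induction f using MvPolynomial.induction_on with
  | C a => rw [act_C, dq_C, dq_C, map_zero]
  | add p q hp hq => rw [map_add, dq_add, dq_add, hp, hq, map_add]
  | mul_X p i hp =>
    rw [map_mul, dq_mul, hp, act_X', dq_lf, dq_mul, dq_X, map_add, map_mul, map_mul, act_C, act_X']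
    rfl

end Pool.Agent.W628.KM
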