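import Mathlib
import Pool.Agent.Helper477.Sph.Mol2
import Pool.Agent.W628.KM.Defs

/-!
# Hilbert series of invariants of finite parabolic subgroups
-/

open MvPolynomial Matrix Pool.Agent.Helper477.Sph

namespace Pool.Agent.W628.KM

variable {n : ℕ}

/-- A power series that is a quotient of polynomials and decays to order `n` at infinity. -/
def Good (n : ℕ) (E : PowerSeries ℂ) : Prop :=
  ∃ D N : Polynomial ℂ, D ≠ 0 ∧ N.degree + n ≤ D.degree ∧
    (D : PowerSeries ℂ) * E = (N : PowerSeries ℂ)

lemma Good.zero (n : ℕ) : Good n 0 := ⟨1, 0, one_ne_zero, by simp, by simp⟩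

lemma Good.C_mul {E : PowerSeries ℂ} (h : Good n E) (c : ℂ) : Good n (PowerSeries.C c * E) := by
  obtain ⟨D, N, hD, hN, he⟩ := h
  refine ⟨D, Polynomial.C c * N, hD, ?_, ?_⟩
  · refine le_trans ?_ hN
    gcongr
    refine (Polynomial.degree_mul_le _ _).trans ?_
    calc (Polynomial.C c).degree + N.degree ≤ 0 + N.degree := by
          gcongr; exact Polynomial.degree_C_le
      _ = N.degree := zero_add _
  · rw [mul_left_comm, he, Polynomial.coe_mul, Polynomial.coe_C]

lemma Good.add {E F : PowerSeries ℂ} (hE : Good n E) (hF : Good n F) : Good n (E + F) := by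
  obtain ⟨D, N, hD, hN, he⟩ := hE
  obtain ⟨D', N', hD', hN', he'⟩ := hF
  refine ⟨D * D', N * D' + N' * D, mul_ne_zero hD hD', ?_, ?_⟩
  · rw [Polynomial.degree_mul]
    have h1 : (N * D').degree + n ≤ D.degree + D'.degree := by
      rw [Polynomial.degree_mul, add_right_comm]
      gcongr
    have h2 : (N' * D).degree + n ≤ D.degree + D'.degree := by
      rw [Polynomial.degree_mul, add_right_comm, add_comm D.degree]
      gcongr
    have h3 := Polynomial.degree_add_le (N * D') (N' * D)
    rcases max_cases (N * D').degree (N' * D).degree with ⟨h, -⟩ | ⟨h, -⟩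
    · rw [h] at h3
      exact le_trans (by gcongr) h1
    · rw [h] at h3
      exact le_trans (by gcongr) h2
  · rw [Polynomial.coe_mul, Polynomial.coe_add, Polynomial.coe_mul, Polynomial.coe_mul, ← he, ← he']
    ring

lemma Good.sum {ι : Type*} (s : Finset ι) (E : ι → PowerSeries ℂ) (h : ∀ i ∈ s, Good n (E i)) :
    Good n (∑ i ∈ s, E i) := by
  classical
  induction s using Finset.induction_on with
  | empty => simpa using Good.zero n
  | insert a s ha ih =>
    rw [Finset.sum_insert ha]
    exact (h a (Finset.mem_insert_self a s)).add (ih fun i hi => h i (Finset.mem_insert_of_mem hi))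

lemma degree_charpolyRev (G : Matrix (Fin n) (Fin n) ℂ) (hG : G.det ≠ 0) :
    G.charpolyRev.degree = n := by
  have h0 : G.charpoly.coeff 0 ≠ 0 := by
    intro h
    apply hG
    rw [Matrix.det_eq_sign_charpoly_coeff, h, mul_zero]
  have h1 : G.charpoly.natTrailingDegree = 0 :=
    Polynomial.natTrailingDegree_eq_zero_of_constantCoeff_ne_zero (by simpa using h0)
  have h2 : G.charpolyRev ≠ 0 := by
    intro h
    have := Matrix.eval_charpolyRev (M := G)
    rw [h, Polynomial.eval_zero] at this
    exact zero_ne_one this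
  rw [← Matrix.reverse_charpoly, Polynomial.degree_eq_natDegree (by rwa [Matrix.reverse_charpoly]),
    Polynomial.reverse_natDegree, h1, Matrix.charpoly_natDegree_eq_dim]
  simp

lemma Good.tau (G : Matrix (Fin n) (Fin n) ℂ) (N : ℕ) (hN : 0 < N) (hG : G ^ N = 1) :
    Good n (tau G) := by
  refine ⟨G.charpolyRev, 1, ?_, ?_, ?_⟩
  · intro h
    have := tau_mul_charpolyRev G N hN hG
    rw [h, Polynomial.coe_zero, mul_zero] at this
    exact zero_ne_one this
  · rw [degree_charpolyRev, Polynomial.degree_one, zero_add]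
    intro h
    have := congrArg Matrix.det hG
    rw [Matrix.det_pow, h, zero_pow hN.ne', Matrix.det_one] at this
    exact zero_ne_one this
  · rw [mul_comm, tau_mul_charpolyRev G N hN hG, Polynomial.coe_one]

/-- The rational matrix. -/
abbrev qm (g : Matrix (Fin n) (Fin n) ℤ) : Matrix (Fin n) (Fin n) ℚ := g.map (Int.castRingHom ℚ)

/-- The complex matrix. -/
abbrev cm (g : Matrix (Fin n) (Fin n) ℤ) : Matrix (Fin n) (Fin n) ℂ := g.map (Int.castRingHom ℂ)

lemma act_eq_TT (g : Matrix (Fin n) (Fin n) ℤ) : act g = TT (qm g) := rfl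

/-- Embedding of coefficient vectors. -/
noncomputable def embq (n k : ℕ) : (I n k → ℚ) →ₗ[ℚ] MvPolynomial (Fin n) ℚ where
  toFun v := ∑ s : I n k, monomial s.1 (v s)
  map_add' v w := by
    rw [← Finset.sum_add_distrib]
    exact Finset.sum_congr rfl fun s _ => by rw [Pi.add_apply, map_add]
  map_smul' c v := by
    rw [RingHom.id_apply, Finset.smul_sum]
    exact Finset.sum_congr rfl fun s _ => by rw [Pi.smul_apply, smul_monomial]

theorem embq_apply (k : ℕ) (v : I n k → ℚ) : embq n k v = ∑ s : I n k, monomial s.1 (v s) := rfl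

theorem coeff_embq (k : ℕ) (v : I n k → ℚ) (s : I n k) : coeff s.1 (embq n k v) = v s := by
  classical
  rw [embq_apply, coeff_sum, Finset.sum_eq_single s]
  · rw [coeff_monomial, if_pos rfl]
  · intro b _ hb
    rw [coeff_monomial, if_neg]
    intro h; exact hb (Subtype.ext h)
  · intro h; exact absurd (Finset.mem_univ _) h

theorem embq_injective (k : ℕ) : Function.Injective (embq n k) := by
  intro v w h
  funext s
  rw [← coeff_embq k v s, ← coeff_embq k w s, h]

theorem embq_mem (k : ℕ) (v : I n k → ℚ) : embq n k v ∈ homogeneousSubmodule (Fin n) ℚ k := by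
  rw [mem_homogeneousSubmodule, embq_apply]
  exact IsHomogeneous.sum _ _ _ fun s _ => monomial_homog s _

theorem TT_embq (k : ℕ) (g : Matrix (Fin n) (Fin n) ℚ) (v : I n k → ℚ) :
    TT g (embq n k v) = embq n k ((Mk k g).mulVec v) := by
  rw [embq_apply, embq_apply, map_sum]
  simp only [TT_monomial]
  rw [Finset.sum_comm]
  refine Finset.sum_congr rfl fun s _ => ?_
  rw [Matrix.mulVec, dotProduct, map_sum]

/-- Homogeneous polynomials of degree `k` invariant under the reflections with index in `J`. -/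
def GCM.F (A : GCM n) (J : Finset (Fin n)) (k : ℕ) : Submodule ℚ (MvPolynomial (Fin n) ℚ) where
  carrier := {p | p.IsHomogeneous k ∧ ∀ j ∈ J, act (A.refl j) p = p}
  add_mem' := fun ⟨h1, h2⟩ ⟨h3, h4⟩ => ⟨h1.add h3, fun j hj => by rw [map_add, h2 j hj, h4 j hj]⟩
  zero_mem' := ⟨isHomogeneous_zero _ _ _, fun _ _ => map_zero _⟩
  smul_mem' := fun c p ⟨h1, h2⟩ => ⟨by rw [smul_eq_C_mul]; exact h1.C_mul c,
    fun j hj => by rw [map_smul, h2 j hj]⟩

lemma GCM.mem_F_iff (A : GCM n) (J : Finset (Fin n)) (k : ℕ) (p : MvPolynomial (Fin n) ℚ) :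
    p ∈ A.F J k ↔ p.IsHomogeneous k ∧
      ∀ g ∈ A.W J, act (g : Matrix (Fin n) (Fin n) ℤ) p = p := by
  constructor
  · rintro ⟨h1, h2⟩
    refine ⟨h1, fun g hg => ?_⟩
    induction hg using Subgroup.closure_induction with
    | mem x hx => obtain ⟨j, hj, rfl⟩ := hx; exact h2 j (by simpa using hj)
    | one => exact act_one _
    | mul x y _ _ hx hy => rw [Units.val_mul, ← act_mul, hx, hy]
    | inv x _ hx =>
      conv_lhs => rw [← hx, act_mul, ← Units.val_mul, mul_inv_cancel, Units.val_one, act_one]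
  · rintro ⟨h1, h2⟩
    exact ⟨h1, fun j hj => h2 (A.s j) (Subgroup.subset_closure ⟨j, by simpa using hj, rfl⟩)⟩

/-- Molien's formula in each degree. -/
theorem molien_W (A : GCM n) (J : Finset (Fin n)) (k : ℕ) [Fintype (A.W J)] :
    (Fintype.card (A.W J) : ℚ) * (Module.finrank ℚ (A.F J k) : ℚ) =
      ∑ g : A.W J, (Mk k (qm (g.1 : Matrix (Fin n) (Fin n) ℤ))).trace := by
  classical
  set U : Submodule ℚ (I n k → ℚ) :=
    ⨅ g : A.W J, LinearMap.ker (Matrix.toLin' (Mk k (qm (g.1 : Matrix (Fin n) (Fin n) ℤ))) -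
      LinearMap.id) with hU
  have hmemU : ∀ v, v ∈ U ↔ ∀ g : A.W J,
      (Mk k (qm (g.1 : Matrix (Fin n) (Fin n) ℤ))).mulVec v = v := by
    intro v
    rw [hU, Submodule.mem_iInf]
    refine forall_congr' fun g => ?_
    rw [LinearMap.mem_ker, LinearMap.sub_apply, Matrix.toLin'_apply, LinearMap.id_apply,
      sub_eq_zero]
  have hmap : U.map (embq n k) = A.F J k := by
    ext p
    rw [Submodule.mem_map, A.mem_F_iff]
    constructor
    · rintro ⟨v, hv, rfl⟩
      refine ⟨embq_mem k v, fun g hg => ?_⟩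
      rw [act_eq_TT, TT_embq]
      have := (hmemU v).mp hv ⟨g, hg⟩
      exact congrArg _ this
    · rintro ⟨hp, hinv⟩
      refine ⟨fun s => coeff s.1 p, ?_, (expand hp).symm⟩
      have hpe : embq n k (fun s => coeff s.1 p) = p := (expand hp).symm
      rw [hmemU]
      intro g
      apply embq_injective k
      rw [← TT_embq, hpe]
      exact hinv g.1 g.2
  have hrank : Module.finrank ℚ (A.F J k) = Module.finrank ℚ U := by
    rw [← hmap]
    exact (LinearEquiv.finrank_eq
      (Submodule.equivMapOfInjective (embq n k) (embq_injective k) U)).symm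
  have hc : (Fintype.card (A.W J) : ℚ) ≠ 0 := by
    have : 0 < Fintype.card (A.W J) := Fintype.card_pos
    exact_mod_cast this.ne'
  set P : Matrix (I n k) (I n k) ℚ := (Fintype.card (A.W J) : ℚ)⁻¹ •
    ∑ g : A.W J, Mk k (qm (g.1 : Matrix (Fin n) (Fin n) ℤ)) with hP
  have hproj : LinearMap.IsProj U (Matrix.toLin' P) := by
    constructor
    · intro v
      rw [hmemU, Matrix.toLin'_apply, hP]
      intro g
      rw [Matrix.smul_mulVec, Matrix.mulVec_smul, Matrix.mulVec_mulVec, Finset.mul_sum]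
      congr 2
      have h1 : ∀ h : A.W J, Mk k (qm (g.1 : Matrix (Fin n) (Fin n) ℤ)) *
          Mk k (qm (h.1 : Matrix (Fin n) (Fin n) ℤ)) =
          Mk k (qm ((h * g).1 : Matrix (Fin n) (Fin n) ℤ)) := by
        intro h
        rw [← Mk_mul]
        congr 1
        rw [qm, qm, qm, ← Matrix.map_mul]
        rfl
      simp only [h1]
      exact Fintype.sum_equiv (Equiv.mulRight g) _ _ fun h => rfl
    · intro v hv
      rw [hmemU] at hv
      rw [Matrix.toLin'_apply, hP, Matrix.smul_mulVec, Matrix.sum_mulVec]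
      simp only [hv]
      rw [Finset.sum_const, Finset.card_univ, ← Nat.cast_smul_eq_nsmul ℚ, smul_smul,
        inv_mul_cancel₀ hc, one_smul]
  have htr := hproj.trace
  rw [Matrix.trace_toLin'_eq] at htr
  rw [hrank, ← htr, hP, Matrix.trace_smul, Matrix.trace_sum, smul_eq_mul, ← mul_assoc,
    mul_inv_cancel₀ hc, one_mul]

/-- The Hilbert series of the invariants. -/
noncomputable def GCM.hilb (A : GCM n) (J : Finset (Fin n)) : PowerSeries ℂ :=
  PowerSeries.mk fun k => ((Module.finrank ℚ (A.F J k) : ℕ) : ℂ)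

lemma cm_pow (g : Matrix (Fin n) (Fin n) ℤ) (k : ℕ) : cm (g ^ k) = cm g ^ k := by
  exact map_pow (Int.castRingHom ℂ).mapMatrix g k

theorem good_hilb (A : GCM n) (J : Finset (Fin n)) (h : Finite (A.W J)) : Good n (A.hilb J) := by
  classical
  have : Fintype (A.W J) := Fintype.ofFinite _
  have hc : (Fintype.card (A.W J) : ℂ) ≠ 0 := by
    have : 0 < Fintype.card (A.W J) := Fintype.card_pos
    exact_mod_cast this.ne'
  have h1 : A.hilb J = PowerSeries.C (Fintype.card (A.W J) : ℂ)⁻¹ *
      ∑ g : A.W J, tau (cm (g.1 : Matrix (Fin n) (Fin n) ℤ)) := by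
    refine PowerSeries.ext fun k => ?_
    rw [PowerSeries.coeff_C_mul, GCM.hilb, PowerSeries.coeff_mk, map_sum]
    have h := molien_W A J k
    have h2 : ∀ g : A.W J, PowerSeries.coeff k (tau (cm (g.1 : Matrix (Fin n) (Fin n) ℤ))) =
        (((Mk k (qm (g.1 : Matrix (Fin n) (Fin n) ℤ))).trace : ℚ) : ℂ) := by
      intro g
      rw [coeff_tau]
      have e1 : cm (g.1 : Matrix (Fin n) (Fin n) ℤ) =
          (qm (g.1 : Matrix (Fin n) (Fin n) ℤ)).map (algebraMap ℚ ℂ) := by
        ext i j; simp
      rw [e1, Mk_map, Matrix.trace, Matrix.trace]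
      push_cast
      rfl
    simp only [h2]
    rw [← Rat.cast_sum, ← h]
    push_cast
    field_simp
  rw [h1]
  refine (Good.sum _ _ fun g _ => ?_).C_mul _
  refine Good.tau _ (Fintype.card (A.W J)) Fintype.card_pos ?_
  have h3 : g ^ Fintype.card (A.W J) = 1 := pow_card_eq_one
  have h4 : ((g.1 : Matrix (Fin n) (Fin n) ℤ)) ^ Fintype.card (A.W J) = 1 := by
    have := congrArg (fun x : A.W J => (x.1 : Matrix (Fin n) (Fin n) ℤ)) h3
    beta_reduce at this
    rw [Subgroup.coe_pow, Units.val_pow_eq_pow_val, Subgroup.coe_one, Units.val_one] at this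
    exact this
  rw [← cm_pow, h4]
  exact map_one (Int.castRingHom ℂ).mapMatrix

end Pool.Agent.W628.KM
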