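import Mathlib

/-!
# Polynomials that are constant along orbits of two reflections
-/

open MvPolynomial

namespace Pool.Agent.W628.KM

variable {n : ℕ}

/-- Chain rule for a polynomial curve. -/
lemma derivative_curve (c : Fin n → Polynomial ℝ) (f : MvPolynomial (Fin n) ℚ) :
    Polynomial.derivative (aeval c f) =
      ∑ k, aeval c (pderiv k f) * Polynomial.derivative (c k) := by
  induction f using MvPolynomial.induction_on with
  | C a =>
    simp only [pderiv_C, map_zero, zero_mul, Finset.sum_const_zero]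
    rw [aeval_C]
    exact Polynomial.derivative_C
  | add p q hp hq =>
    simp only [map_add, hp, hq, add_mul, Finset.sum_add_distrib]
  | mul_X p i hp =>
    have h1 : ∀ k, aeval c (pderiv k (p * X i)) * Polynomial.derivative (c k) =
        aeval c (pderiv k p) * Polynomial.derivative (c k) * c i +
          (if k = i then aeval c p * Polynomial.derivative (c i) else 0) := by
      intro k
      rw [pderiv_mul, pderiv_X, map_add, map_mul, map_mul, aeval_X]
      by_cases h : k = i
      · subst h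
        rw [Pi.single_eq_same, map_one, if_pos rfl]
        ring
      · rw [Pi.single_eq_of_ne (Ne.symm h), map_zero, if_neg h]
        ring
    rw [Finset.sum_congr rfl fun k _ => h1 k, Finset.sum_add_distrib, ← Finset.sum_mul, ← hp,
      Finset.sum_ite_eq', if_pos (Finset.mem_univ i), map_mul, aeval_X, Polynomial.derivative_mul]

lemma eval_curve (c : Fin n → Polynomial ℝ) (f : MvPolynomial (Fin n) ℚ) (z : ℝ) :
    (aeval c f : Polynomial ℝ).eval z = aeval (fun k => (c k).eval z) f := by
  induction f using MvPolynomial.induction_on with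
  | C a =>
    rw [aeval_C, aeval_C]
    exact Polynomial.eval_C
  | add p q hp hq => simp only [map_add, hp, hq, Polynomial.eval_add]
  | mul_X p i hp => simp only [map_mul, hp, Polynomial.eval_mul, aeval_X]

lemma aeval_smul_homog {d : ℕ} {f : MvPolynomial (Fin n) ℚ} (hf : f.IsHomogeneous d) (z : ℝ)
    (x : Fin n → ℝ) : aeval (fun k => z * x k) f = z ^ d * aeval x f := by
  rw [aeval_def, aeval_def, eval₂_eq, eval₂_eq, Finset.mul_sum]
  refine Finset.sum_congr rfl fun m hm => ?_
  have hd := hf.degree_eq_sum_deg_support hm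
  simp only [mul_pow, Finset.prod_mul_distrib]
  rw [Finset.prod_pow_eq_pow_sum, ← hd]
  ring

lemma euler_aeval {d : ℕ} {f : MvPolynomial (Fin n) ℚ} (hf : f.IsHomogeneous d) (x : Fin n → ℝ) :
    ∑ k, x k * aeval x (pderiv k f) = d * aeval x f := by
  have := congrArg (aeval x) hf.sum_X_mul_pderiv
  simpa [map_sum, map_mul] using this

/-- A polynomial with infinitely many prescribed values. -/
lemma eq_of_seq (q r : Polynomial ℝ) (u : ℕ → ℝ) (hu : Function.Injective u)
    (h : ∀ k, q.eval (u k) = r.eval (u k)) : q = r := by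
  refine Polynomial.eq_of_infinite_eval_eq q r ?_
  refine Set.infinite_of_injective_forall_mem hu fun k => ?_
  exact h k

/-- The dot product of an integer row with a real vector. -/
def dt (r : Fin n → ℤ) (x : Fin n → ℝ) : ℝ := ∑ l, (r l : ℝ) * x l

lemma dt_add (r : Fin n → ℤ) (x y : Fin n → ℝ) : dt r (fun k => x k + y k) = dt r x + dt r y := by
  simp only [dt, mul_add, Finset.sum_add_distrib]

lemma dt_smul (r : Fin n → ℤ) (c : ℝ) (x : Fin n → ℝ) : dt r (fun k => c * x k) = c * dt r x := by
  simp only [dt, Finset.mul_sum]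
  exact Finset.sum_congr rfl fun _ _ => by ring

lemma dt_sub_smul (r : Fin n → ℤ) (c : ℝ) (x y : Fin n → ℝ) :
    dt r (fun k => x k - c * y k) = dt r x - c * dt r y := by
  simp only [dt, mul_sub, Finset.sum_sub_distrib, Finset.mul_sum]
  congr 1
  exact Finset.sum_congr rfl fun _ _ => by ring

/-- Invariance under the reflection with given row and column. -/
def RInv (f : MvPolynomial (Fin n) ℚ) (r v : Fin n → ℤ) : Prop :=
  ∀ x : Fin n → ℝ, aeval (fun k => x k - dt r x * (v k : ℝ)) f = aeval x f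

/-- The directional derivative at a real point. -/
noncomputable def dd (f : MvPolynomial (Fin n) ℚ) (v : Fin n → ℤ) (x : Fin n → ℝ) : ℝ :=
  ∑ k, (v k : ℝ) * aeval x (pderiv k f)

/-- If a polynomial is constant on an arithmetic progression of points its derivative vanishes. -/
lemma const_line {f : MvPolynomial (Fin n) ℚ} (x y : Fin n → ℝ)
    (h : ∀ k : ℕ, aeval (fun i => x i + k * y i) f = aeval x f) :
    ∑ k, y k * aeval x (pderiv k f) = 0 := by
  let c : Fin n → Polynomial ℝ := fun i => Polynomial.C (x i) + Polynomial.C (y i) * Polynomial.X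
  have h1 : (aeval c f : Polynomial ℝ) = Polynomial.C (aeval x f) := by
    refine eq_of_seq _ _ (fun k : ℕ => (k : ℝ)) Nat.cast_injective fun k => ?_
    rw [eval_curve, Polynomial.eval_C, ← h k]
    congr 1
    congr 1
    funext i
    simp [c]
    ring
  have h2 := congrArg (fun q => (Polynomial.derivative q).eval 0) h1
  beta_reduce at h2
  rw [derivative_curve, Polynomial.derivative_C, Polynomial.eval_zero, Polynomial.eval_finsetSum] at h2
  rw [← h2]
  refine Finset.sum_congr rfl fun k _ => ?_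
  rw [Polynomial.eval_mul, eval_curve]
  have h3 : (Polynomial.derivative (c k)).eval 0 = y k := by simp [c]
  have h4 : (fun k => (c k).eval 0) = x := by funext k; simp [c]
  rw [h3, h4, mul_comm]

/-- The transvection case. -/
lemma transvection {f : MvPolynomial (Fin n) ℚ} {r₁ r₂ v₁ v₂ : Fin n → ℤ} (h1 : RInv f r₁ v₁)
    (h2 : RInv f r₂ v₂) (e11 : dt r₁ (fun k => (v₁ k : ℝ)) = 2)
    (e22 : dt r₂ (fun k => (v₂ k : ℝ)) = 2) (e12 : dt r₁ (fun k => (v₂ k : ℝ)) = 0) (x : Fin n → ℝ) :
    dt r₂ (fun k => (v₁ k : ℝ)) * dt r₁ x * dd f v₂ x = 0 := by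
  set b := dt r₂ (fun k => (v₁ k : ℝ)) with hb
  have step : ∀ x : Fin n → ℝ, aeval (fun k => x k - (dt r₂ x * (v₂ k : ℝ) + dt r₁ x * (v₁ k : ℝ))) f =
      aeval x f := by
    intro x
    rw [← h2 x, ← h1 (fun k => x k - dt r₂ x * (v₂ k : ℝ))]
    congr 2
    funext k
    rw [dt_sub_smul, e12]
    ring
  have step2 : ∀ x : Fin n → ℝ, aeval (fun k => x k + b * dt r₁ x * (v₂ k : ℝ)) f = aeval x f := by
    intro x
    rw [← step x, ← step (fun k => x k - (dt r₂ x * (v₂ k : ℝ) + dt r₁ x * (v₁ k : ℝ)))]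
    congr 2
    funext k
    have a1 : dt r₁ (fun k => x k - (dt r₂ x * (v₂ k : ℝ) + dt r₁ x * (v₁ k : ℝ))) = - dt r₁ x := by
      have : (fun k => x k - (dt r₂ x * (v₂ k : ℝ) + dt r₁ x * (v₁ k : ℝ))) =
          fun k => (fun k => x k - dt r₂ x * (v₂ k : ℝ)) k - dt r₁ x * (v₁ k : ℝ) := by
        funext k; ring
      rw [this, dt_sub_smul, dt_sub_smul, e12, e11]
      ring
    have a2 : dt r₂ (fun k => x k - (dt r₂ x * (v₂ k : ℝ) + dt r₁ x * (v₁ k : ℝ))) =
        - dt r₂ x - b * dt r₁ x := by
      have : (fun k => x k - (dt r₂ x * (v₂ k : ℝ) + dt r₁ x * (v₁ k : ℝ))) =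
          fun k => (fun k => x k - dt r₂ x * (v₂ k : ℝ)) k - dt r₁ x * (v₁ k : ℝ) := by
        funext k; ring
      rw [this, dt_sub_smul, dt_sub_smul, e22, ← hb]
      ring
    rw [a1, a2]
    ring
  have step3 : ∀ k : ℕ, aeval (fun i => x i + k * (b * dt r₁ x * (v₂ i : ℝ))) f = aeval x f := by
    intro k
    induction k with
    | zero => simp
    | succ k ih =>
      rw [← ih, ← step2 (fun i => x i + k * (b * dt r₁ x * (v₂ i : ℝ)))]
      congr 2
      funext i
      have : dt r₁ (fun i => x i + k * (b * dt r₁ x * (v₂ i : ℝ))) = dt r₁ x := by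
        have : (fun i => x i + k * (b * dt r₁ x * (v₂ i : ℝ))) =
          fun i => x i + (fun i => (k * (b * dt r₁ x)) * (v₂ i : ℝ)) i := by
          funext i; ring
        rw [this, dt_add, dt_smul, e12]
        ring
      rw [this]
      push_cast
      ring
  have := const_line x _ step3
  rw [dd, Finset.mul_sum, ← this]
  exact Finset.sum_congr rfl fun k _ => by ring

/-- The hyperbolic case. -/
lemma hyperbolic {d : ℕ} {f : MvPolynomial (Fin n) ℚ} (hf : f.IsHomogeneous d)
    {r₁ r₂ v₁ v₂ : Fin n → ℤ} (h1 : RInv f r₁ v₁)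
    (h2 : RInv f r₂ v₂) (e11 : dt r₁ (fun k => (v₁ k : ℝ)) = 2)
    (e22 : dt r₂ (fun k => (v₂ k : ℝ)) = 2) (a b : ℝ) (e12 : dt r₁ (fun k => (v₂ k : ℝ)) = a)
    (e21 : dt r₂ (fun k => (v₁ k : ℝ)) = b) (hp : 0 < (a * b) * (a * b - 4)) (x : Fin n → ℝ) :
    b * dt r₁ x * dd f v₂ x = a * dt r₂ x * dd f v₁ x := by
  set p := a * b with hpdef
  -- the eigenvalue
  obtain ⟨l, hl, hl0, hl1⟩ : ∃ l : ℝ, l ^ 2 - (p - 2) * l + 1 = 0 ∧ l ≠ 0 ∧ |l| ≠ 1 := by
    have hs : Real.sqrt (p * (p - 4)) ^ 2 = p * (p - 4) := Real.sq_sqrt hp.le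
    refine ⟨((p - 2) + Real.sqrt (p * (p - 4))) / 2, ?_, ?_, ?_⟩
    · nlinarith
    · intro h0
      have : (((p - 2) + Real.sqrt (p * (p - 4))) / 2) ^ 2 - (p - 2) *
        (((p - 2) + Real.sqrt (p * (p - 4))) / 2) + 1 = 0 := by nlinarith
      rw [h0] at this
      norm_num at this
    · intro h0
      have h3 : (((p - 2) + Real.sqrt (p * (p - 4))) / 2) ^ 2 - (p - 2) *
        (((p - 2) + Real.sqrt (p * (p - 4))) / 2) + 1 = 0 := by nlinarith
      have h4 : 0 < Real.sqrt (p * (p - 4)) := Real.sqrt_pos.2 hp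
      rcases (abs_eq (by norm_num : (0:ℝ) ≤ 1)).1 h0 with h | h
      · rw [h] at h3
        have : p = 4 := by linarith
        rw [this] at hp
        norm_num at hp
      · rw [h] at h3
        have : p = 0 := by linarith
        rw [this] at hp
        norm_num at hp
  have hll : l - l⁻¹ ≠ 0 := by
    intro h
    apply hl1
    have : l ^ 2 = 1 := by
      field_simp at h
      linarith
    have h2 : (l - 1) * (l + 1) = 0 := by ring_nf; linarith
    rcases mul_eq_zero.1 h2 with h | h
    · rw [sub_eq_zero.1 h]; norm_num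
    · rw [eq_neg_of_add_eq_zero_left h]; norm_num
  have hli : l + l⁻¹ = p - 2 := by
    field_simp
    linarith
  have hlinv : l * l⁻¹ = 1 := mul_inv_cancel₀ hl0
  obtain ⟨li, hlidef⟩ : ∃ li, li = l⁻¹ := ⟨_, rfl⟩
  rw [← hlidef] at hll hli hlinv
  obtain ⟨δ, hδ⟩ : ∃ δ, δ = l - li := ⟨_, rfl⟩
  rw [← hδ] at hll
  have hp4 : 4 - p ≠ 0 := by
    intro h
    have : p = 4 := by linarith
    rw [this] at hp
    norm_num at hp
  set X1 := dt r₁ x with hX1
  set X2 := dt r₂ x with hX2
  set c1 := (2 * X1 - a * X2) / (4 - p) with hc1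
  set c2 := (2 * X2 - b * X1) / (4 - p) with hc2
  let x0 : Fin n → ℝ := fun k => x k - c1 * v₁ k - c2 * v₂ k
  have q1 : dt r₁ x0 = 0 := by
    have : x0 = fun k => (fun k => x k - c1 * (v₁ k : ℝ)) k - c2 * (v₂ k : ℝ) := rfl
    rw [this, dt_sub_smul, dt_sub_smul, e11, e12, ← hX1, hc1, hc2]
    field_simp
    rw [hpdef]
    ring
  have q2 : dt r₂ x0 = 0 := by
    have : x0 = fun k => (fun k => x k - c1 * (v₁ k : ℝ)) k - c2 * (v₂ k : ℝ) := rfl
    rw [this, dt_sub_smul, dt_sub_smul, e21, e22, ← hX2, hc1, hc2]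
    field_simp
    rw [hpdef]
    ring
  -- the invariance in coordinates
  have inv : ∀ m1 m2 : ℝ, aeval (fun k => x0 k + m1 * v₁ k + m2 * v₂ k) f =
      aeval (fun k => x0 k + ((p - 1) * m1 + a * m2) * v₁ k + (-b * m1 - m2) * v₂ k) f := by
    intro m1 m2
    have g : ∀ (r : Fin n → ℤ) (m1 m2 : ℝ), dt r (fun k => x0 k + m1 * v₁ k + m2 * v₂ k) =
        dt r x0 + m1 * dt r (fun k => (v₁ k : ℝ)) + m2 * dt r (fun k => (v₂ k : ℝ)) := by
      intro r m1 m2
      have : (fun k => x0 k + m1 * v₁ k + m2 * v₂ k) =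
        fun k => (fun k => x0 k + (fun k => m1 * (v₁ k : ℝ)) k) k + (fun k => m2 * (v₂ k : ℝ)) k := rfl
      rw [this, dt_add, dt_add, dt_smul, dt_smul]
    rw [← h2 (fun k => x0 k + m1 * v₁ k + m2 * v₂ k), g, q2, e21, e22]
    have t1 : (fun k => x0 k + m1 * (v₁ k : ℝ) + m2 * v₂ k - (0 + m1 * b + m2 * 2) * (v₂ k : ℝ)) =
        fun k => x0 k + m1 * (v₁ k : ℝ) + (-b * m1 - m2) * v₂ k := by
      funext k; ring
    rw [t1, ← h1 (fun k => x0 k + m1 * v₁ k + (-b * m1 - m2) * v₂ k), g, q1, e11, e12]
    congr 2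
    funext k
    rw [hpdef]
    ring
  -- eigenvectors
  set T1 := (p - 1) * c1 + a * c2 with hT1
  set T2 := -b * c1 - c2 with hT2
  set u1 := (T1 - li * c1) / δ with hu1
  set u2 := (T2 - li * c2) / δ with hu2
  set w1 := (l * c1 - T1) / δ with hw1
  set w2 := (l * c2 - T2) / δ with hw2
  have s1 : u1 + w1 = c1 := by rw [hu1, hw1]; field_simp; rw [hδ]; ring
  have s2 : u2 + w2 = c2 := by rw [hu2, hw2]; field_simp; rw [hδ]; ring
  have eu1 : (p - 1) * u1 + a * u2 = l * u1 := by
    have : ((p - 1) * u1 + a * u2 - l * u1) * δ = 0 := by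
      have k1 : u1 * δ = T1 - li * c1 := by rw [hu1]; field_simp
      have k2 : u2 * δ = T2 - li * c2 := by rw [hu2]; field_simp
      have : ((p - 1) * u1 + a * u2 - l * u1) * δ =
        (p - 1) * (u1 * δ) + a * (u2 * δ) - l * (u1 * δ) := by ring
      rw [this, k1, k2, hT1, hT2]
      have hp' : p = l + li + 2 := by linarith
      have hab : a * b = l + li + 2 := by rw [← hpdef]; exact hp'
      rw [hp']
      linear_combination (- c1) * hab + (c1) * hlinv
    rcases mul_eq_zero.1 this with h | h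
    · linarith
    · exact absurd h hll
  have eu2 : -b * u1 - u2 = l * u2 := by
    have : (-b * u1 - u2 - l * u2) * δ = 0 := by
      have k1 : u1 * δ = T1 - li * c1 := by rw [hu1]; field_simp
      have k2 : u2 * δ = T2 - li * c2 := by rw [hu2]; field_simp
      have : (-b * u1 - u2 - l * u2) * δ =
        -b * (u1 * δ) - (u2 * δ) - l * (u2 * δ) := by ring
      rw [this, k1, k2, hT1, hT2]
      have hp' : p = l + li + 2 := by linarith
      have hab : a * b = l + li + 2 := by rw [← hpdef]; exact hp'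
      rw [hp']
      linear_combination (- c2) * hab + (c2) * hlinv
    rcases mul_eq_zero.1 this with h | h
    · linarith
    · exact absurd h hll
  have ew1 : (p - 1) * w1 + a * w2 = li * w1 := by
    have : ((p - 1) * w1 + a * w2 - li * w1) * δ = 0 := by
      have k1 : w1 * δ = l * c1 - T1 := by rw [hw1]; field_simp
      have k2 : w2 * δ = l * c2 - T2 := by rw [hw2]; field_simp
      have : ((p - 1) * w1 + a * w2 - li * w1) * δ =
        (p - 1) * (w1 * δ) + a * (w2 * δ) - li * (w1 * δ) := by ring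
      rw [this, k1, k2, hT1, hT2]
      have hp' : p = l + li + 2 := by linarith
      have hab : a * b = l + li + 2 := by rw [← hpdef]; exact hp'
      rw [hp']
      linear_combination (c1) * hab + (-c1) * hlinv
    rcases mul_eq_zero.1 this with h | h
    · linarith
    · exact absurd h hll
  have ew2 : -b * w1 - w2 = li * w2 := by
    have : (-b * w1 - w2 - li * w2) * δ = 0 := by
      have k1 : w1 * δ = l * c1 - T1 := by rw [hw1]; field_simp
      have k2 : w2 * δ = l * c2 - T2 := by rw [hw2]; field_simp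
      have : (-b * w1 - w2 - li * w2) * δ =
        -b * (w1 * δ) - (w2 * δ) - li * (w2 * δ) := by ring
      rw [this, k1, k2, hT1, hT2]
      have hp' : p = l + li + 2 := by linarith
      have hab : a * b = l + li + 2 := by rw [← hpdef]; exact hp'
      rw [hp']
      linear_combination (c2) * hab + (-c2) * hlinv
    rcases mul_eq_zero.1 this with h | h
    · linarith
    · exact absurd h hll
  have orb : ∀ k : ℕ, aeval (fun i => x0 i + (l ^ k * u1 + li ^ k * w1) * v₁ i +
      (l ^ k * u2 + li ^ k * w2) * v₂ i) f = aeval x f := by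
    intro k
    induction k with
    | zero =>
      congr 2
      funext i
      rw [pow_zero, pow_zero, one_mul, one_mul, one_mul, one_mul, s1, s2]
      change x i - c1 * v₁ i - c2 * v₂ i + c1 * v₁ i + c2 * v₂ i = x i
      ring
    | succ k ih =>
      rw [← ih]
      refine Eq.trans ?_ (inv _ _).symm
      congr 2
      funext i
      have z1 : (p - 1) * (l ^ k * u1 + li ^ k * w1) + a * (l ^ k * u2 + li ^ k * w2) =
          l ^ (k + 1) * u1 + li ^ (k + 1) * w1 := by
        rw [pow_succ, pow_succ]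
        linear_combination (l ^ k) * eu1 + (li ^ k) * ew1
      have z2 : -b * (l ^ k * u1 + li ^ k * w1) - (l ^ k * u2 + li ^ k * w2) =
          l ^ (k + 1) * u2 + li ^ (k + 1) * w2 := by
        rw [pow_succ, pow_succ]
        linear_combination (l ^ k) * eu2 + (li ^ k) * ew2
      rw [z1, z2]
  -- the curve
  let c : Fin n → Polynomial ℝ := fun i => Polynomial.C (x0 i) * Polynomial.X +
    Polynomial.C (u1 * v₁ i + u2 * v₂ i) * Polynomial.X ^ 2 + Polynomial.C (w1 * v₁ i + w2 * v₂ i)
  have hinj : Function.Injective (fun k : ℕ => l ^ k) := by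
    intro k m hkm
    have habs : |l| ^ k = |l| ^ m := by
      rw [← abs_pow, ← abs_pow]
      exact congrArg _ hkm
    exact pow_right_injective₀ (abs_pos.2 hl0) hl1 habs
  have hq : (aeval c f : Polynomial ℝ) = Polynomial.C (aeval x f) * Polynomial.X ^ d := by
    refine eq_of_seq _ _ _ hinj fun k => ?_
    rw [eval_curve, Polynomial.eval_mul, Polynomial.eval_C, Polynomial.eval_pow, Polynomial.eval_X,
      ← orb k, mul_comm, ← aeval_smul_homog hf]
    congr 2
    funext i
    simp only [c, Polynomial.eval_add, Polynomial.eval_mul, Polynomial.eval_C, Polynomial.eval_X,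
      Polynomial.eval_pow]
    have : l ^ k * li ^ k = 1 := by rw [← mul_pow, hlinv, one_pow]
    linear_combination (-(w1 * v₁ i + w2 * v₂ i)) * this
  have hd := congrArg (fun q => (Polynomial.derivative q).eval 1) hq
  beta_reduce at hd
  rw [derivative_curve, Polynomial.eval_finsetSum, Polynomial.derivative_C_mul,
    Polynomial.derivative_X_pow] at hd
  have c_one : (fun k => (c k).eval 1) = x := by
    funext k
    simp only [c, Polynomial.eval_add, Polynomial.eval_mul, Polynomial.eval_C, Polynomial.eval_X,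
      Polynomial.eval_pow, mul_one, one_pow]
    change x k - c1 * v₁ k - c2 * v₂ k + (u1 * v₁ k + u2 * v₂ k) + (w1 * v₁ k + w2 * v₂ k) = x k
    linear_combination (v₁ k) * s1 + (v₂ k) * s2
  have c_der : ∀ k, (Polynomial.derivative (c k)).eval 1 =
      x k + ((u1 - w1) * v₁ k + (u2 - w2) * v₂ k) := by
    intro k
    simp only [c, Polynomial.derivative_add, Polynomial.derivative_mul, Polynomial.derivative_C,
      Polynomial.derivative_X, Polynomial.derivative_X_pow, Polynomial.eval_add,
      Polynomial.eval_mul, Polynomial.eval_C, Polynomial.eval_X, Polynomial.eval_pow, zero_mul,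
      Polynomial.eval_zero, Polynomial.eval_one]
    change 0 + (x k - c1 * v₁ k - c2 * v₂ k) * 1 + _ + _ = _
    norm_num
    linear_combination (v₁ k) * s1 + (v₂ k) * s2
  simp only [Polynomial.eval_mul, eval_curve, c_der, c_one, Polynomial.eval_C,
    Polynomial.eval_pow, Polynomial.eval_X, one_pow, mul_one] at hd
  have he := euler_aeval hf x
  have hfin : ∑ k, ((u1 - w1) * v₁ k + (u2 - w2) * v₂ k) * aeval x (pderiv k f) = 0 := by
    have : ∑ k, aeval x (pderiv k f) * (x k + ((u1 - w1) * v₁ k + (u2 - w2) * v₂ k)) =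
        ∑ k, x k * aeval x (pderiv k f) +
        ∑ k, ((u1 - w1) * v₁ k + (u2 - w2) * v₂ k) * aeval x (pderiv k f) := by
      rw [← Finset.sum_add_distrib]
      exact Finset.sum_congr rfl fun k _ => by ring
    rw [this, he] at hd
    linarith
  have hfin2 : (u1 - w1) * dd f v₁ x + (u2 - w2) * dd f v₂ x = 0 := by
    rw [← hfin, dd, dd, Finset.mul_sum, Finset.mul_sum, ← Finset.sum_add_distrib]
    exact Finset.sum_congr rfl fun k _ => by ring
  have du : (u1 - w1) * δ = a * X2 := by
    have k1 : (u1 - w1) * δ = 2 * T1 - (l + li) * c1 := by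
      rw [hu1, hw1]; field_simp; ring
    rw [k1, hli, hT1, hc1, hc2]
    field_simp
    rw [hpdef]
    ring
  have dw : (u2 - w2) * δ = - (b * X1) := by
    have k1 : (u2 - w2) * δ = 2 * T2 - (l + li) * c2 := by
      rw [hu2, hw2]; field_simp; ring
    rw [k1, hli, hT2, hc1, hc2]
    field_simp
    rw [hpdef]
    ring
  linear_combination (-δ) * hfin2 + (dd f v₁ x) * du + (dd f v₂ x) * dw

end Pool.Agent.W628.KM
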