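import Mathlib
import Pool.Agent.W628.KM.Defs
import Pool.Agent.W628.KM.Curve

/-!
# Invariant polynomials and pairs of reflections
-/

open MvPolynomial

namespace Pool.Agent.W628.KM

variable {n : ℕ} (A : GCM n)

/-- Invariance under all simple reflections. -/
def GCM.Inv (f : MvPolynomial (Fin n) ℚ) : Prop := ∀ j, act (A.refl j) f = f

/-- The action of an invertible matrix. -/
noncomputable abbrev ac (u : (Matrix (Fin n) (Fin n) ℤ)ˣ) (f : MvPolynomial (Fin n) ℚ) :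
    MvPolynomial (Fin n) ℚ := act (u : Matrix (Fin n) (Fin n) ℤ) f

lemma ac_mul (u v : (Matrix (Fin n) (Fin n) ℤ)ˣ) (f : MvPolynomial (Fin n) ℚ) :
    ac v (ac u f) = ac (u * v) f := act_mul _ _ _

lemma ac_one (f : MvPolynomial (Fin n) ℚ) : ac (1 : (Matrix (Fin n) (Fin n) ℤ)ˣ) f = f := act_one f

lemma ac_eq_iff (u : (Matrix (Fin n) (Fin n) ℤ)ˣ) (f g : MvPolynomial (Fin n) ℚ) :
    ac u f = g ↔ f = ac u⁻¹ g := by
  constructor
  · rintro rfl
    rw [ac_mul, mul_inv_cancel, ac_one]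
  · rintro rfl
    rw [ac_mul, inv_mul_cancel, ac_one]

/-- The Weyl group. -/
def GCM.Wg : Subgroup (Matrix (Fin n) (Fin n) ℤ)ˣ := A.W Finset.univ

lemma GCM.s_mem (j : Fin n) : A.s j ∈ A.Wg :=
  Subgroup.subset_closure ⟨j, by simp, rfl⟩

lemma GCM.Inv.ac {f : MvPolynomial (Fin n) ℚ} (hf : A.Inv f) {u : (Matrix (Fin n) (Fin n) ℤ)ˣ}
    (hu : u ∈ A.Wg) : ac u f = f := by
  induction hu using Subgroup.closure_induction with
  | mem x hx => obtain ⟨j, _, rfl⟩ := hx; exact hf j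
  | one => exact ac_one f
  | mul x y _ _ hx hy => rw [← ac_mul, hx, hy]
  | inv x _ hx => rw [ac_eq_iff, inv_inv, hx]

/-- Action on integral vectors. -/
abbrev mv (u : (Matrix (Fin n) (Fin n) ℤ)ˣ) (v : Fin n → ℤ) : Fin n → ℤ :=
  (u : Matrix (Fin n) (Fin n) ℤ).mulVec v

lemma mv_mul (u w : (Matrix (Fin n) (Fin n) ℤ)ˣ) (v : Fin n → ℤ) :
    mv u (mv w v) = mv (u * w) v := by
  simp [mv, Matrix.mulVec_mulVec]

lemma mv_one (v : Fin n → ℤ) : mv 1 v = v := by simp [mv]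

lemma mv_inv_mv (u : (Matrix (Fin n) (Fin n) ℤ)ˣ) (v : Fin n → ℤ) : mv u⁻¹ (mv u v) = v := by
  rw [mv_mul, inv_mul_cancel, mv_one]

lemma mv_mv_inv (u : (Matrix (Fin n) (Fin n) ℤ)ˣ) (v : Fin n → ℤ) : mv u (mv u⁻¹ v) = v := by
  rw [mv_mul, mul_inv_cancel, mv_one]

lemma mv_sub (u : (Matrix (Fin n) (Fin n) ℤ)ˣ) (v w : Fin n → ℤ) :
    mv u (v - w) = mv u v - mv u w := Matrix.mulVec_sub _ _ _

lemma mv_smul (u : (Matrix (Fin n) (Fin n) ℤ)ˣ) (c : ℤ) (v : Fin n → ℤ) :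
    mv u (c • v) = c • mv u v := Matrix.mulVec_smul _ _ _

lemma GCM.mv_s (j : Fin n) (v : Fin n → ℤ) : mv (A.s j) v = v - A.al j v • Pi.single j 1 :=
  A.refl_mulVec j v

lemma GCM.s_inv (j : Fin n) : (A.s j)⁻¹ = A.s j := by
  rw [inv_eq_iff_mul_eq_one]
  exact Units.ext (A.refl_mul_self j)

lemma GCM.s_mul_s (j : Fin n) : A.s j * A.s j = 1 := Units.ext (A.refl_mul_self j)

/-- The row of the root attached to `(u, j)`. -/
def GCM.row (u : (Matrix (Fin n) (Fin n) ℤ)ˣ) (j : Fin n) : Fin n → ℤ :=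
  fun l => A.al j (mv u⁻¹ (Pi.single l 1))

lemma GCM.row_dot (u : (Matrix (Fin n) (Fin n) ℤ)ˣ) (j : Fin n) (v : Fin n → ℤ) :
    ∑ l, A.row u j l * v l = A.al j (mv u⁻¹ v) := by
  have h1 : ∀ l, A.row u j l =
      ∑ m, A.a m j * ((u⁻¹ : (Matrix (Fin n) (Fin n) ℤ)ˣ) : Matrix (Fin n) (Fin n) ℤ) m l := by
    intro l
    rw [GCM.row, GCM.al, mv, Matrix.mulVec_single_one]
    rfl
  simp only [h1, GCM.al, mv, Matrix.mulVec, dotProduct, Finset.sum_mul, Finset.mul_sum]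
  rw [Finset.sum_comm]
  exact Finset.sum_congr rfl fun _ _ => Finset.sum_congr rfl fun _ _ => by ring

lemma dt_int (r v : Fin n → ℤ) : dt r (fun k => (v k : ℝ)) = ((∑ l, r l * v l : ℤ) : ℝ) := by
  simp [dt]

lemma aeval_act (g : Matrix (Fin n) (Fin n) ℤ) (x : Fin n → ℝ) (f : MvPolynomial (Fin n) ℚ) :
    aeval x (act g f) = aeval (fun k => ∑ l, (g k l : ℝ) * x l) f := by
  have : (aeval x).comp (act g) = aeval (R := ℚ) (fun k => ∑ l, (g k l : ℝ) * x l) := by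
    apply MvPolynomial.algHom_ext
    intro i
    rw [AlgHom.comp_apply, act_X, aeval_X, map_sum]
    exact Finset.sum_congr rfl fun l _ => by rw [map_mul, aeval_C, aeval_X]; simp
  rw [← this]
  rfl

lemma GCM.conj_apply (u : (Matrix (Fin n) (Fin n) ℤ)ˣ) (j k l : Fin n) :
    ((u * A.s j * u⁻¹ : (Matrix (Fin n) (Fin n) ℤ)ˣ) : Matrix (Fin n) (Fin n) ℤ) k l =
      (if k = l then 1 else 0) - A.row u j l * mv u (Pi.single j 1) k := by
  have h : mv (u * A.s j * u⁻¹) (Pi.single l 1) =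
      Pi.single l 1 - A.row u j l • mv u (Pi.single j 1) := by
    rw [← mv_mul, ← mv_mul, A.mv_s, mv_sub, mv_smul, mv_mv_inv]
    rfl
  have h2 := congrFun h k
  rw [mv, Matrix.mulVec_single_one] at h2
  simp only [Pi.sub_apply, Pi.smul_apply, smul_eq_mul, Pi.single_apply, Matrix.col_apply] at h2
  exact h2

lemma GCM.Inv.rinv {f : MvPolynomial (Fin n) ℚ} (hf : A.Inv f) {u : (Matrix (Fin n) (Fin n) ℤ)ˣ}
    (hu : u ∈ A.Wg) (j : Fin n) : RInv f (A.row u j) (mv u (Pi.single j 1)) := by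
  intro x
  have h1 : Pool.Agent.W628.KM.ac (u * A.s j * u⁻¹) f = f :=
    hf.ac A (mul_mem (mul_mem hu (A.s_mem j)) (inv_mem hu))
  have h2 := congrArg (aeval x) h1
  rw [Pool.Agent.W628.KM.ac, aeval_act] at h2
  rw [← h2]
  congr 2
  funext k
  simp only [A.conj_apply, dt]
  push_cast
  simp only [sub_mul, Finset.sum_sub_distrib, Finset.sum_mul]
  simp only [ite_mul, one_mul, zero_mul, Finset.sum_ite_eq, Finset.mem_univ, if_true]
  congr 1
  exact Finset.sum_congr rfl fun _ _ => by ring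

lemma aeval_dq (f : MvPolynomial (Fin n) ℚ) (v : Fin n → ℤ) (x : Fin n → ℝ) :
    aeval x (dq f v) = dd f v x := by
  rw [dq, dd, map_sum]
  exact Finset.sum_congr rfl fun k _ => by rw [map_mul, aeval_C]; simp

lemma aeval_lf (r : Fin n → ℤ) (x : Fin n → ℝ) : aeval x (lf r) = dt r x := by
  rw [lf, dt, map_sum]
  exact Finset.sum_congr rfl fun k _ => by rw [map_mul, aeval_C, aeval_X]; simp

lemma eq_of_aeval {p q : MvPolynomial (Fin n) ℚ} (h : ∀ x : Fin n → ℝ, aeval x p = aeval x q) :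
    p = q := by
  apply MvPolynomial.funext
  intro x
  have := h (fun k => (x k : ℝ))
  have e : ∀ p : MvPolynomial (Fin n) ℚ, aeval (fun k => (x k : ℝ)) p = ((eval x p : ℚ) : ℝ) := by
    intro p
    induction p using MvPolynomial.induction_on with
    | C a => simp
    | add p q hp hq => simp [hp, hq]
    | mul_X p i hp => simp [hp]
  rw [e, e] at this
  exact_mod_cast this

lemma lf_ne_zero {r v : Fin n → ℤ} (h : ∑ l, r l * v l ≠ 0) : lf r ≠ 0 := by
  intro h0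
  have := dq_lf r v
  rw [h0] at this
  have h1 : dq (0 : MvPolynomial (Fin n) ℚ) v = 0 := by simp [dq]
  rw [h1] at this
  have h2 := (C_eq_zero.1 this.symm)
  exact h (by exact_mod_cast h2)

/-- The basic relation between the directional derivatives for two roots. -/
lemma pair_rel {d : ℕ} {f : MvPolynomial (Fin n) ℚ} (hf : f.IsHomogeneous d)
    {r₁ r₂ v₁ v₂ : Fin n → ℤ} (h1 : RInv f r₁ v₁) (h2 : RInv f r₂ v₂)
    (e11 : ∑ l, r₁ l * v₁ l = 2) (e22 : ∑ l, r₂ l * v₂ l = 2) (a b : ℤ)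
    (e12 : ∑ l, r₁ l * v₂ l = a) (e21 : ∑ l, r₂ l * v₁ l = b) (hb : 5 ≤ |b|) :
    C (b : ℚ) * lf r₁ * dq f v₂ = C (a : ℚ) * lf r₂ * dq f v₁ := by
  apply eq_of_aeval
  intro x
  rw [map_mul, map_mul, map_mul, map_mul, aeval_dq, aeval_dq, aeval_lf, aeval_lf, aeval_C, aeval_C]
  have c11 : dt r₁ (fun k => (v₁ k : ℝ)) = 2 := by rw [dt_int, e11]; norm_num
  have c22 : dt r₂ (fun k => (v₂ k : ℝ)) = 2 := by rw [dt_int, e22]; norm_num
  have c12 : dt r₁ (fun k => (v₂ k : ℝ)) = (a : ℝ) := by rw [dt_int, e12]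
  have c21 : dt r₂ (fun k => (v₁ k : ℝ)) = (b : ℝ) := by rw [dt_int, e21]
  simp only [eq_ratCast, Rat.cast_intCast]
  by_cases ha : a = 0
  · subst ha
    have := transvection h1 h2 c11 c22 (by rw [c12]; simp) x
    rw [c21] at this
    rw [this]
    simp
  · refine hyperbolic hf h1 h2 c11 c22 a b c12 c21 ?_ x
    have h5 : 5 ≤ |a * b| := by
      rw [abs_mul]
      have : 1 ≤ |a| := Int.one_le_abs ha
      nlinarith
    have : 0 < (a * b) * (a * b - 4) := by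
      rcases le_abs.1 h5 with h | h
      · nlinarith
      · nlinarith
    exact_mod_cast this

end Pool.Agent.W628.KM
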