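import Mathlib
import Pool.Agent.W628.KM.Pairs

/-!
# The structure of the invariant polynomials in indefinite type
-/

open MvPolynomial

namespace Pool.Agent.W628.KM

variable {n : ℕ} (A : GCM n)

lemma dq_neg (f : MvPolynomial (Fin n) ℚ) (v : Fin n → ℤ) : dq f (-v) = - dq f v := by
  simp [dq, Finset.sum_neg_distrib]

lemma dq_sub_smul (f : MvPolynomial (Fin n) ℚ) (v w : Fin n → ℤ) (c : ℤ) :
    dq f (v - c • w) = dq f v - C (c : ℚ) * dq f w := by
  simp only [dq, Pi.sub_apply, Pi.smul_apply, smul_eq_mul, Int.cast_sub, Int.cast_mul, map_sub,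
    map_mul, sub_mul, Finset.sum_sub_distrib, Finset.mul_sum, mul_assoc]

lemma GCM.Inv.dq_mv {A : GCM n} {f : MvPolynomial (Fin n) ℚ} (hf : A.Inv f)
    {w : (Matrix (Fin n) (Fin n) ℤ)ˣ} (hw : w ∈ A.Wg) (v : Fin n → ℤ) :
    dq f (mv w v) = Pool.Agent.W628.KM.ac w⁻¹ (dq f v) := by
  rw [← ac_eq_iff, Pool.Agent.W628.KM.ac, ← dq_act]
  congr 1
  exact hf.ac A hw

lemma GCM.root_ne_zero (j : Fin n) : A.root j ≠ 0 := by
  refine lf_ne_zero (v := Pi.single j 1) ?_
  have := A.al_single j j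
  rw [GCM.al, A.diag] at this
  rw [this]
  norm_num

lemma GCM.act_refl_root (j : Fin n) : act (A.refl j) (A.root j) = - A.root j := by
  have h : A.root j - act (A.refl j) (A.root j) = C 2 * A.root j := by
    conv_lhs => rw [GCM.root, lf, map_sum, ← Finset.sum_sub_distrib]
    have : ∀ l, C ((A.a l j : ℤ) : ℚ) * X l - act (A.refl j) (C ((A.a l j : ℤ) : ℚ) * X l) =
        C (if l = j then (A.a l j : ℚ) else 0) * A.root j := by
      intro l
      rw [map_mul, act_C, A.act_refl_X]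
      split_ifs with h
      · rw [C_1]; ring
      · rw [C_0]; ring
    rw [Finset.sum_congr rfl fun l _ => this l, ← Finset.sum_mul, ← map_sum, Finset.sum_ite_eq',
      if_pos (Finset.mem_univ _), A.diag]
    norm_num
  have h2 : act (A.refl j) (A.root j) = A.root j - C 2 * A.root j := by rw [← h]; ring
  rw [h2]
  have : (C 2 : MvPolynomial (Fin n) ℚ) = 2 := rfl
  rw [this]
  ring

lemma GCM.Inv.pderiv_anti {f : MvPolynomial (Fin n) ℚ} (hf : A.Inv f) (j : Fin n) :
    act (A.refl j) (pderiv j f) = - pderiv j f := by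
  have h := hf.dq_mv (A.s_mem j) (Pi.single j 1)
  rw [A.mv_s, A.al_single, A.diag, dq_sub_smul, dq_single, A.s_inv] at h
  have h2 : act (A.refl j) (pderiv j f) = pderiv j f - C ((2 : ℤ) : ℚ) * pderiv j f := h.symm
  rw [h2]
  have : (C ((2 : ℤ) : ℚ) : MvPolynomial (Fin n) ℚ) = 2 := by norm_num; rfl
  rw [this]
  ring

lemma GCM.Inv.exists_quot {f : MvPolynomial (Fin n) ℚ} (hf : A.Inv f) (j : Fin n) :
    ∃ g, pderiv j f = A.root j * g := by
  obtain ⟨g, hg⟩ := A.root_dvd j (pderiv j f)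
  rw [hf.pderiv_anti A j] at hg
  refine ⟨C (1/2) * g, ?_⟩
  have h1 : pderiv j f = C (1/2) * (pderiv j f - -pderiv j f) := by
    have : (pderiv j f - -pderiv j f) = C 2 * pderiv j f := by
      have : (C 2 : MvPolynomial (Fin n) ℚ) = 2 := rfl
      rw [this]; ring
    rw [this, ← mul_assoc, ← C_mul]
    norm_num
  rw [h1, hg]
  ring

/-- An invariant polynomial of degree `d` with its quotients. -/
structure GCM.Dat (d : ℕ) where
  f : MvPolynomial (Fin n) ℚ
  g : Fin n → MvPolynomial (Fin n) ℚ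
  hom : f.IsHomogeneous d
  inv : A.Inv f
  quot : ∀ j, pderiv j f = A.root j * g j

variable {A}

lemma GCM.Dat.g_refl {d : ℕ} (D : A.Dat d) (j : Fin n) : act (A.refl j) (D.g j) = D.g j := by
  have h := D.inv.pderiv_anti A j
  rw [D.quot, map_mul, A.act_refl_root] at h
  have h2 : A.root j * act (A.refl j) (D.g j) = A.root j * D.g j := by
    linear_combination -h
  exact mul_left_cancel₀ (A.root_ne_zero j) h2

lemma GCM.lf_row (u : (Matrix (Fin n) (Fin n) ℤ)ˣ) (j : Fin n) :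
    lf (A.row u j) = ac u⁻¹ (A.root j) := by
  rw [ac, GCM.root, act_lf]
  congr 1
  funext l
  rw [GCM.row, GCM.al, mv, Matrix.mulVec_single_one]
  rfl

lemma GCM.Dat.pair {d : ℕ} (D : A.Dat d) {w : (Matrix (Fin n) (Fin n) ℤ)ˣ} (hw : w ∈ A.Wg)
    (i j : Fin n) (hb : 5 ≤ |A.al j (mv w⁻¹ (Pi.single i 1))|) :
    C (A.al j (mv w⁻¹ (Pi.single i 1)) : ℚ) * ac w⁻¹ (D.g j) =
      C (A.al i (mv w (Pi.single j 1)) : ℚ) * D.g i := by
  have h := pair_rel D.hom (D.inv.rinv A (one_mem A.Wg) i) (D.inv.rinv A hw j)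
    (by rw [A.row_dot, mv_inv_mv, A.al_single, A.diag])
    (by rw [A.row_dot, mv_inv_mv, A.al_single, A.diag])
    (A.al i (mv w (Pi.single j 1))) (A.al j (mv w⁻¹ (Pi.single i 1)))
    (by rw [A.row_dot, inv_one, mv_one]) (by rw [A.row_dot, mv_one]) hb
  rw [D.inv.dq_mv (one_mem _), D.inv.dq_mv hw, dq_single, dq_single, D.quot, D.quot, A.lf_row,
    A.lf_row, inv_one, ac_one, ac_one, ac, ac, map_mul] at h
  have h1 : A.root i ≠ 0 := A.root_ne_zero i
  have h2 : act (w⁻¹ : (Matrix (Fin n) (Fin n) ℤ)ˣ) (A.root j) ≠ 0 := by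
    rw [← ac, ← A.lf_row]
    refine lf_ne_zero (v := mv w (Pi.single j 1)) ?_
    rw [A.row_dot, mv_inv_mv, A.al_single, A.diag]
    norm_num
  apply mul_left_cancel₀ (mul_ne_zero h1 h2)
  linear_combination h

lemma eq_zero_of_pderiv {d : ℕ} {f : MvPolynomial (Fin n) ℚ} (hf : f.IsHomogeneous (d + 1))
    (h : ∀ j, pderiv j f = 0) : f = 0 := by
  have := hf.sum_X_mul_pderiv
  simp only [h, mul_zero, Finset.sum_const_zero] at this
  rw [nsmul_eq_mul] at this
  rcases mul_eq_zero.1 this.symm with h1 | h1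
  · exact absurd h1 (by exact_mod_cast Nat.succ_ne_zero d)
  · exact h1

lemma GCM.Inv.pderiv_ne_zero (hA : A.Indecomposable) {d : ℕ} {f : MvPolynomial (Fin n) ℚ}
    (hf : A.Inv f) (hom : f.IsHomogeneous (d + 1)) (h0 : f ≠ 0) (j : Fin n) : pderiv j f ≠ 0 := by
  classical
  intro hj
  apply h0
  refine eq_zero_of_pderiv hom ?_
  let Z : Finset (Fin n) := Finset.univ.filter fun j => pderiv j f = 0
  by_contra hne
  have hZ : Z ≠ Finset.univ := by
    intro h
    apply hne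
    intro k
    have : k ∈ Z := h ▸ Finset.mem_univ k
    exact (Finset.mem_filter.1 this).2
  obtain ⟨i, hi, k, hk, hik⟩ := hA Z ⟨j, by simp [Z, hj]⟩ hZ
  have hi' : pderiv i f = 0 := (Finset.mem_filter.1 hi).2
  apply hk
  have h := hf.dq_mv (A.s_mem k) (Pi.single i 1)
  have hz : Pool.Agent.W628.KM.ac (A.s k)⁻¹ (0 : MvPolynomial (Fin n) ℚ) = 0 := by
    rw [Pool.Agent.W628.KM.ac, map_zero]
  rw [A.mv_s, A.al_single, dq_sub_smul, dq_single, dq_single, hi', hz, zero_sub,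
    neg_eq_zero] at h
  rcases mul_eq_zero.1 h with h1 | h1
  · exact absurd (C_eq_zero.1 h1) (by exact_mod_cast hik)
  · simp [Z, h1]

lemma GCM.Dat.g_ne_zero (hA : A.Indecomposable) {d : ℕ} (D : A.Dat (d + 1)) (h0 : D.f ≠ 0)
    (j : Fin n) : D.g j ≠ 0 := by
  intro h
  apply D.inv.pderiv_ne_zero hA D.hom h0 j
  rw [D.quot, h, mul_zero]

/-! ### Large pairings -/

lemma GCM.exists_high (hn : 0 < n) (hA : A.Indefinite) (N : ℕ) :
    ∃ w ∈ A.Wg, ∃ i, (∀ k, 0 ≤ mv w (Pi.single i 1) k) ∧ (N : ℤ) < ∑ k, mv w (Pi.single i 1) k := by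
  obtain ⟨u, hu, hAu⟩ := hA
  induction N with
  | zero =>
    refine ⟨1, one_mem _, ⟨0, hn⟩, ?_, ?_⟩
    · intro k
      rw [mv_one, Pi.single_apply]
      split_ifs <;> norm_num
    · rw [mv_one, Finset.sum_pi_single']
      simp
  | succ N ih =>
    obtain ⟨w, hw, i, hpos, hN⟩ := ih
    set c := mv w (Pi.single i 1) with hc
    have key : ∃ j, A.al j c < 0 := by
      by_contra hcon
      push Not at hcon
      have h1 : 0 ≤ ∑ j, (A.al j c : ℝ) * u j :=
        Finset.sum_nonneg fun j _ => mul_nonneg (by exact_mod_cast hcon j) (hu j).le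
      have h2 : ∑ j, (A.al j c : ℝ) * u j = ∑ k, (c k : ℝ) * ∑ j, (A.a k j : ℝ) * u j := by
        simp only [GCM.al, Int.cast_sum, Int.cast_mul, Finset.sum_mul, Finset.mul_sum]
        rw [Finset.sum_comm]
        exact Finset.sum_congr rfl fun _ _ => Finset.sum_congr rfl fun _ _ => by ring
      obtain ⟨k, hk⟩ : ∃ k, 0 < c k := by
        by_contra h
        push Not at h
        have : ∑ k, c k ≤ 0 := Finset.sum_nonpos fun k _ => h k
        have h3 : (0 : ℤ) ≤ N := Int.natCast_nonneg N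
        linarith
      have h3 : ∑ k, (c k : ℝ) * ∑ j, (A.a k j : ℝ) * u j < 0 := by
        have hle : ∀ k ∈ Finset.univ, (c k : ℝ) * ∑ j, (A.a k j : ℝ) * u j ≤ 0 := fun k _ =>
          mul_nonpos_of_nonneg_of_nonpos (by exact_mod_cast hpos k) (hAu k).le
        have hlt : ∃ k ∈ Finset.univ, (c k : ℝ) * ∑ j, (A.a k j : ℝ) * u j < 0 :=
          ⟨k, Finset.mem_univ k, mul_neg_of_pos_of_neg (by exact_mod_cast hk) (hAu k)⟩
        calc _ < ∑ k : Fin n, (0 : ℝ) := Finset.sum_lt_sum hle hlt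
          _ = 0 := by simp
      rw [h2] at h1
      linarith
    obtain ⟨j, hj⟩ := key
    refine ⟨A.s j * w, mul_mem (A.s_mem j) hw, i, ?_, ?_⟩
    · intro k
      rw [← mv_mul, ← hc, A.mv_s, Pi.sub_apply, Pi.smul_apply, smul_eq_mul, Pi.single_apply]
      have := hpos k
      split_ifs <;> nlinarith
    · rw [← mv_mul, ← hc, A.mv_s]
      simp only [Pi.sub_apply, Pi.smul_apply, smul_eq_mul, Finset.sum_sub_distrib]
      rw [← Finset.mul_sum, Finset.sum_pi_single']
      simp only [Finset.mem_univ, if_true]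
      push_cast
      linarith

lemma GCM.exists_large (hn : 0 < n) (hA : A.Indefinite) :
    ∃ w ∈ A.Wg, ∃ i j, 5 ≤ |A.al j (mv w (Pi.single i 1))| := by
  have hA' := hA
  obtain ⟨u, hu, hAu⟩ := hA'
  have : Nonempty (Fin n) := ⟨⟨0, hn⟩⟩
  obtain ⟨k0, hk0⟩ := Finite.exists_min (fun k => - ∑ j, (A.a k j : ℝ) * u j)
  set κ := - ∑ j, (A.a k0 j : ℝ) * u j with hκ
  have hκ0 : 0 < κ := by rw [hκ]; linarith [hAu k0]
  obtain ⟨N, hN⟩ := exists_nat_gt (4 * (∑ j, u j) / κ)
  obtain ⟨w, hw, i, hpos, hh⟩ := A.exists_high hn hA N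
  set c := mv w (Pi.single i 1) with hc
  refine ⟨w, hw, i, ?_⟩
  by_contra hcon
  push Not at hcon
  have hb : ∀ j, (-4 : ℝ) ≤ A.al j c := by
    intro j
    have := hcon j
    rw [← hc, abs_lt] at this
    have h : -4 ≤ A.al j c := by omega
    exact_mod_cast h
  have h1 : -4 * ∑ j, u j ≤ ∑ j, (A.al j c : ℝ) * u j := by
    rw [Finset.mul_sum]
    exact Finset.sum_le_sum fun j _ => mul_le_mul_of_nonneg_right (hb j) (hu j).le
  have h2 : ∑ j, (A.al j c : ℝ) * u j = ∑ k, (c k : ℝ) * ∑ j, (A.a k j : ℝ) * u j := by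
    simp only [GCM.al, Int.cast_sum, Int.cast_mul, Finset.sum_mul, Finset.mul_sum]
    rw [Finset.sum_comm]
    exact Finset.sum_congr rfl fun _ _ => Finset.sum_congr rfl fun _ _ => by ring
  have h3 : ∑ k, (c k : ℝ) * ∑ j, (A.a k j : ℝ) * u j ≤ ∑ k, (c k : ℝ) * (-κ) := by
    refine Finset.sum_le_sum fun k _ => mul_le_mul_of_nonneg_left ?_ (by exact_mod_cast hpos k)
    have := hk0 k
    linarith
  have h4 : ∑ k, (c k : ℝ) * (-κ) = - κ * ((∑ k, c k : ℤ) : ℝ) := by
    rw [← Finset.sum_mul]; push_cast; ring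
  have h5 : (N : ℝ) < ((∑ k, c k : ℤ) : ℝ) := by exact_mod_cast hh
  rw [div_lt_iff₀ hκ0] at hN
  nlinarith

/-! ### Unbounded linear recurrences -/

lemma rec_grow (c : ℕ → ℤ) (k : ℤ) (hk : 3 ≤ |k|) (hc : ∀ m, c (m + 2) = k * c (m + 1) - c m)
    (h0 : |c 0| ≤ |c 1|) (h1 : c 1 ≠ 0) (m : ℕ) : |c m| ≤ |c (m + 1)| ∧ (m : ℤ) + 1 ≤ |c (m + 1)| := by
  induction m with
  | zero => exact ⟨h0, by have := Int.one_le_abs h1; simpa using this⟩
  | succ m ih =>
    obtain ⟨ih1, ih2⟩ := ih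
    have h2 : |k * c (m + 1)| - |c m| ≤ |c (m + 2)| := by
      rw [hc]
      exact abs_sub_abs_le_abs_sub _ _
    rw [abs_mul] at h2
    have h3 : 3 * |c (m + 1)| ≤ |k| * |c (m + 1)| :=
      mul_le_mul_of_nonneg_right hk (abs_nonneg _)
    have h4 : 0 ≤ |c (m + 1)| := abs_nonneg _
    have hm : (0 : ℤ) ≤ m := Int.natCast_nonneg m
    constructor
    · linarith
    · push_cast; linarith

lemma rec_unbounded (k : ℤ) (hk : 3 ≤ |k|) (N : ℕ) : ∀ (c : ℕ → ℤ),
    (∀ m, c (m + 2) = k * c (m + 1) - c m) → ¬ (c 0 = 0 ∧ c 1 = 0) → (c 0).natAbs ≤ N →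
    ∃ m, 5 ≤ |c m| := by
  induction N with
  | zero =>
    intro c hc h0 hN
    have hc0 : c 0 = 0 := by simpa using hN
    have hc1 : c 1 ≠ 0 := fun h => h0 ⟨hc0, h⟩
    have := rec_grow c k hk hc (by rw [hc0]; simp) hc1 4
    exact ⟨5, by have := this.2; norm_num at this; exact this⟩
  | succ N ih =>
    intro c hc h0 hN
    by_cases h : |c 0| ≤ |c 1|
    · by_cases hc1 : c 1 = 0
      · rw [hc1] at h
        simp at h
        exact absurd ⟨h, hc1⟩ h0
      · have := rec_grow c k hk hc h hc1 4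
        exact ⟨5, by have := this.2; norm_num at this; exact this⟩
    · have hlt : |c 1| < |c 0| := not_le.1 h
      obtain ⟨m, hm⟩ := ih (fun m => c (m + 1)) (fun m => hc (m + 1)) (by
        rintro ⟨h1, h2⟩
        have h3 := hc 0
        simp only [zero_add] at h1 h2 h3
        have : c (1 + 1) = 0 := h2
        rw [h1] at hlt h3
        have h4 : c 0 = 0 := by
          have : c 2 = 0 := h2
          rw [this] at h3
          linarith
        rw [h4] at hlt
        simp at hlt) (by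
        have : (c 1).natAbs < (c 0).natAbs := by
          rw [Int.abs_eq_natAbs, Int.abs_eq_natAbs] at hlt
          exact_mod_cast hlt
        change (c (0 + 1)).natAbs ≤ N
        rw [zero_add]
        omega)
      exact ⟨m + 1, hm⟩

end Pool.Agent.W628.KM
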