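import Mathlib
import Pool.Agent.W628.KM.Struct

/-!
# The ring of invariants in indefinite type is generated by at most one quadratic form
-/

open MvPolynomial

namespace Pool.Agent.W628.KM

variable {n : ℕ} {A : GCM n}

lemma mv_conj (w : (Matrix (Fin n) (Fin n) ℤ)ˣ) (j : Fin n) (x : Fin n → ℤ) :
    mv (w * A.s j * w⁻¹) x = x - A.al j (mv w⁻¹ x) • mv w (Pi.single j 1) := by
  rw [← mv_mul, ← mv_mul, A.mv_s, mv_sub, mv_smul, mv_mv_inv]

lemma ac_inj (u : (Matrix (Fin n) (Fin n) ℤ)ˣ) {f g : MvPolynomial (Fin n) ℚ}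
    (h : ac u f = ac u g) : f = g := by
  rw [ac_eq_iff, ac_mul, mul_inv_cancel, ac_one] at h
  exact h

lemma ac_C_mul (u : (Matrix (Fin n) (Fin n) ℤ)ˣ) (c : ℚ) (f : MvPolynomial (Fin n) ℚ) :
    ac u (C c * f) = C c * ac u f := by
  rw [ac, map_mul, act_C]

theorem GCM.Dat.all_prop (hn : 0 < n) (hind : A.Indecomposable) (hdef : A.Indefinite) {d : ℕ}
    (D : A.Dat (d + 1)) (h0 : D.f ≠ 0) :
    ∃ i, ∀ k, ∃ ε : ℚ, ε ≠ 0 ∧ D.g k = C ε * D.g i := by
  classical
  obtain ⟨w', hw', i, j, hb⟩ := A.exists_large hn hdef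
  obtain ⟨w, rfl⟩ : ∃ w, w' = w⁻¹ := ⟨w'⁻¹, (inv_inv _).symm⟩
  have hw : w ∈ A.Wg := by simpa using inv_mem hw'
  refine ⟨i, ?_⟩
  have hg := D.g_ne_zero hind h0
  set v₂ := mv w (Pi.single j 1) with hv₂
  have hp := D.pair hw i j hb
  set b := A.al j (mv w⁻¹ (Pi.single i 1)) with hbdef
  set a := A.al i v₂ with hadef
  set G := D.g i with hG
  have hb0 : b ≠ 0 := by
    intro h; rw [h] at hb; norm_num at hb
  have hbq : (b : ℚ) ≠ 0 := by exact_mod_cast hb0
  have ha0 : a ≠ 0 := by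
    intro h
    rw [h, Int.cast_zero, C_0, zero_mul] at hp
    rcases mul_eq_zero.1 hp with h1 | h1
    · exact hbq (C_eq_zero.1 h1)
    · apply hg j
      refine ac_inj w⁻¹ ?_
      rw [h1, ac, map_zero]
  have haq : (a : ℚ) ≠ 0 := by exact_mod_cast ha0
  have hCa : (C (a : ℚ) : MvPolynomial (Fin n) ℚ) ≠ 0 := fun h => haq (C_eq_zero.1 h)
  -- invariance of `G`
  have hG1 : ac (A.s i) G = G := D.g_refl i
  have hG2 : ac (w * A.s j * w⁻¹) G = G := by
    have h1 := congrArg (ac (w * A.s j * w⁻¹)) hp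
    rw [ac_C_mul, ac_C_mul, ac_mul] at h1
    have h2 : w⁻¹ * (w * A.s j * w⁻¹) = A.s j * w⁻¹ := by group
    rw [h2, ← ac_mul] at h1
    have h3 : ac (A.s j) (D.g j) = D.g j := D.g_refl j
    rw [h3, hp] at h1
    exact (mul_left_cancel₀ hCa h1).symm
  set t := A.s i * (w * A.s j * w⁻¹) with ht
  have htW : t ∈ A.Wg := mul_mem (A.s_mem i) (mul_mem (mul_mem hw (A.s_mem j)) hw')
  have hGt : ac t G = G := by rw [ht, ← ac_mul, hG1, hG2]
  have hGtm : ∀ m : ℕ, ac (t ^ m) G = G := by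
    intro m
    induction m with
    | zero => rw [pow_zero, ac_one]
    | succ m ih => rw [pow_succ, ← ac_mul, ih, hGt]
  -- the recursion
  have te1 : mv t (Pi.single i 1) = (a * b - 1) • Pi.single i 1 - b • v₂ := by
    rw [ht, ← mv_mul, mv_conj, ← hbdef, ← hv₂, A.mv_s, A.al_sub, A.al_smul, A.al_single, A.diag,
      ← hadef]
    module
  have te2 : mv t v₂ = a • Pi.single i 1 - v₂ := by
    rw [ht, ← mv_mul, mv_conj, ← hv₂]
    have : A.al j (mv w⁻¹ v₂) = 2 := by rw [hv₂, mv_inv_mv, A.al_single, A.diag]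
    rw [this, A.mv_s, A.al_sub, A.al_smul, ← hadef]
    module
  have te3 : mv t (mv t (Pi.single i 1)) = (a * b - 2) • mv t (Pi.single i 1) - Pi.single i 1 := by
    conv_lhs => rw [te1, mv_sub, mv_smul, mv_smul, te2]
    rw [te1]
    module
  have hk3 : 3 ≤ |a * b - 2| := by
    have h1 : 5 ≤ |a * b| := by
      rw [abs_mul]
      have : 1 ≤ |a| := Int.one_le_abs ha0
      nlinarith
    have h2 : |a * b| ≤ |a * b - 2| + |2| := by
      have := abs_add_le (a * b - 2) 2
      simpa using this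
    have h3 : |(2 : ℤ)| = 2 := rfl
    omega
  -- the main claim
  have claim : ∀ u ∈ A.Wg, ac u G = G → ∀ k,
      (A.al k (mv u⁻¹ (Pi.single i 1)) ≠ 0 ∨ A.al k (mv u⁻¹ v₂) ≠ 0) →
      ∃ ε : ℚ, ε ≠ 0 ∧ D.g k = C ε * G := by
    intro u hu huG k hk
    obtain ⟨m, hm⟩ := rec_unbounded (a * b - 2) hk3
      (A.al k (mv u⁻¹ (mv (t ^ 0) (Pi.single i 1)))).natAbs
      (fun m => A.al k (mv u⁻¹ (mv (t ^ m) (Pi.single i 1)))) (by
        intro m
        beta_reduce
        have e : mv (t ^ (m + 2)) (Pi.single i 1) = (a * b - 2) • mv (t ^ (m + 1)) (Pi.single i 1) -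
            mv (t ^ m) (Pi.single i 1) := by
          have e1 : t ^ (m + 2) = t ^ m * t * t := by group
          have e2 : t ^ (m + 1) = t ^ m * t := by group
          rw [e1, e2, ← mv_mul, ← mv_mul, te3, mv_sub, mv_smul, mv_mul (t ^ m) t]
        rw [e, mv_sub, mv_smul, A.al_sub, A.al_smul]) (by
        beta_reduce
        rw [pow_zero, pow_one, mv_one, te1, mv_sub, mv_smul, mv_smul, A.al_sub, A.al_smul,
          A.al_smul]
        rintro ⟨h1, h2⟩
        rw [h1, mul_zero, zero_sub, neg_eq_zero] at h2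
        rcases mul_eq_zero.1 h2 with h3 | h3
        · exact hb0 h3
        · rcases hk with h | h
          · exact h h1
          · exact h h3) le_rfl
    beta_reduce at hm
    set cm := A.al k (mv u⁻¹ (mv (t ^ m) (Pi.single i 1))) with hcm
    have hcm0 : cm ≠ 0 := by
      intro h; rw [h] at hm; norm_num at hm
    have hcmq : (cm : ℚ) ≠ 0 := by exact_mod_cast hcm0
    have hCc : (C (cm : ℚ) : MvPolynomial (Fin n) ℚ) ≠ 0 := fun h => hcmq (C_eq_zero.1 h)
    have hw2 : (t ^ m)⁻¹ * u ∈ A.Wg := mul_mem (inv_mem (pow_mem htW m)) hu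
    have hinv : ((t ^ m)⁻¹ * u)⁻¹ = u⁻¹ * t ^ m := by group
    have hpr := D.pair hw2 i k (by rw [hinv, ← mv_mul]; exact hm)
    rw [hinv, ← mv_mul, ← hcm, ← ac_mul, ← hG] at hpr
    set a' := A.al i (mv ((t ^ m)⁻¹ * u) (Pi.single k 1)) with ha'
    have h1 : ac (t ^ m) (C (cm : ℚ) * ac u⁻¹ (D.g k)) = ac (t ^ m) (C (a' : ℚ) * G) := by
      rw [ac_C_mul, ac_C_mul, hpr, hGtm]
    have h2 := ac_inj _ h1
    have h3 : C (cm : ℚ) * D.g k = C (a' : ℚ) * G := by
      have := congrArg (ac u) h2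
      rw [ac_C_mul, ac_C_mul, ac_mul, inv_mul_cancel, ac_one, huG] at this
      exact this
    refine ⟨(a' : ℚ) / cm, ?_, ?_⟩
    · intro h
      have ha0' : (a' : ℚ) = 0 := by
        rcases div_eq_zero_iff.1 h with h | h
        · exact h
        · exact absurd h hcmq
      rw [ha0', C_0, zero_mul] at h3
      rcases mul_eq_zero.1 h3 with h4 | h4
      · exact hCc h4
      · exact hg k h4
    · apply mul_left_cancel₀ hCc
      rw [h3, ← mul_assoc, ← C_mul]
      congr 2
      field_simp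
  -- closure under adjacency
  let J : Finset (Fin n) := Finset.univ.filter fun k => ∃ u ∈ A.Wg, ac u G = G ∧
      (A.al k (mv u⁻¹ (Pi.single i 1)) ≠ 0 ∨ A.al k (mv u⁻¹ v₂) ≠ 0)
  have hJ : J = Finset.univ := by
    by_contra hne
    have hi : i ∈ J := by
      refine Finset.mem_filter.2 ⟨Finset.mem_univ _, 1, one_mem _, ac_one _, Or.inl ?_⟩
      rw [inv_one, mv_one, A.al_single, A.diag]
      norm_num
    obtain ⟨k, hk, l, hl, hkl⟩ := hind J ⟨i, hi⟩ hne
    obtain ⟨-, u, hu, huG, hor⟩ := Finset.mem_filter.1 hk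
    obtain ⟨ε, hε, hgk⟩ := claim u hu huG k hor
    have hsk : ac (A.s k) G = G := by
      have h1 : ac (A.s k) (D.g k) = D.g k := D.g_refl k
      rw [hgk, ac_C_mul] at h1
      exact mul_left_cancel₀ (fun h => hε (C_eq_zero.1 h)) h1
    apply hl
    have key : ∀ x, A.al k (mv u⁻¹ x) ≠ 0 → A.al l (mv u⁻¹ x) ≠ 0 ∨
        A.al l (mv (u * A.s k)⁻¹ x) ≠ 0 := by
      intro x hx
      by_contra hcon
      push Not at hcon
      obtain ⟨h1, h2⟩ := hcon
      rw [mul_inv_rev, A.s_inv, ← mv_mul, A.mv_s, A.al_sub, A.al_smul, h1, A.al_single, zero_sub,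
        neg_eq_zero] at h2
      rcases mul_eq_zero.1 h2 with h3 | h3
      · exact hx h3
      · exact hkl h3
    have hus : ac (u * A.s k) G = G := by rw [← ac_mul, huG, hsk]
    have huW : u * A.s k ∈ A.Wg := mul_mem hu (A.s_mem k)
    refine Finset.mem_filter.2 ⟨Finset.mem_univ _, ?_⟩
    rcases hor with h | h
    · rcases key _ h with h1 | h1
      · exact ⟨u, hu, huG, Or.inl h1⟩
      · exact ⟨_, huW, hus, Or.inl h1⟩
    · rcases key _ h with h1 | h1
      · exact ⟨u, hu, huG, Or.inr h1⟩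
      · exact ⟨_, huW, hus, Or.inr h1⟩
  intro k
  have hk : k ∈ J := hJ ▸ Finset.mem_univ k
  obtain ⟨-, u, hu, huG, hor⟩ := Finset.mem_filter.1 hk
  exact claim u hu huG k hor

lemma homogeneousComponent_mul_left {i m : ℕ} {a : MvPolynomial (Fin n) ℚ} (ha : a.IsHomogeneous i)
    (b : MvPolynomial (Fin n) ℚ) :
    homogeneousComponent m (a * b) =
      if i ≤ m then a * homogeneousComponent (m - i) b else 0 := by
  conv_lhs => rw [← sum_homogeneousComponent b, Finset.mul_sum, map_sum]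
  have h1 : ∀ k, homogeneousComponent m (a * homogeneousComponent k b) =
      if i + k = m then a * homogeneousComponent k b else 0 := by
    intro k
    have := (ha.mul (homogeneousComponent_isHomogeneous k b))
    rw [homogeneousComponent_of_mem ((mem_homogeneousSubmodule _ _).2 this)]
    simp only [eq_comm]
  rw [Finset.sum_congr rfl fun k _ => h1 k]
  split_ifs with him
  · by_cases hk : m - i ∈ Finset.range (b.totalDegree + 1)
    · rw [Finset.sum_eq_single_of_mem _ hk, if_pos (by omega)]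
      intro k _ hne
      rw [if_neg (by omega)]
    · rw [Finset.sum_eq_zero, homogeneousComponent_eq_zero, mul_zero]
      · rw [Finset.mem_range] at hk; omega
      · intro k hk'
        rw [if_neg]
        rintro h
        apply hk
        have : m - i = k := by omega
        rw [this]; exact hk'
  · refine Finset.sum_eq_zero fun k _ => ?_
    rw [if_neg (by omega)]

lemma lf_homog (r : Fin n → ℤ) : (lf r).IsHomogeneous 1 :=
  IsHomogeneous.sum _ _ _ fun _ _ => isHomogeneous_C_mul_X _ _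

lemma GCM.root_homog (j : Fin n) : (A.root j).IsHomogeneous 1 := lf_homog _

lemma pderiv_homog {d : ℕ} {f : MvPolynomial (Fin n) ℚ} (hf : f.IsHomogeneous (d + 1)) (k : Fin n) :
    (pderiv k f).IsHomogeneous d := by
  have := hf.pderiv (i := k)
  simpa using this

lemma GCM.Dat.g_homog (hind : A.Indecomposable) {d : ℕ} (D : A.Dat (d + 1)) (h0 : D.f ≠ 0)
    (k : Fin n) : ∃ m, d = m + 1 ∧ (D.g k).IsHomogeneous m := by
  have h1 := pderiv_homog D.hom k
  have h2 : homogeneousComponent d (pderiv k D.f) = pderiv k D.f :=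
    homogeneousComponent_eq_self h1
  rw [D.quot, homogeneousComponent_mul_left (GCM.root_homog k)] at h2
  split_ifs at h2 with hd
  · obtain ⟨m, rfl⟩ : ∃ m, d = m + 1 := ⟨d - 1, by omega⟩
    refine ⟨m, rfl, ?_⟩
    have h3 := mul_left_cancel₀ (A.root_ne_zero k) h2
    rw [← h3]
    simpa using homogeneousComponent_isHomogeneous m (D.g k)
  · exact absurd h2.symm (mul_ne_zero (A.root_ne_zero k) (D.g_ne_zero hind h0 k))

/-- The descent step. -/
theorem descent (hn : 0 < n) (hind : A.Indecomposable) (hdef : A.Indefinite) {d : ℕ}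
    {f : MvPolynomial (Fin n) ℚ} (hom : f.IsHomogeneous (d + 1)) (hf : A.Inv f) (h0 : f ≠ 0) :
    ∃ m, d = m + 1 ∧ ∃ G : MvPolynomial (Fin n) ℚ, G ≠ 0 ∧ G.IsHomogeneous m ∧ A.Inv G ∧
      ∀ k, ∃ ε : ℚ, ε ≠ 0 ∧ pderiv k f = C ε * A.root k * G := by
  choose g hg using fun j => hf.exists_quot A j
  let D : A.Dat (d + 1) := ⟨f, g, hom, hf, hg⟩
  obtain ⟨i, hi⟩ := D.all_prop hn hind hdef h0
  obtain ⟨m, rfl, hm⟩ := D.g_homog hind h0 i
  refine ⟨m, rfl, D.g i, D.g_ne_zero hind h0 i, hm, fun j => ?_, fun k => ?_⟩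
  · obtain ⟨ε, hε, hj⟩ := hi j
    have h1 := D.g_refl j
    rw [hj, map_mul, act_C] at h1
    exact mul_left_cancel₀ (fun h => hε (C_eq_zero.1 h)) h1
  · obtain ⟨ε, hε, hk⟩ := hi k
    refine ⟨ε, hε, ?_⟩
    have := D.quot k
    rw [hk] at this
    change pderiv k f = _ at this
    rw [this]
    ring

lemma GCM.Inv.mul {f g : MvPolynomial (Fin n) ℚ} (hf : A.Inv f) (hg : A.Inv g) : A.Inv (f * g) :=
  fun j => by rw [map_mul, hf j, hg j]

lemma GCM.Inv.pow {f : MvPolynomial (Fin n) ℚ} (hf : A.Inv f) (k : ℕ) : A.Inv (f ^ k) :=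
  fun j => by rw [map_pow, hf j]

lemma GCM.Inv.sub {f g : MvPolynomial (Fin n) ℚ} (hf : A.Inv f) (hg : A.Inv g) : A.Inv (f - g) :=
  fun j => by rw [map_sub, hf j, hg j]

lemma GCM.Inv.C (c : ℚ) : A.Inv (MvPolynomial.C c) := fun _ => act_C _ _

/-- The invariants of an indecomposable generalized Cartan matrix of indefinite type: there are
none in positive degree, or they are generated by a quadratic form. -/
theorem invariants (hn : 0 < n) (hind : A.Indecomposable) (hdef : A.Indefinite) :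
    (∀ d, ∀ f : MvPolynomial (Fin n) ℚ, f.IsHomogeneous (d + 1) → A.Inv f → f = 0) ∨
    ∃ ψ : MvPolynomial (Fin n) ℚ, ψ ≠ 0 ∧ ψ.IsHomogeneous 2 ∧ A.Inv ψ ∧
      ∀ d, ∀ f : MvPolynomial (Fin n) ℚ, f.IsHomogeneous (d + 1) → A.Inv f →
        ∃ m, ∃ g : MvPolynomial (Fin n) ℚ, g.IsHomogeneous m ∧ A.Inv g ∧ f = ψ * g := by
  have hodd : ∀ k, ∀ f : MvPolynomial (Fin n) ℚ, f.IsHomogeneous (2 * k + 1) → A.Inv f → f = 0 := by
    intro k
    induction k with
    | zero =>
      intro f hom hf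
      by_contra h0
      obtain ⟨m, hm, -⟩ := descent hn hind hdef hom hf h0
      omega
    | succ k ih =>
      intro f hom hf
      by_contra h0
      obtain ⟨m, hm, G, hG0, hG, hGi, -⟩ := descent hn hind hdef (d := 2 * k + 2) hom hf h0
      obtain rfl : m = 2 * k + 1 := by omega
      exact hG0 (ih G hG hGi)
  by_cases h2 : ∀ f : MvPolynomial (Fin n) ℚ, f.IsHomogeneous 2 → A.Inv f → f = 0
  · left
    have heven : ∀ k, ∀ f : MvPolynomial (Fin n) ℚ, f.IsHomogeneous (2 * k + 2) → A.Inv f →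
        f = 0 := by
      intro k
      induction k with
      | zero => exact h2
      | succ k ih =>
        intro f hom hf
        by_contra h0
        obtain ⟨m, hm, G, hG0, hG, hGi, -⟩ := descent hn hind hdef (d := 2 * k + 3) hom hf h0
        obtain rfl : m = 2 * k + 2 := by omega
        exact hG0 (ih G hG hGi)
    intro d f hom hf
    rcases Nat.even_or_odd' d with ⟨k, rfl | rfl⟩
    · exact hodd k f hom hf
    · exact heven k f hom hf
  · right
    push Not at h2
    obtain ⟨ψ, hψ, hψi, hψ0⟩ := h2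
    refine ⟨ψ, hψ0, hψ, hψi, ?_⟩
    obtain ⟨m, hm, G, hG0, hG, hGi, hGd⟩ := descent hn hind hdef (d := 1) hψ hψi hψ0
    obtain rfl : m = 0 := by omega
    obtain ⟨c, rfl⟩ : ∃ c, G = MvPolynomial.C c := by
      have := (totalDegree_zero_iff_isHomogeneous _).2 hG
      exact ⟨_, (totalDegree_eq_zero_iff_eq_C).1 this⟩
    have hc : c ≠ 0 := fun h => hG0 (by rw [h, C_0])
    -- every even invariant is a multiple of a power
    have heven : ∀ k, ∀ f : MvPolynomial (Fin n) ℚ, f.IsHomogeneous (2 * k) → A.Inv f →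
        ∃ e : ℚ, f = C e * ψ ^ k := by
      intro k
      induction k with
      | zero =>
        intro f hom _
        have := (totalDegree_zero_iff_isHomogeneous _).2 hom
        exact ⟨_, by rw [pow_zero, mul_one]; exact (totalDegree_eq_zero_iff_eq_C).1 this⟩
      | succ k ih =>
        intro f hom hf
        by_cases h0 : f = 0
        · exact ⟨0, by rw [h0, C_0, zero_mul]⟩
        obtain ⟨m, hm, H, hH0, hH, hHi, hHd⟩ := descent hn hind hdef (d := 2 * k + 1) hom hf h0
        obtain rfl : m = 2 * k := by omega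
        obtain ⟨e, he⟩ := ih H hH hHi
        obtain ⟨ε, hε, h1⟩ := hHd ⟨0, hn⟩
        obtain ⟨η, hη, h2⟩ := hGd ⟨0, hn⟩
        have hψn : (ψ ^ (k + 1)).IsHomogeneous (2 * (k + 1)) := hψ.pow (k + 1)
        have hk1 : ((k : ℚ) + 1) ≠ 0 := by positivity
        refine ⟨ε * e / ((k + 1) * η * c), ?_⟩
        rw [← sub_eq_zero]
        by_contra hne
        have hinv : A.Inv (f - C (ε * e / ((k + 1) * η * c)) * ψ ^ (k + 1)) :=
          hf.sub ((GCM.Inv.C _).mul (hψi.pow _))
        have hhom : (f - C (ε * e / ((k + 1) * η * c)) * ψ ^ (k + 1)).IsHomogeneous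
            (2 * k + 1 + 1) := hom.sub (hψn.C_mul _)
        apply hinv.pderiv_ne_zero hind hhom hne ⟨0, hn⟩
        rw [map_sub, h1, he, pderiv_C_mul, pderiv_pow, h2, Nat.add_sub_cancel, sub_eq_zero]
        have : (((k + 1 : ℕ) : MvPolynomial (Fin n) ℚ)) = C ((k : ℚ) + 1) := by
          rw [map_add, C_1]; simp
        rw [this]
        have h3 : ε * e = (ε * e / ((k + 1) * η * c)) * (((k : ℚ) + 1) * η * c) := by
          field_simp
        set q := ε * e / ((k + 1) * η * c)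
        calc C ε * A.root ⟨0, hn⟩ * (C e * ψ ^ k) = C (ε * e) * (A.root ⟨0, hn⟩ * ψ ^ k) := by
              rw [C_mul]; ring
          _ = _ := by rw [h3, C_mul, C_mul, C_mul]; ring
    intro d f hom hf
    rcases Nat.even_or_odd' d with ⟨k, rfl | rfl⟩
    · rw [hodd k f hom hf]
      exact ⟨0, 0, isHomogeneous_zero _ _ _, fun j => map_zero _, (mul_zero _).symm⟩
    · obtain ⟨e, he⟩ := heven (k + 1) f hom hf
      exact ⟨_, C e * ψ ^ k, (hψ.pow k).C_mul e, (GCM.Inv.C _).mul (hψi.pow _), by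
        rw [he, pow_succ]; ring⟩

end Pool.Agent.W628.KM
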