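import Mathlib
import Pool.Agent.W628.KM.Coho
import Pool.Agent.W628.KM.Ring
import Pool.Agent.W628.KM.Molien

/-!
# The bigraded cochain complex of a generalized Cartan matrix
-/

open MvPolynomial

namespace Pool.Agent.W628.KM

variable {n : ℕ} (A : GCM n)

/-- The subalgebra of polynomials invariant under the reflections with index in `I`. -/
def GCM.invs (I : Finset (Fin n)) : Subalgebra ℚ (MvPolynomial (Fin n) ℚ) where
  carrier := {p | ∀ j ∈ I, act (A.refl j) p = p}
  zero_mem' := fun _ _ => map_zero _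
  add_mem' := fun h1 h2 j hj => by rw [map_add, h1 j hj, h2 j hj]
  one_mem' := fun _ _ => map_one _
  mul_mem' := fun h1 h2 j hj => by rw [map_mul, h1 j hj, h2 j hj]
  algebraMap_mem' := fun r j _ => (act (A.refl j)).commutes r

/-- The poset of spherical subsets: sets `I` of indices such that the group `W_I` generated by the
simple reflections with index in `I` is finite. -/
abbrev GCM.Sph : Type := {I : Finset (Fin n) // Finite (A.W I)}

/-- The coefficient system: `I` is sent to the ring of invariants of `W_I`. -/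
def GCM.coef (I : A.Sph) : Subalgebra ℚ (MvPolynomial (Fin n) ℚ) := A.invs I.1

lemma GCM.coef_anti : Antitone A.coef := fun _ _ h _ hp j hj => hp j (h hj)

variable {A}

lemma mem_invs {I : Finset (Fin n)} {p : MvPolynomial (Fin n) ℚ} :
    p ∈ A.invs I ↔ ∀ j ∈ I, act (A.refl j) p = p := Iff.rfl

lemma act_homogeneousComponent (g : Matrix (Fin n) (Fin n) ℤ) (t : ℕ)
    (p : MvPolynomial (Fin n) ℚ) :
    act g (homogeneousComponent t p) = homogeneousComponent t (act g p) := by
  conv_rhs => rw [← sum_homogeneousComponent p, map_sum, map_sum]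
  have h1 : ∀ k, homogeneousComponent t (act g (homogeneousComponent k p)) =
      if k = t then act g (homogeneousComponent k p) else 0 := by
    intro k
    have := act_homog g (homogeneousComponent_isHomogeneous k p)
    rw [homogeneousComponent_of_mem ((mem_homogeneousSubmodule _ _).2 this)]
    simp only [eq_comm]
  rw [Finset.sum_congr rfl fun k _ => h1 k, Finset.sum_ite_eq']
  split_ifs with h
  · rfl
  · rw [homogeneousComponent_eq_zero, map_zero]
    rw [Finset.mem_range] at h
    omega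

lemma hc_mem_invs {I : Finset (Fin n)} {p : MvPolynomial (Fin n) ℚ} (hp : p ∈ A.invs I) (t : ℕ) :
    homogeneousComponent t p ∈ A.invs I := by
  intro j hj
  rw [act_homogeneousComponent, hp j hj]

/-- The bihomogeneous component of a cochain. -/
noncomputable def comp (s t : ℕ) (φ : Conv A.Sph (MvPolynomial (Fin n) ℚ)) :
    Conv A.Sph (MvPolynomial (Fin n) ℚ) :=
  fun c => if c.1.card = s + 1 then homogeneousComponent t (φ c) else 0

lemma ex_comp (s t : ℕ) (φ : Conv A.Sph (MvPolynomial (Fin n) ℚ)) (c : Finset A.Sph) :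
    ex (comp s t φ) c = if c.card = s + 1 then homogeneousComponent t (ex φ c) else 0 := by
  by_cases h : IsFlag c
  · rw [ex, ex, dif_pos h, dif_pos h]; rfl
  · rw [ex_of_not _ h, ex_of_not _ h, map_zero]; simp

lemma comp_add (s t : ℕ) (φ ψ : Conv A.Sph (MvPolynomial (Fin n) ℚ)) :
    comp s t (φ + ψ) = comp s t φ + comp s t ψ := by
  refine ex_ext fun c hc => ?_
  rw [ex_add, ex_comp, ex_comp, ex_comp, ex_add, map_add]
  split_ifs <;> simp

lemma comp_sum {ι : Type} (u : Finset ι) (s t : ℕ) (φ : ι → Conv A.Sph (MvPolynomial (Fin n) ℚ)) :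
    comp s t (∑ i ∈ u, φ i) = ∑ i ∈ u, comp s t (φ i) := by
  classical
  induction u using Finset.induction_on with
  | empty =>
    refine ex_ext fun c hc => ?_
    rw [Finset.sum_empty, Finset.sum_empty, ex_comp, ex_zero, map_zero]
    split_ifs <;> rfl
  | insert a u ha ih => rw [Finset.sum_insert ha, Finset.sum_insert ha, comp_add, ih]

lemma neg_one_pow_mul_hc (k t : ℕ) (p : MvPolynomial (Fin n) ℚ) :
    homogeneousComponent t ((-1) ^ k * p) = (-1) ^ k * homogeneousComponent t p := by
  rcases neg_one_pow_eq_or (MvPolynomial (Fin n) ℚ) k with h | h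
  · rw [h, one_mul, one_mul]
  · rw [h, neg_one_mul, neg_one_mul, map_neg]

lemma ex_df' {S : Type} [PartialOrder S] [DecidableEq S] {P : Type} [CommRing P] (φ : Conv S P)
    {c : Finset S} (hc : IsChain (· ≤ ·) (c : Set S)) :
    ex (df φ) c = ∑ x ∈ c, (-1) ^ rk c x * ex φ (c.erase x) := by
  have e : ∀ x, (@Finset.erase S (fun a b => Classical.propDecidable (a = b)) c x) =
      c.erase x := by
    intro x
    ext y
    exact (@Finset.mem_erase S (fun a b => Classical.propDecidable (a = b)) y x c).trans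
      Finset.mem_erase.symm
  rw [ex_df _ hc]
  refine Finset.sum_congr rfl fun x _ => ?_
  rw [e]

lemma df_comp (s t : ℕ) (φ : Conv A.Sph (MvPolynomial (Fin n) ℚ)) :
    df (comp s t φ) = comp (s + 1) t (df φ) := by
  classical
  refine ex_ext fun c hc => ?_
  rw [ex_comp, ex_df' _ hc.2, ex_df' _ hc.2]
  split_ifs with h
  · rw [map_sum]
    refine Finset.sum_congr rfl fun x hx => ?_
    rw [neg_one_pow_mul_hc, ex_comp, Finset.card_erase_of_mem hx, h, Nat.add_sub_cancel, if_pos rfl]
  · refine Finset.sum_eq_zero fun x hx => ?_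
    rw [ex_comp, Finset.card_erase_of_mem hx, if_neg, mul_zero]
    have : 0 < c.card := Finset.card_pos.2 ⟨x, hx⟩
    omega

lemma comp_zero_df (t : ℕ) (φ : Conv A.Sph (MvPolynomial (Fin n) ℚ)) : comp 0 t (df φ) = 0 := by
  classical
  refine ex_ext fun c hc => ?_
  rw [ex_comp, ex_zero]
  split_ifs with h
  · obtain ⟨x, rfl⟩ := Finset.card_eq_one.1 h
    rw [ex_df' _ hc.2, Finset.sum_singleton, Finset.erase_singleton, ex_empty, mul_zero, map_zero]
  · rfl

variable (A)

/-- Bihomogeneous cochains. -/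
def GCM.C (s t : ℕ) : Submodule ℚ (Conv A.Sph (MvPolynomial (Fin n) ℚ)) where
  carrier := {φ | φ ∈ cochains A.coef A.coef_anti ∧ (∀ c : Flag A.Sph, c.1.card ≠ s + 1 → φ c = 0) ∧
    ∀ c : Flag A.Sph, (φ c).IsHomogeneous t}
  zero_mem' := ⟨(cochains A.coef A.coef_anti).zero_mem, fun _ _ => rfl,
    fun _ => isHomogeneous_zero _ _ _⟩
  add_mem' := fun h1 h2 => ⟨(cochains A.coef A.coef_anti).add_mem h1.1 h2.1, fun c hc => by
    rw [Conv.add_apply, h1.2.1 c hc, h2.2.1 c hc, add_zero], fun c => (h1.2.2 c).add (h2.2.2 c)⟩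
  smul_mem' := fun r φ h => ⟨(cochains A.coef A.coef_anti).smul_mem h.1 r, fun c hc => by
    change r • φ c = 0
    rw [h.2.1 c hc, smul_zero], fun c => by
    change (r • φ c).IsHomogeneous t
    rw [smul_eq_C_mul]; exact (h.2.2 c).C_mul r⟩

variable {A}

lemma mem_C {s t : ℕ} {φ : Conv A.Sph (MvPolynomial (Fin n) ℚ)} : φ ∈ A.C s t ↔
    φ ∈ cochains A.coef A.coef_anti ∧ (∀ c : Flag A.Sph, c.1.card ≠ s + 1 → φ c = 0) ∧
    ∀ c : Flag A.Sph, (φ c).IsHomogeneous t := Iff.rfl

lemma comp_mem {φ : Conv A.Sph (MvPolynomial (Fin n) ℚ)} (hφ : φ ∈ cochains A.coef A.coef_anti)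
    (s t : ℕ) : comp s t φ ∈ A.C s t := by
  refine ⟨fun c I hI hm => ?_, fun c hc => if_neg hc, fun c => ?_⟩
  · rw [comp]
    split_ifs
    · exact hc_mem_invs (hφ c I hI hm) t
    · exact (A.coef I).zero_mem
  · rw [comp]
    split_ifs
    · exact homogeneousComponent_isHomogeneous _ _
    · exact isHomogeneous_zero _ _ _

lemma comp_of_mem {s t : ℕ} {φ : Conv A.Sph (MvPolynomial (Fin n) ℚ)} (hφ : φ ∈ A.C s t) :
    comp s t φ = φ := by
  refine Conv.ext fun c => ?_
  rw [comp]
  split_ifs with h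
  · exact homogeneousComponent_eq_self (hφ.2.2 c)
  · exact (hφ.2.1 c h).symm

lemma df_mem_C {s t : ℕ} {φ : Conv A.Sph (MvPolynomial (Fin n) ℚ)} (hφ : φ ∈ A.C s t) :
    df φ ∈ A.C (s + 1) t := by
  rw [← comp_of_mem hφ, df_comp]
  exact comp_mem (df_mem _ _ hφ.1) _ _

/-- The differential as a linear map. -/
noncomputable def GCM.D (A : GCM n) (s t : ℕ) : A.C s t →ₗ[ℚ] A.C (s + 1) t where
  toFun φ := ⟨df φ.1, df_mem_C φ.2⟩
  map_add' φ ψ := Subtype.ext (df_add _ _)
  map_smul' r φ := Subtype.ext (df_smul _ _)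

lemma GCM.D_D (A : GCM n) (s t : ℕ) (φ : A.C s t) : A.D (s + 1) t (A.D s t φ) = 0 :=
  Subtype.ext (df_df _)

/-! ### The dimension of the space of cochains -/

/-- The least element of a flag. -/
noncomputable def mn (c : Flag A.Sph) : A.Sph := (exists_min c.2).choose

lemma mn_mem (c : Flag A.Sph) : mn c ∈ c.1 := (exists_min c.2).choose_spec.1

lemma mn_le (c : Flag A.Sph) {x : A.Sph} (hx : x ∈ c.1) : mn c ≤ x :=
  (exists_min c.2).choose_spec.2 x hx

instance : Finite (Flag A.Sph) := Subtype.finite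

noncomputable instance : Fintype (Flag A.Sph) := Fintype.ofFinite _

/-- Bihomogeneous cochains as families of invariant polynomials. -/
noncomputable def Cequiv (A : GCM n) (s t : ℕ) :
    A.C s t ≃ₗ[ℚ] (∀ c : {c : Flag A.Sph // c.1.card = s + 1}, A.F (mn c.1).1 t) where
  toFun φ c := ⟨φ.1 c.1, φ.2.2.2 c.1, φ.2.1 c.1 (mn c.1) (mn_mem _) fun _ hJ => mn_le _ hJ⟩
  map_add' _ _ := rfl
  map_smul' _ _ := rfl
  invFun v := ⟨fun c => if h : c.1.card = s + 1 then (v ⟨c, h⟩).1 else 0, by
    refine ⟨fun c I hI hm => ?_, fun c hc => dif_neg hc, fun c => ?_⟩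
    · change (if h : c.1.card = s + 1 then (v ⟨c, h⟩).1 else 0) ∈ A.coef I
      split_ifs with h
      · have : I = mn c := le_antisymm (hm _ (mn_mem c)) (mn_le c hI)
        rw [this]
        exact (v ⟨c, h⟩).2.2
      · exact (A.coef I).zero_mem
    · change (if h : c.1.card = s + 1 then (v ⟨c, h⟩).1 else 0).IsHomogeneous t
      split_ifs with h
      · exact (v ⟨c, h⟩).2.1
      · exact isHomogeneous_zero _ _ _⟩
  left_inv φ := by
    refine Subtype.ext (Conv.ext fun c => ?_)
    change (if h : c.1.card = s + 1 then φ.1 c else 0) = φ.1 c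
    split_ifs with h
    · rfl
    · exact (φ.2.2.1 c h).symm
  right_inv v := by
    funext c
    refine Subtype.ext ?_
    change (if h : c.1.1.card = s + 1 then (v ⟨c.1, h⟩).1 else 0) = (v c).1
    rw [dif_pos c.2]

lemma F_le (A : GCM n) (J : Finset (Fin n)) (k : ℕ) : A.F J k ≤ homogeneousSubmodule (Fin n) ℚ k :=
  fun _ h => h.1

instance (k : ℕ) : Module.Finite ℚ (homogeneousSubmodule (Fin n) ℚ k) :=
  Module.Finite.iff_fg.2 (homogeneousSubmodule_fg _ _ k)

instance (A : GCM n) (J : Finset (Fin n)) (k : ℕ) : Module.Finite ℚ (A.F J k) :=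
  Submodule.finiteDimensional_of_le (F_le A J k)

instance (A : GCM n) (s t : ℕ) : Module.Finite ℚ (A.C s t) :=
  Module.Finite.equiv (Cequiv A s t).symm

lemma finrank_C (A : GCM n) (s t : ℕ) :
    Module.finrank ℚ (A.C s t) =
      ∑ c : Flag A.Sph, if c.1.card = s + 1 then Module.finrank ℚ (A.F (mn c).1 t) else 0 := by
  classical
  rw [LinearEquiv.finrank_eq (Cequiv A s t), Module.finrank_pi_fintype, ← Finset.sum_filter,
    ← Finset.sum_subtype_eq_sum_filter]
  simp

end Pool.Agent.W628.KM
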