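import Mathlib
import Pool.Agent.W628.KM.Grad

/-!
# The Euler characteristic series of the cochain complex
-/

open MvPolynomial

namespace Pool.Agent.W628.KM

variable {n : ℕ}

/-- Cocycles of bidegree `(s, t)`. -/
noncomputable def GCM.Z (A : GCM n) (s t : ℕ) : Submodule ℚ (A.C s t) := LinearMap.ker (A.D s t)

/-- Coboundaries of bidegree `(s, t)`. -/
noncomputable def GCM.B (A : GCM n) : (s t : ℕ) → Submodule ℚ (A.C s t)
  | 0, _ => ⊥
  | s + 1, t => LinearMap.range (A.D s t)

lemma B_le_Z (A : GCM n) (s t : ℕ) : A.B s t ≤ A.Z s t := by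
  cases s with
  | zero => exact bot_le
  | succ s =>
    rintro x ⟨y, rfl⟩
    exact A.D_D s t y

/-- The dimension of the cohomology in bidegree `(s, t)`. -/
noncomputable def GCM.h (A : GCM n) (s t : ℕ) : ℕ :=
  Module.finrank ℚ (A.Z s t) - Module.finrank ℚ (A.B s t)

lemma h_add (A : GCM n) (s t : ℕ) :
    A.h s t + Module.finrank ℚ (A.B s t) = Module.finrank ℚ (A.Z s t) :=
  Nat.sub_add_cancel (Submodule.finrank_mono (B_le_Z A s t))

lemma Z_add_B (A : GCM n) (s t : ℕ) :
    Module.finrank ℚ (A.Z s t) + Module.finrank ℚ (A.B (s + 1) t) =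
      Module.finrank ℚ (A.C s t) := by
  rw [add_comm]
  exact LinearMap.finrank_range_add_finrank_ker (A.D s t)

lemma card_flag (A : GCM n) (c : Flag A.Sph) : c.1.card ≤ Nat.card A.Sph := by
  classical
  have : Fintype A.Sph := Fintype.ofFinite _
  rw [Nat.card_eq_fintype_card]
  exact Finset.card_le_univ _

lemma finrank_C_top (A : GCM n) {s : ℕ} (hs : Nat.card A.Sph ≤ s) (t : ℕ) :
    Module.finrank ℚ (A.C s t) = 0 := by
  rw [finrank_C]
  refine Finset.sum_eq_zero fun c _ => if_neg ?_
  have := card_flag A c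
  omega

/-- The Euler characteristic in internal degree `t`. -/
noncomputable def GCM.e (A : GCM n) (t : ℕ) : ℤ :=
  ∑ s ∈ Finset.range (Nat.card A.Sph), (-1) ^ s * (A.h s t : ℤ)

lemma e_eq (A : GCM n) (t : ℕ) :
    A.e t = ∑ s ∈ Finset.range (Nat.card A.Sph), (-1) ^ s * (Module.finrank ℚ (A.C s t) : ℤ) := by
  have h1 := telescope (P := ℤ) (Nat.card A.Sph) (fun s => (Module.finrank ℚ (A.B s t) : ℤ))
  have h2 : Module.finrank ℚ (A.B 0 t) = 0 := finrank_bot ℚ _
  have h3 : Module.finrank ℚ (A.B (Nat.card A.Sph) t) = 0 := by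
    have := Submodule.finrank_le (A.B (Nat.card A.Sph) t)
    rw [finrank_C_top A le_rfl t] at this
    omega
  simp only [h2, h3, Nat.cast_zero, mul_zero, sub_zero] at h1
  rw [GCM.e, ← add_zero (∑ s ∈ Finset.range (Nat.card A.Sph), (-1) ^ s * (A.h s t : ℤ)), ← h1,
    ← Finset.sum_add_distrib]
  refine Finset.sum_congr rfl fun s _ => ?_
  have h4 : (A.h s t : ℤ) + Module.finrank ℚ (A.B s t) = Module.finrank ℚ (A.Z s t) := by
    exact_mod_cast h_add A s t
  have h5 : (Module.finrank ℚ (A.Z s t) : ℤ) + Module.finrank ℚ (A.B (s + 1) t) =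
      Module.finrank ℚ (A.C s t) := by
    exact_mod_cast Z_add_B A s t
  rw [← h5, ← h4]
  ring

lemma e_eq' (A : GCM n) (t : ℕ) :
    A.e t = ∑ c : Flag A.Sph, (-1) ^ (c.1.card + 1) * (Module.finrank ℚ (A.F (mn c).1 t) : ℤ) := by
  rw [e_eq]
  simp only [finrank_C, Nat.cast_sum, Finset.mul_sum]
  rw [Finset.sum_comm]
  refine Finset.sum_congr rfl fun c _ => ?_
  have h1 : 0 < c.1.card := Finset.card_pos.2 c.2.1
  have h2 := card_flag A c
  rw [Finset.sum_eq_single_of_mem (c.1.card - 1) (Finset.mem_range.2 (by omega))]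
  · rw [if_pos (by omega)]
    congr 1
    obtain ⟨m, hm⟩ : ∃ m, c.1.card = m + 1 := ⟨c.1.card - 1, by omega⟩
    rw [hm, Nat.add_sub_cancel, pow_add, pow_add]
    norm_num
  · intro s _ hs
    rw [if_neg (by omega)]
    simp

/-- The Euler characteristic series. -/
noncomputable def GCM.E (A : GCM n) : PowerSeries ℂ := PowerSeries.mk fun t => (A.e t : ℂ)

lemma good_E (A : GCM n) : Good n A.E := by
  have h : A.E = ∑ c : Flag A.Sph, PowerSeries.C ((-1 : ℂ) ^ (c.1.card + 1)) * A.hilb (mn c).1 := by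
    refine PowerSeries.ext fun t => ?_
    rw [GCM.E, PowerSeries.coeff_mk, e_eq', map_sum, Int.cast_sum]
    refine Finset.sum_congr rfl fun c _ => ?_
    rw [PowerSeries.coeff_C_mul, GCM.hilb, PowerSeries.coeff_mk]
    push_cast
    rfl
  rw [h]
  exact Good.sum _ _ fun c _ => (good_hilb A _ (mn c).2).C_mul _

lemma finrank_F_zero (A : GCM n) (J : Finset (Fin n)) : Module.finrank ℚ (A.F J 0) = 1 := by
  have h : A.F J 0 = Submodule.span ℚ {(1 : MvPolynomial (Fin n) ℚ)} := by
    ext p
    rw [Submodule.mem_span_singleton]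
    constructor
    · rintro ⟨h1, -⟩
      have h2 := (totalDegree_eq_zero_iff_eq_C (p := p)).1
        (Nat.le_zero.1 h1.totalDegree_le)
      exact ⟨coeff 0 p, by rw [smul_eq_C_mul, mul_one, ← h2]⟩
    · rintro ⟨a, rfl⟩
      refine (A.F J 0).smul_mem a ⟨isHomogeneous_one _ _, fun _ _ => map_one _⟩
  rw [h]
  exact finrank_span_singleton one_ne_zero

lemma finite_W_empty (A : GCM n) : Finite (A.W ∅) := by
  have : A.W ∅ = ⊥ := by
    rw [GCM.W, Finset.coe_empty, Set.image_empty, Subgroup.closure_empty]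
  rw [this]
  infer_instance

/-- The empty set as a spherical subset. -/
def GCM.bt (A : GCM n) : A.Sph := ⟨∅, finite_W_empty A⟩

lemma bt_le (A : GCM n) (x : A.Sph) : A.bt ≤ x := Finset.empty_subset x.1

lemma e_zero (A : GCM n) : A.e 0 = 1 := by
  classical
  rw [e_eq']
  simp only [finrank_F_zero, Nat.cast_one, mul_one]
  have : Fintype A.Sph := Fintype.ofFinite _
  have hs := Finset.sum_subtype (M := ℤ) (p := fun c : Finset A.Sph => IsFlag c)
    (F := (inferInstance : Fintype (Flag A.Sph)))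
    (Finset.univ.filter fun c : Finset A.Sph => IsFlag c) (by simp)
    (fun c => (-1 : ℤ) ^ (c.card + 1))
  have h1 : ∑ c : Flag A.Sph, (-1 : ℤ) ^ (c.1.card + 1) =
      ∑ c ∈ (Finset.univ.filter fun c : Finset A.Sph => IsFlag c), (-1 : ℤ) ^ (c.card + 1) := by
    rw [hs]
    rfl
  have h2 : (Finset.univ.filter fun c : Finset A.Sph => IsChain (· ≤ ·) (c : Set A.Sph)) =
      insert ∅ (Finset.univ.filter fun c : Finset A.Sph => IsFlag c) := by
    ext c
    simp only [Finset.mem_filter, Finset.mem_univ, true_and, Finset.mem_insert]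
    constructor
    · intro h
      rcases c.eq_empty_or_nonempty with h0 | h0
      · exact Or.inl h0
      · exact Or.inr ⟨h0, h⟩
    · rintro (rfl | h)
      · simp
      · exact h.2
  have h3 : ∑ c ∈ (Finset.univ.filter fun c : Finset A.Sph => IsChain (· ≤ ·) (c : Set A.Sph)),
      (-1 : ℤ) ^ (c.card + 1) = 0 := by
    refine Finset.sum_involution
      (fun c _ => if A.bt ∈ c then c.erase A.bt else insert A.bt c) ?_ ?_ ?_ ?_
    · intro c _
      split_ifs with h
      · rw [Finset.card_erase_of_mem h]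
        have : 0 < c.card := Finset.card_pos.2 ⟨_, h⟩
        obtain ⟨m, hm⟩ : ∃ m, c.card = m + 1 := ⟨c.card - 1, by omega⟩
        rw [hm, Nat.add_sub_cancel, pow_succ (-1 : ℤ) (m + 1)]
        ring
      · rw [Finset.card_insert_of_notMem h, pow_succ (-1 : ℤ) (c.card + 1)]
        ring
    · intro c _ _
      split_ifs with h
      · intro h'
        rw [← h'] at h
        exact absurd h (Finset.notMem_erase _ _)
      · intro h'
        exact h (h' ▸ Finset.mem_insert_self _ _)
    · intro c hc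
      simp only [Finset.mem_filter, Finset.mem_univ, true_and] at hc ⊢
      split_ifs with h
      · exact chain_mono hc (Finset.erase_subset _ _)
      · rw [Finset.coe_insert]
        exact hc.insert fun b _ _ => Or.inl (bt_le A b)
    · intro c _
      by_cases h : A.bt ∈ c
      · simp only [if_pos h, Finset.notMem_erase, if_false]
        exact Finset.insert_erase h
      · simp only [if_neg h, Finset.mem_insert_self, if_true]
        exact Finset.erase_insert h
  rw [h1]
  rw [h2, Finset.sum_insert] at h3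
  · simp only [Finset.card_empty, zero_add, pow_one] at h3
    linarith
  · simp only [Finset.mem_filter, not_and]
    intro _ h
    exact Finset.not_nonempty_empty h.1

/-- A series with eventually `2`-periodic coefficients that decays to order at least three at
infinity is zero. -/
lemma Good.eq_zero {E : PowerSeries ℂ} (hn : 3 ≤ n) (hE : Good n E) {T : ℕ}
    (hT : ∀ t, T ≤ t → PowerSeries.coeff (t + 2) E = PowerSeries.coeff t E) : E = 0 := by
  obtain ⟨D, N, hD, hN, he⟩ := hE
  let Q : Polynomial ℂ := 1 - Polynomial.X ^ 2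
  have hQd : Q.degree = 2 := by
    have h1 : Q = -(Polynomial.X ^ 2 - Polynomial.C 1) := by simp [Q]
    rw [h1, Polynomial.degree_neg, Polynomial.degree_X_pow_sub_C (by norm_num)]
    rfl
  have hQ0 : Q ≠ 0 := by
    intro h
    rw [h, Polynomial.degree_zero] at hQd
    exact absurd hQd (by decide)
  have hcoe : (Q : PowerSeries ℂ) = 1 - PowerSeries.X ^ 2 := by simp [Q]
  let M : Polynomial ℂ := PowerSeries.trunc (T + 2) ((Q : PowerSeries ℂ) * E)
  have hM : (M : PowerSeries ℂ) = (Q : PowerSeries ℂ) * E := by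
    refine PowerSeries.ext fun m => ?_
    rw [Polynomial.coeff_coe, PowerSeries.coeff_trunc]
    split_ifs with h
    · rfl
    · obtain ⟨t, rfl⟩ : ∃ t, m = t + 2 := ⟨m - 2, by omega⟩
      rw [hcoe, sub_mul, one_mul, map_sub, hT t (by omega), mul_comm, add_comm t 2]
      rw [show PowerSeries.coeff (2 + t) (E * PowerSeries.X ^ 2) = PowerSeries.coeff t E by
        rw [add_comm 2 t]; exact PowerSeries.coeff_mul_X_pow E 2 t]
      rw [sub_self]
  have hpoly : Q * N = D * M := by
    have : ((Q * N : Polynomial ℂ) : PowerSeries ℂ) = ((D * M : Polynomial ℂ) : PowerSeries ℂ) := by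
      rw [Polynomial.coe_mul, Polynomial.coe_mul, hM, ← he]
      ring
    exact Polynomial.coe_injective ℂ this
  have hM0 : M = 0 := by
    by_contra h0
    have hN0 : N ≠ 0 := by
      intro h
      rw [h, mul_zero] at hpoly
      exact mul_ne_zero hD h0 hpoly.symm
    have h1 := congrArg Polynomial.natDegree hpoly
    rw [Polynomial.natDegree_mul hQ0 hN0, Polynomial.natDegree_mul hD h0] at h1
    have h2 : Q.natDegree = 2 := Polynomial.natDegree_eq_of_degree_eq_some hQd
    rw [Polynomial.degree_eq_natDegree hN0, Polynomial.degree_eq_natDegree hD] at hN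
    have h3 : N.natDegree + n ≤ D.natDegree := by exact_mod_cast hN
    omega
  rw [hM0, Polynomial.coe_zero] at hM
  rcases mul_eq_zero.1 hM.symm with h | h
  · exact absurd (Polynomial.coe_injective ℂ (h.trans Polynomial.coe_zero.symm)) hQ0
  · exact h

lemma stab (f : ℕ → ℕ → ℕ) (L T : ℕ) (h : ∀ s, ∀ t, T ≤ t → f s (t + 2) ≤ f s t) :
    ∃ T', ∀ s, s < L → ∀ t, T' ≤ t → f s (t + 2) = f s t := by
  let g : ℕ → ℕ := fun k => ∑ s ∈ Finset.range L, (f s (T + k) + f s (T + k + 1))
  have hg : ∀ k, g (k + 1) ≤ g k := by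
    intro k
    refine Finset.sum_le_sum fun s _ => ?_
    have := h s (T + k) (by omega)
    rw [show T + (k + 1) = T + k + 1 by ring, show T + k + 1 + 1 = T + k + 2 by ring]
    omega
  have hanti : Antitone g := antitone_nat_of_succ_le hg
  obtain ⟨K, hK⟩ : ∃ K, ∀ k, g K ≤ g k := by
    obtain ⟨K, hK⟩ := Nat.sInf_mem (Set.range_nonempty g)
    exact ⟨K, fun k => by rw [hK]; exact Nat.sInf_le ⟨k, rfl⟩⟩
  have hc : ∀ k, K ≤ k → g (k + 1) = g k := fun k hk =>
    le_antisymm (hg k) ((hanti hk).trans (hK _))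
  refine ⟨T + K, fun s hs t ht => ?_⟩
  obtain ⟨k, rfl⟩ : ∃ k, t = T + k := ⟨t - T, by omega⟩
  have h1 := hc k (by omega)
  have h2 := (Finset.sum_eq_sum_iff_of_le (s := Finset.range L)
    (f := fun s => f s (T + (k + 1)) + f s (T + (k + 1) + 1))
    (g := fun s => f s (T + k) + f s (T + k + 1)) (fun s _ => by
      have := h s (T + k) (by omega)
      rw [show T + (k + 1) = T + k + 1 by ring, show T + k + 1 + 1 = T + k + 2 by ring]
      omega)).1 h1 s (Finset.mem_range.2 hs)
  beta_reduce at h2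
  rw [show T + (k + 1) = T + k + 1 by ring, show T + k + 1 + 1 = T + k + 2 by ring] at h2
  omega

theorem contradiction_of_decreasing (A : GCM n) (hn : 3 ≤ n) (T : ℕ)
    (h : ∀ s, ∀ t, T ≤ t → A.h s (t + 2) ≤ A.h s t) : False := by
  obtain ⟨T', hT'⟩ := stab A.h (Nat.card A.Sph) T h
  have h1 : A.E = 0 := by
    refine (good_E A).eq_zero hn (T := T') fun t ht => ?_
    rw [GCM.E, PowerSeries.coeff_mk, PowerSeries.coeff_mk]
    congr 1
    rw [GCM.e, GCM.e]
    refine Finset.sum_congr rfl fun s hs => ?_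
    rw [hT' s (Finset.mem_range.1 hs) t ht]
  have h2 : PowerSeries.coeff 0 A.E = 1 := by
    rw [GCM.E, PowerSeries.coeff_mk, e_zero, Int.cast_one]
  rw [h1, map_zero] at h2
  exact zero_ne_one h2

end Pool.Agent.W628.KM
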