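import Mathlib
import Pool.Agent.W628.KM.Euler

/-!
# Consequences of finite generation
-/

open MvPolynomial

namespace Pool.Agent.W628.KM

section General

variable {S : Type} [PartialOrder S] {P : Type} [CommRing P]

/-- Cochains vanishing on flags with at most `k` elements. -/
def Hi (k : ℕ) (φ : Conv S P) : Prop := ∀ c : Finset S, c.card ≤ k → ex φ c = 0

lemma card_low_add_card_upp {c : Finset S} (hc : IsChain (· ≤ ·) (c : Set S)) {J : S}
    (hJ : J ∈ c) : (low c J).card + (upp c J).card = c.card + 1 := by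
  classical
  rw [← Finset.card_union_add_card_inter]
  have h1 : low c J ∪ upp c J = c := by
    ext x
    rw [Finset.mem_union, mem_low, mem_upp]
    constructor
    · rintro (h | h) <;> exact h.1
    · intro h
      rcases chain_cases hc h hJ with h1 | h1
      · exact Or.inl ⟨h, h1⟩
      · exact Or.inr ⟨h, h1⟩
  have h2 : low c J ∩ upp c J = {J} := by
    ext x
    rw [Finset.mem_inter, mem_low, mem_upp, Finset.mem_singleton]
    constructor
    · rintro ⟨⟨_, h1⟩, ⟨_, h2⟩⟩
      exact le_antisymm h1 h2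
    · rintro rfl
      exact ⟨⟨hJ, le_rfl⟩, ⟨hJ, le_rfl⟩⟩
  rw [h1, h2, Finset.card_singleton]

lemma Hi.mul {k : ℕ} {φ ψ : Conv S P} (hφ : Hi 1 φ) (hψ : Hi k ψ) : Hi (k + 1) (φ * ψ) := by
  intro c hc
  by_cases hf : IsFlag c
  · rw [ex_mul _ _ hf.2]
    refine Finset.sum_eq_zero fun J hJ => ?_
    have := card_low_add_card_upp hf.2 hJ
    by_cases h : (low c J).card ≤ 1
    · rw [hφ _ h, zero_mul]
    · rw [hψ (upp c J) (by omega), mul_zero]
  · exact ex_of_not _ hf

lemma Hi.prod (l : List (Conv S P)) (h : ∀ φ ∈ l, Hi 1 φ) : Hi l.length l.prod := by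
  induction l with
  | nil =>
    intro c hc
    rw [List.length_nil, Nat.le_zero, Finset.card_eq_zero] at hc
    rw [hc, ex_empty]
  | cons a l ih =>
    rw [List.prod_cons, List.length_cons]
    exact (h a (by simp)).mul (ih fun φ hφ => h φ (by simp [hφ]))

lemma Hi.eq_zero {k : ℕ} {φ : Conv S P} (h : Hi k φ) (hk : ∀ c : Flag S, c.1.card ≤ k) : φ = 0 :=
  ex_ext fun c hc => by rw [h c (hk ⟨c, hc⟩), ex_zero]

lemma ex_sub (φ ψ : Conv S P) (c : Finset S) : ex (φ - ψ) c = ex φ c - ex ψ c := by
  rw [sub_eq_add_neg, ex_add, ex_neg, sub_eq_add_neg]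

open Classical in
lemma rk_eq_zero {c : Finset S} {x : S} (h : ∀ y ∈ c, ¬ y < x) : rk c x = 0 := by
  rw [rk, Finset.card_eq_zero, Finset.filter_eq_empty_iff]
  exact h

open Classical in
lemma rk_eq_one {c : Finset S} {x y : S} (hy : y ∈ c) (hlt : y < x)
    (h : ∀ z ∈ c, z < x → z = y) : rk c x = 1 := by
  rw [rk, Finset.card_eq_one]
  refine ⟨y, ?_⟩
  ext z
  rw [Finset.mem_filter, Finset.mem_singleton]
  exact ⟨fun hz => h z hz.1 hz.2, fun hz => hz ▸ ⟨hy, hlt⟩⟩

end General

variable {n : ℕ} {A : GCM n}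

/-- All invariants are polynomials in a quadratic invariant. -/
theorem exists_psi (hn : 0 < n) (hind : A.Indecomposable) (hdef : A.Indefinite) :
    ∃ ψ : MvPolynomial (Fin n) ℚ, ψ.IsHomogeneous 2 ∧ ψ ∈ A.invs Finset.univ ∧
      ∀ r ∈ A.invs Finset.univ, ∃ c : ℚ, ∃ g ∈ A.invs Finset.univ, r = C c + ψ * g := by
  have hinv : ∀ f, f ∈ A.invs Finset.univ ↔ A.Inv f :=
    fun f => ⟨fun h j => h j (Finset.mem_univ j), fun h j _ => h j⟩
  have key : ∃ ψ : MvPolynomial (Fin n) ℚ, ψ.IsHomogeneous 2 ∧ ψ ∈ A.invs Finset.univ ∧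
      ∀ d, ∀ r ∈ A.invs Finset.univ, r.IsHomogeneous (d + 1) →
        ∃ g ∈ A.invs Finset.univ, r = ψ * g := by
    rcases invariants hn hind hdef with h | ⟨ψ, h0, h2, hi, h⟩
    · exact ⟨0, isHomogeneous_zero _ _ _, zero_mem _, fun d r hr hd =>
        ⟨0, zero_mem _, by rw [h d r hd ((hinv r).1 hr), mul_zero]⟩⟩
    · exact ⟨ψ, h2, (hinv _).2 hi, fun d r hr hd => by
        obtain ⟨m, g, hg, hgi, e⟩ := h d r hd ((hinv r).1 hr)
        exact ⟨g, (hinv g).2 hgi, e⟩⟩
  obtain ⟨ψ, h2, hi, h⟩ := key
  refine ⟨ψ, h2, hi, fun r hr => ?_⟩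
  choose g hg he using fun d =>
    h d _ (hc_mem_invs hr (d + 1)) (homogeneousComponent_isHomogeneous _ _)
  refine ⟨coeff 0 r, ∑ d ∈ Finset.range r.totalDegree, g d, sum_mem fun d _ => hg d, ?_⟩
  conv_lhs => rw [← sum_homogeneousComponent r, Finset.sum_range_succ']
  rw [homogeneousComponent_zero, add_comm, Finset.mul_sum]
  congr 1
  exact Finset.sum_congr rfl fun d _ => he d

lemma finite_W_singleton (A : GCM n) (j : Fin n) : Finite (A.W {j}) := by
  have : A.W {j} = Subgroup.zpowers (A.s j) := by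
    rw [GCM.W, Finset.coe_singleton, Set.image_singleton, Subgroup.zpowers_eq_closure]
  rw [this]
  exact finite_zpowers.2 (isOfFinOrder_iff_pow_eq_one.2 ⟨2, by norm_num, Units.ext (by
    rw [pow_two]; exact A.refl_mul_self j)⟩)

lemma cocycle_const {g : Conv A.Sph (MvPolynomial (Fin n) ℚ)}
    (hg : g ∈ cochains A.coef A.coef_anti) (hd : df g = 0) :
    ∃ f ∈ A.invs Finset.univ, Hi 1 (g - f • (1 : Conv A.Sph (MvPolynomial (Fin n) ℚ))) := by
  classical
  have hval : ∀ x : A.Sph, ex g {x} = ex g {A.bt} := by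
    intro x
    by_cases hx : x = A.bt
    · rw [hx]
    · have hlt : A.bt < x := lt_of_le_of_ne (bt_le A x) (Ne.symm hx)
      have hch : IsChain (· ≤ ·) (({A.bt, x} : Finset A.Sph) : Set A.Sph) := by
        rw [Finset.coe_insert, Finset.coe_singleton]
        exact IsChain.pair hlt.le
      have h1 := ex_df' g hch
      rw [hd, ex_zero, Finset.sum_pair hlt.ne] at h1
      have r1 : rk ({A.bt, x} : Finset A.Sph) A.bt = 0 :=
        rk_eq_zero fun y _ => not_lt_of_ge (bt_le A y)
      have r2 : rk ({A.bt, x} : Finset A.Sph) x = 1 := by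
        refine rk_eq_one (y := A.bt) (by simp) hlt fun z hz hzx => ?_
        rw [Finset.mem_insert, Finset.mem_singleton] at hz
        rcases hz with h | h
        · exact h
        · exact absurd h hzx.ne
      have e1 : ({A.bt, x} : Finset A.Sph).erase A.bt = {x} := by
        rw [Finset.erase_insert]
        simpa using hlt.ne
      have e2 : ({A.bt, x} : Finset A.Sph).erase x = {A.bt} := by
        rw [Finset.pair_comm, Finset.erase_insert]
        simpa using hlt.ne'
      rw [r1, r2, e1, e2] at h1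
      linear_combination -h1
  refine ⟨ex g {A.bt}, ?_, ?_⟩
  · intro j _
    have h1 := ex_mem_of_cochain A.coef A.coef_anti hg
      (c := {(⟨{j}, finite_W_singleton A j⟩ : A.Sph)}) (I := ⟨{j}, finite_W_singleton A j⟩)
      (by simp)
    rw [hval] at h1
    exact h1 j (Finset.mem_singleton_self j)
  · intro c hc
    rcases Nat.le_one_iff_eq_zero_or_eq_one.1 hc with h | h
    · rw [Finset.card_eq_zero.1 h, ex_empty]
    · obtain ⟨x, rfl⟩ := Finset.card_eq_one.1 h
      rw [ex_sub, ex_smul, ex_one, if_pos h, mul_one, hval, sub_self]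

/-- The algebra generated by finitely many cocycles is contained in a finitely generated module
over the invariants. -/
theorem adjoin_words (G : Set (Conv A.Sph (MvPolynomial (Fin n) ℚ))) (hG : G.Finite)
    (hc : ∀ g ∈ G, g ∈ cochains A.coef A.coef_anti ∧ df g = 0) :
    ∃ T : Finset (Conv A.Sph (MvPolynomial (Fin n) ℚ)),
      (∀ w ∈ T, w ∈ cochains A.coef A.coef_anti) ∧
      ∀ z ∈ Algebra.adjoin ℚ G, ∃ r : Conv A.Sph (MvPolynomial (Fin n) ℚ) →
        A.invs (Finset.univ : Finset (Fin n)), z = ∑ w ∈ T, (r w).1 • w := by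
  classical
  choose! f hf hf1 using fun g (hg : g ∈ G) => cocycle_const (hc g hg).1 (hc g hg).2
  let G' : Set (Conv A.Sph (MvPolynomial (Fin n) ℚ)) :=
    (fun g => g - f g • (1 : Conv A.Sph (MvPolynomial (Fin n) ℚ))) '' G
  have hG' : Finite G' := (hG.image _).to_subtype
  let L := Nat.card A.Sph
  let T : Finset (Conv A.Sph (MvPolynomial (Fin n) ℚ)) :=
    (List.finite_length_lt G' L).toFinset.image fun l => (l.map Subtype.val).prod
  have hcoch : ∀ g ∈ G', g ∈ cochains A.coef A.coef_anti := by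
    rintro _ ⟨g, hg, rfl⟩
    refine sub_mem (hc g hg).1 ?_
    intro c I hI hm
    rw [Conv.smul_apply]
    refine (A.coef I).mul_mem (fun j _ => hf g hg j (Finset.mem_univ j)) ?_
    exact (cochains A.coef A.coef_anti).one_mem c I hI hm
  refine ⟨T, ?_, ?_⟩
  · intro w hw
    obtain ⟨l, -, rfl⟩ := Finset.mem_image.1 hw
    refine Subalgebra.list_prod_mem _ ?_
    intro x hx
    obtain ⟨y, -, rfl⟩ := List.mem_map.1 hx
    exact hcoch y.1 y.2
  · intro z hz
    have h1 : z ∈ Algebra.adjoin (A.invs (Finset.univ : Finset (Fin n))) G' := by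
      induction hz using Algebra.adjoin_induction with
      | mem x hx =>
        have e : x = (x - f x • (1 : Conv A.Sph (MvPolynomial (Fin n) ℚ))) +
            (⟨f x, hf x hx⟩ : A.invs (Finset.univ : Finset (Fin n))) •
              (1 : Conv A.Sph (MvPolynomial (Fin n) ℚ)) := by
          change x = (x - f x • (1 : Conv A.Sph (MvPolynomial (Fin n) ℚ))) +
            f x • (1 : Conv A.Sph (MvPolynomial (Fin n) ℚ))
          rw [sub_add_cancel]
        rw [e]
        refine add_mem (Algebra.subset_adjoin ⟨x, hx, rfl⟩) ?_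
        exact Subalgebra.smul_mem _ (one_mem _) _
      | algebraMap r =>
        have e : algebraMap ℚ (Conv A.Sph (MvPolynomial (Fin n) ℚ)) r =
            (algebraMap ℚ (A.invs (Finset.univ : Finset (Fin n))) r) •
              (1 : Conv A.Sph (MvPolynomial (Fin n) ℚ)) := by
          rw [Algebra.algebraMap_eq_smul_one, Algebra.algebraMap_eq_smul_one]
          refine Conv.ext fun c => ?_
          change r • (1 : Conv A.Sph (MvPolynomial (Fin n) ℚ)) c =
            (r • (1 : MvPolynomial (Fin n) ℚ)) * (1 : Conv A.Sph (MvPolynomial (Fin n) ℚ)) c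
          rw [smul_mul_assoc, one_mul]
        rw [e]
        exact Subalgebra.smul_mem _ (one_mem _) _
      | add x y _ _ hx hy => exact add_mem hx hy
      | mul x y _ _ hx hy => exact mul_mem hx hy
    have h2 : z ∈ Submodule.span (A.invs (Finset.univ : Finset (Fin n)))
        (T : Set (Conv A.Sph (MvPolynomial (Fin n) ℚ))) := by
      rw [← Subalgebra.mem_toSubmodule, Algebra.adjoin_eq_span] at h1
      refine (Submodule.span_le.2 ?_) h1
      intro x hx
      obtain ⟨l, hl, rfl⟩ := Submonoid.exists_list_of_mem_closure hx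
      by_cases hL : l.length < L
      · refine Submodule.subset_span ?_
        rw [Finset.mem_coe]
        refine Finset.mem_image.2 ⟨l.attach.map fun x => ⟨x.1, hl x.1 x.2⟩, ?_, ?_⟩
        · rw [Set.Finite.mem_toFinset]
          simpa using hL
        · rw [List.map_map]
          congr 1
          exact List.attach_map_subtype_val l
      · have h0 : l.prod = 0 := by
          refine (Hi.prod l ?_).eq_zero ?_
          · intro φ hφ
            obtain ⟨g, hg, rfl⟩ := hl φ hφ
            exact hf1 g hg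
          · intro c
            exact (card_flag A c).trans (not_lt.1 hL)
        rw [h0]
        exact zero_mem _
    obtain ⟨r, -, hr⟩ := Submodule.mem_span_finset.1 h2
    exact ⟨r, hr.symm⟩

end Pool.Agent.W628.KM
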