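import Mathlib
import Pool.Agent.W628.KM.Gen

/-!
# The cohomology algebra is not finitely generated
-/

open MvPolynomial

namespace Pool.Agent.W628.KM

variable {n : ℕ} {A : GCM n}

lemma comp_psi {ψ : MvPolynomial (Fin n) ℚ} (h2 : ψ.IsHomogeneous 2) (s t : ℕ)
    (φ : Conv A.Sph (MvPolynomial (Fin n) ℚ)) : comp s (t + 2) (ψ • φ) = ψ • comp s t φ := by
  refine Conv.ext fun c => ?_
  rw [Conv.smul_apply, comp, comp]
  split_ifs
  · rw [Conv.smul_apply, homogeneousComponent_mul_left h2, if_pos (by omega), Nat.add_sub_cancel]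
  · rw [mul_zero]

lemma comp_rat (q : ℚ) (s t : ℕ) (φ : Conv A.Sph (MvPolynomial (Fin n) ℚ)) :
    comp s t ((C q : MvPolynomial (Fin n) ℚ) • φ) =
      (C q : MvPolynomial (Fin n) ℚ) • comp s t φ := by
  refine Conv.ext fun c => ?_
  rw [Conv.smul_apply, comp, comp]
  split_ifs
  · rw [Conv.smul_apply, homogeneousComponent_C_mul]
  · rw [mul_zero]

/-- Multiplication by an invariant quadratic form. -/
noncomputable def mulPsi (A : GCM n) {ψ : MvPolynomial (Fin n) ℚ} (h2 : ψ.IsHomogeneous 2)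
    (hi : ψ ∈ A.invs Finset.univ) (s t : ℕ) : A.C s t →ₗ[ℚ] A.C s (t + 2) where
  toFun y := ⟨ψ • y.1, by
    refine ⟨fun c I hI hm => ?_, fun c hc => ?_, fun c => ?_⟩
    · rw [Conv.smul_apply]
      exact (A.coef I).mul_mem (fun j _ => hi j (Finset.mem_univ j)) (y.2.1 c I hI hm)
    · rw [Conv.smul_apply, y.2.2.1 c hc, mul_zero]
    · rw [Conv.smul_apply, add_comm]
      exact h2.mul (y.2.2.2 c)⟩
  map_add' x y := Subtype.ext (smul_add _ _ _)
  map_smul' q y := Subtype.ext (by
    refine Conv.ext fun c => ?_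
    change ψ * (q • y.1 c) = q • (ψ * y.1 c)
    rw [mul_smul_comm])

lemma mulPsi_mem_B {ψ : MvPolynomial (Fin n) ℚ} (h2 : ψ.IsHomogeneous 2)
    (hi : ψ ∈ A.invs Finset.univ) (s t : ℕ) {y : A.C s t} (hy : y ∈ A.B s t) :
    mulPsi A h2 hi s t y ∈ A.B s (t + 2) := by
  cases s with
  | zero =>
    have h0 : y = 0 := hy
    rw [h0, map_zero]
    exact zero_mem _
  | succ s =>
    obtain ⟨x, rfl⟩ := hy
    exact ⟨mulPsi A h2 hi s t x, Subtype.ext (df_smul ψ x.1)⟩

lemma comp_df_mem_B {b : Conv A.Sph (MvPolynomial (Fin n) ℚ)}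
    (hb : b ∈ cochains A.coef A.coef_anti) (s t : ℕ) :
    (⟨comp s t (df b), comp_mem (df_mem _ _ hb) s t⟩ : A.C s t) ∈ A.B s t := by
  cases s with
  | zero =>
    have : (⟨comp 0 t (df b), comp_mem (df_mem _ _ hb) 0 t⟩ : A.C 0 t) = 0 :=
      Subtype.ext (comp_zero_df t b)
    rw [this]
    exact zero_mem _
  | succ s =>
    exact ⟨⟨comp s t b, comp_mem hb s t⟩, Subtype.ext (df_comp s t b)⟩

lemma exists_bound (T : Finset (Conv A.Sph (MvPolynomial (Fin n) ℚ))) :
    ∃ T0, ∀ w ∈ T, ∀ s k, T0 ≤ k → comp s k w = 0 := by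
  refine ⟨T.sup (fun w => Finset.univ.sup fun c : Flag A.Sph => (w c).totalDegree) + 1,
    fun w hw s k hk => Conv.ext fun c => ?_⟩
  rw [comp]
  split_ifs
  · apply homogeneousComponent_eq_zero
    have h1 : (w c).totalDegree ≤ Finset.univ.sup fun c : Flag A.Sph => (w c).totalDegree :=
      Finset.le_sup (f := fun c : Flag A.Sph => (w c).totalDegree) (Finset.mem_univ c)
    have h2 : (Finset.univ.sup fun c : Flag A.Sph => (w c).totalDegree) ≤
        T.sup (fun w => Finset.univ.sup fun c : Flag A.Sph => (w c).totalDegree) :=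
      Finset.le_sup (f := fun w : Conv A.Sph (MvPolynomial (Fin n) ℚ) =>
        Finset.univ.sup fun c : Flag A.Sph => (w c).totalDegree) hw
    omega
  · rfl

lemma comp_finset_sum (u : Finset (Conv A.Sph (MvPolynomial (Fin n) ℚ))) (s t : ℕ)
    (φ : Conv A.Sph (MvPolynomial (Fin n) ℚ) → Conv A.Sph (MvPolynomial (Fin n) ℚ)) :
    comp s t (∑ i ∈ u, φ i) = ∑ i ∈ u, comp s t (φ i) := comp_sum u s t φ

theorem h_decreasing {ψ : MvPolynomial (Fin n) ℚ} (h2 : ψ.IsHomogeneous 2)
    (hi : ψ ∈ A.invs Finset.univ)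
    (hψ : ∀ r ∈ A.invs Finset.univ, ∃ c : ℚ, ∃ g ∈ A.invs Finset.univ, r = C c + ψ * g)
    (T : Finset (Conv A.Sph (MvPolynomial (Fin n) ℚ)))
    (hT : ∀ w ∈ T, w ∈ cochains A.coef A.coef_anti)
    (hz : ∀ z ∈ cochains A.coef A.coef_anti, df z = 0 →
      ∃ r : Conv A.Sph (MvPolynomial (Fin n) ℚ) → A.invs (Finset.univ : Finset (Fin n)),
        ∃ b ∈ cochains A.coef A.coef_anti, z = ∑ w ∈ T, (r w).1 • w + df b) :
    ∃ T0, ∀ s t, T0 ≤ t → A.h s (t + 2) ≤ A.h s t := by
  obtain ⟨T0, hT0⟩ := exists_bound T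
  refine ⟨T0, fun s t ht => ?_⟩
  have key : ∀ z ∈ A.Z s (t + 2), ∃ y ∈ A.Z s t, ∃ b ∈ A.B s (t + 2),
      z = mulPsi A h2 hi s t y + b := by
    intro z hz'
    have hdz : df z.1 = 0 := congrArg Subtype.val (LinearMap.mem_ker.1 hz')
    obtain ⟨r, b, hb, e⟩ := hz z.1 z.2.1 hdz
    choose c g hg hr using fun w => hψ (r w).1 (r w).2
    let Y : Conv A.Sph (MvPolynomial (Fin n) ℚ) := ∑ w ∈ T, g w • w
    have hY : Y ∈ cochains A.coef A.coef_anti := by
      refine sum_mem fun w hw => ?_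
      intro c I hI hm
      rw [Conv.smul_apply]
      exact (A.coef I).mul_mem (fun j _ => hg w j (Finset.mem_univ j)) (hT w hw c I hI hm)
    have e1 : ∑ w ∈ T, (r w).1 • w =
        ∑ w ∈ T, (C (c w) : MvPolynomial (Fin n) ℚ) • w + ψ • Y := by
      rw [Finset.smul_sum, ← Finset.sum_add_distrib]
      refine Finset.sum_congr rfl fun w _ => ?_
      rw [smul_smul, ← add_smul, ← hr w]
    have e2 : z.1 = ψ • comp s t Y + comp s (t + 2) (df b) := by
      rw [← comp_of_mem z.2]
      conv_lhs => rw [e, e1, comp_add, comp_add, comp_finset_sum, comp_psi h2]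
      rw [Finset.sum_eq_zero fun w hw => ?_, zero_add]
      rw [comp_rat, hT0 w hw s (t + 2) (by omega), smul_zero]
    by_cases h0 : ψ = 0
    · refine ⟨0, zero_mem _, _, comp_df_mem_B hb s (t + 2), ?_⟩
      rw [map_zero, zero_add]
      refine Subtype.ext ?_
      rw [e2, h0, zero_smul, zero_add]
    · refine ⟨⟨comp s t Y, comp_mem hY s t⟩, ?_, _, comp_df_mem_B hb s (t + 2), Subtype.ext e2⟩
      rw [GCM.Z, LinearMap.mem_ker]
      refine Subtype.ext ?_
      change df (comp s t Y) = 0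
      have h3 : df (comp s (t + 2) (df b)) = 0 := by
        rw [df_comp, df_df]
        refine Conv.ext fun c => ?_
        rw [comp]
        split_ifs
        · exact map_zero _
        · rfl
      rw [e2, df_add, df_smul, h3, add_zero] at hdz
      refine Conv.ext fun c => ?_
      have h4 := congrFun hdz c
      change ψ * (df (comp s t Y)) c = 0 at h4
      exact (mul_eq_zero.1 h4).resolve_left h0
  let Φ : (A.Z s t × A.B s (t + 2)) →ₗ[ℚ] A.C s (t + 2) :=
    LinearMap.coprod (mulPsi A h2 hi s t ∘ₗ (A.Z s t).subtype) (A.B s (t + 2)).subtype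
  have hrange : A.Z s (t + 2) ≤ LinearMap.range Φ := by
    intro z hz'
    obtain ⟨y, hy, b, hb, e⟩ := key z hz'
    exact ⟨(⟨y, hy⟩, ⟨b, hb⟩), e.symm⟩
  have h1 := Submodule.finrank_mono hrange
  have h3 := LinearMap.finrank_range_add_finrank_ker Φ
  rw [Module.finrank_prod] at h3
  have h4 : Module.finrank ℚ (A.B s t) ≤ Module.finrank ℚ (LinearMap.ker Φ) := by
    let κ : A.B s t →ₗ[ℚ] LinearMap.ker Φ :=
      { toFun := fun y => ⟨(⟨y.1, B_le_Z A s t y.2⟩, ⟨-mulPsi A h2 hi s t y.1,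
          neg_mem (mulPsi_mem_B h2 hi s t y.2)⟩), by
          rw [LinearMap.mem_ker]
          change mulPsi A h2 hi s t y.1 + -mulPsi A h2 hi s t y.1 = 0
          rw [add_neg_cancel]⟩
        map_add' := fun x y => by
          refine Subtype.ext (Prod.ext rfl (Subtype.ext ?_))
          change -mulPsi A h2 hi s t (x.1 + y.1) =
            -mulPsi A h2 hi s t x.1 + -mulPsi A h2 hi s t y.1
          rw [map_add, neg_add]
        map_smul' := fun q y => by
          refine Subtype.ext (Prod.ext rfl (Subtype.ext ?_))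
          change -mulPsi A h2 hi s t (q • y.1) = q • -mulPsi A h2 hi s t y.1
          rw [map_smul, smul_neg] }
    refine LinearMap.finrank_le_finrank_of_injective (f := κ) ?_
    intro x y h
    have := congrArg (fun z => z.1.1.1) h
    exact Subtype.ext this
  have h5 := h_add A s t
  have h6 := h_add A s (t + 2)
  omega

/-- The cohomology algebra of the poset of spherical subsets with coefficients in the rings of
invariants `P^{W_I}`. -/
def GCM.H (A : GCM n) : Type := Coh A.coef A.coef_anti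

noncomputable instance (A : GCM n) : Ring A.H := instRingCoh A.coef A.coef_anti

noncomputable instance (A : GCM n) : Algebra ℚ A.H := instAlgebraRatCoh A.coef A.coef_anti

theorem main_coh (hn : 3 ≤ n) (hind : A.Indecomposable) (hdef : A.Indefinite) :
    ¬ Algebra.FiniteType ℚ (Coh A.coef A.coef_anti) := by
  classical
  intro hft
  obtain ⟨s, hs⟩ := hft.out
  let π := toCoh A.coef A.coef_anti
  have hπ : Function.Surjective π := toCoh_surjective _ _
  choose σ hσ using hπ
  let G : Set (Cocyc A.coef A.coef_anti) := σ '' (s : Set (Coh A.coef A.coef_anti))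
  have hG : G.Finite := s.finite_toSet.image σ
  have hadj : (Algebra.adjoin ℚ G).map π = ⊤ := by
    rw [AlgHom.map_adjoin, ← hs]
    congr 1
    rw [Set.image_image]
    simp only [hσ, Set.image_id']
  let v := cocycVal A.coef A.coef_anti
  obtain ⟨T, hT, hT'⟩ := adjoin_words (v '' G) (hG.image v) (by
    rintro _ ⟨g, -, rfl⟩
    exact g.2)
  obtain ⟨ψ, h2, hi, hψ⟩ := exists_psi (by omega : 0 < n) hind hdef
  obtain ⟨T0, hT0⟩ := h_decreasing h2 hi hψ T hT (fun z hz hd => by
    have h1 : π ⟨z, hz, hd⟩ ∈ (Algebra.adjoin ℚ G).map π := by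
      rw [hadj]
      exact Algebra.mem_top
    obtain ⟨w, hw, e⟩ := h1
    obtain ⟨b, hb, hb'⟩ := toCoh_eq _ _ e.symm
    have h4 : v w ∈ Algebra.adjoin ℚ (v '' G) := by
      rw [← AlgHom.map_adjoin]
      exact ⟨w, hw, rfl⟩
    obtain ⟨r, hr⟩ := hT' _ h4
    refine ⟨r, b, hb, ?_⟩
    rw [← hr, hb']
    change z = w.1 + (z - w.1)
    abel)
  exact contradiction_of_decreasing A hn T0 hT0

theorem main (A : GCM n) (hn : 3 ≤ n) (hind : A.Indecomposable) (hdef : A.Indefinite) :
    ¬ Algebra.FiniteType ℚ A.H :=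
  main_coh hn hind hdef

end Pool.Agent.W628.KM
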